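import Mathlib
import Pool.Agent.H194R3.Tate.Flip

/-!
# The second moment of the slopes for families of flipped fields
-/

set_option autoImplicit false
set_option linter.unusedSectionVars false

namespace Pool.Agent.W484.BB

open NumberField Module Pool.Agent.H925R2 Pool.Agent.H485R3 Pool.Agent.H204R3.CM
  Pool.Agent.H868R3.TwoOdd Pool.Agent.H194R3.CM Pool.Agent.H194R3.Tate

/-- The group theoretic core: orthogonality. -/
theorem sum_sq_le {X : Type*} {G : Type*} [Group G] [Fintype G] [MulAction G X]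
    (inv : X → X) (hG : ∀ (g : G) (x : X), g • inv x = inv (g • x))
    (u : X → ℝ) (hua : ∀ x, u (inv x) = -u x)
    (hflip : ∀ x y, y ≠ x → y ≠ inv x →
      ∃ g : G, (g • x = x ∧ g • y = inv y) ∨ (g • x = inv x ∧ g • y = y) ∨
        (g • x = y ∧ g • y = inv x))
    {n : ℕ} (x : Fin n → X) (hx : ∀ j k, x k ≠ inv (x j)) (B : ℝ)
    (hB : ∀ g : G, |∑ j, u (g • x j)| ≤ B) :
    ∑ j, ∑ g : G, u (g • x j) ^ 2 ≤ Fintype.card G * B ^ 2 := by
  classical
  let A : X → X → ℝ := fun x y => ∑ g : G, u (g • x) * u (g • y)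
  have hAsymm : ∀ x y, A x y = A y x := by
    intro x y
    exact Finset.sum_congr rfl fun g _ => mul_comm _ _
  have hAinv : ∀ (h : G) x y, A (h • x) (h • y) = A x y := by
    intro h x y
    simp only [A, ← mul_smul]
    exact Fintype.sum_equiv (Equiv.mulRight h) _ _ fun g => rfl
  have hA1 : ∀ x y, A (inv x) y = -A x y := by
    intro x y
    simp only [A, hG, hua, neg_mul, Finset.sum_neg_distrib]
  have hA2 : ∀ x y, A x (inv y) = -A x y := by
    intro x y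
    simp only [A, hG, hua, mul_neg, Finset.sum_neg_distrib]
  have hA0 : ∀ x y, y ≠ x → y ≠ inv x → A x y = 0 := by
    intro x y h1 h2
    obtain ⟨g, ⟨hg1, hg2⟩ | ⟨hg1, hg2⟩ | ⟨hg1, hg2⟩⟩ := hflip x y h1 h2
    · have h3 := hAinv g x y
      rw [hg1, hg2, hA2] at h3
      linarith
    · have h3 := hAinv g x y
      rw [hg1, hg2, hA1] at h3
      linarith
    · have h3 := hAinv g x y
      rw [hg1, hg2, hA2, hAsymm] at h3
      linarith
  have hAnn : ∀ j k, 0 ≤ A (x j) (x k) := by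
    intro j k
    by_cases h : x k = x j
    · rw [h]
      exact Finset.sum_nonneg fun g _ => mul_self_nonneg _
    · exact (hA0 _ _ h (hx j k)).ge
  have h1 : ∑ g : G, (∑ j, u (g • x j)) ^ 2 ≤ Fintype.card G * B ^ 2 := by
    calc ∑ g : G, (∑ j, u (g • x j)) ^ 2 ≤ ∑ _g : G, B ^ 2 := by
          refine Finset.sum_le_sum fun g _ => ?_
          rw [← sq_abs]
          exact pow_le_pow_left₀ (abs_nonneg _) (hB g) 2
      _ = Fintype.card G * B ^ 2 := by simp
  have h2 : ∑ g : G, (∑ j, u (g • x j)) ^ 2 = ∑ j, ∑ k, A (x j) (x k) := by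
    simp only [A]
    simp only [pow_two, Finset.sum_mul_sum]
    rw [Finset.sum_comm]
    exact Finset.sum_congr rfl fun j _ => Finset.sum_comm
  have h3 : ∀ j, ∑ g : G, u (g • x j) ^ 2 = A (x j) (x j) := by
    intro j
    exact Finset.sum_congr rfl fun g _ => pow_two _
  calc ∑ j, ∑ g : G, u (g • x j) ^ 2 = ∑ j, A (x j) (x j) := Finset.sum_congr rfl fun j _ => h3 j
    _ ≤ ∑ j, ∑ k, A (x j) (x k) := by
        refine Finset.sum_le_sum fun j _ => ?_
        exact Finset.single_le_sum (f := fun k => A (x j) (x k)) (fun k _ => hAnn j k)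
          (Finset.mem_univ j)
    _ ≤ _ := by rw [← h2]; exact h1

variable {I : Type*} (p : ℕ) [Fact p.Prime] {K : I → Type*} [∀ i, Field (K i)]
  [∀ i, NumberField (K i)] [∀ i, IsCMField (K i)]

/-- The sum of the squares of the deviations `2 λ - 1` of the slopes `λ` of the conjugates of `π`. -/
noncomputable def spread (a : ℕ) {F : Type*} [Field F] [NumberField F] (π : F) : ℝ :=
  ∑ τ : F →+* PadicAlgCl p, (2 * (- Real.logb ((p : ℝ) ^ a) ‖τ π‖) - 1) ^ 2

/-- The sum over the Galois group of the squares of the slopes. -/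
theorem sum_gal {L : Type*} [Field L] [NumberField L] [IsGalois ℚ L]
    (j : L →+* ℂ) (h : ∀ i, ∀ ψ : K i →+* ℂ, ∃ φ : K i →+* L, j.comp φ = ψ)
    (a : ℕ) (ha : 0 < a) (π : ∀ i, K i) (e : L →ₐ[ℚ] PadicAlgCl p) (x : Σ i, (K i →+* L)) :
    (finrank ℚ (K x.1) : ℝ) * ∑ g : L ≃ₐ[ℚ] L, slope p (fun _ => (p : ℚ) ^ a) π e (g • x) ^ 2 =
      Fintype.card (L ≃ₐ[ℚ] L) * (Real.log ((p : ℝ) ^ a) ^ 2 * spread p a (π x.1)) := by
  classical
  obtain ⟨i, φ₀⟩ := x
  simp only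
  let G := L ≃ₐ[ℚ] L
  let f : (K i →+* L) → ℝ := fun φ => dev p ((p : ℚ) ^ a) (e (φ (π i))) ^ 2
  have h0 : ∀ g : G, slope p (fun _ => (p : ℚ) ^ a) π e (g • (⟨i, φ₀⟩ : Σ i, (K i →+* L))) ^ 2 =
      f (g • φ₀) := fun g => rfl
  have h1 : ∀ φ : K i →+* L, ∑ g : G, f (g • φ) = ∑ g : G, f (g • φ₀) := by
    intro φ
    obtain ⟨g₀, hg₀⟩ := MulAction.exists_smul_eq G φ₀ φ
    rw [← hg₀]
    simp only [← mul_smul]
    exact Fintype.sum_equiv (Equiv.mulRight g₀) _ _ fun g => rfl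
  have h2 : ∑ φ : K i →+* L, ∑ g : G, f (g • φ) = finrank ℚ (K i) * ∑ g : G, f (g • φ₀) := by
    rw [Finset.sum_congr rfl (fun φ _ => h1 φ), Finset.sum_const, Finset.card_univ,
      card_emb j (h i), nsmul_eq_mul]
  have h3 : ∑ φ : K i →+* L, ∑ g : G, f (g • φ) = Fintype.card G * ∑ φ : K i →+* L, f φ := by
    rw [Finset.sum_comm]
    have h4 : ∀ g : G, ∑ φ : K i →+* L, f (g • φ) = ∑ φ : K i →+* L, f φ := fun g =>
      Fintype.sum_equiv (MulAction.toPerm g) _ _ fun φ => rfl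
    rw [Finset.sum_congr rfl (fun g _ => h4 g), Finset.sum_const, Finset.card_univ, nsmul_eq_mul]
  have h5 : ∑ φ : K i →+* L, f φ = Real.log ((p : ℝ) ^ a) ^ 2 * spread p a (π i) := by
    have hbij : Function.Bijective (fun φ : K i →+* L => (e : L →+* PadicAlgCl p).comp φ) := by
      constructor
      · intro φ φ' hh
        ext y
        have h6 : e (φ y) = e (φ' y) := RingHom.congr_fun hh y
        exact (e : L →+* PadicAlgCl p).injective h6
      · intro τ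
        exact exists_lift j (h i) e τ
    unfold spread
    rw [Finset.mul_sum]
    refine Fintype.sum_bijective _ hbij _ _ fun φ => ?_
    change dev p ((p : ℚ) ^ a) (e (φ (π i))) ^ 2 = _
    rw [dev_pow p a ha]
    change _ = _ * (2 * (- Real.logb ((p : ℝ) ^ a) ‖e (φ (π i))‖) - 1) ^ 2
    ring
  rw [Finset.sum_congr rfl (fun g _ => h0 g), ← h2, h3, h5]

/-- **The second moment inequality.** -/
theorem sum_spread_le [Fintype I] {L : Type*} [Field L] [NumberField L] [IsGalois ℚ L]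
    (j : L →+* ℂ) (h : ∀ i, ∀ ψ : K i →+* ℂ, ∃ φ : K i →+* L, j.comp φ = ψ)
    (a : ℕ) (ha : 0 < a) (π : ∀ i, K i)
    (hweil : ∀ i, ∀ φ : K i →+* ℂ, ‖φ (π i)‖ ^ 2 = (p : ℝ) ^ a)
    (hflip : ∀ x y : Σ i, (K i →+* ℂ), y ≠ x → y ≠ bar x → Flipped x y)
    (e : L →ₐ[ℚ] PadicAlgCl p) {n : ℕ} (x : Fin n → Σ i, (K i →+* L))
    (hx : ∀ k l, x l ≠ inj (x k))
    (hB : ∀ g : L ≃ₐ[ℚ] L,
      |∑ k, slope p (fun _ => (p : ℚ) ^ a) π e (g • x k)| ≤ Real.log ((p : ℝ) ^ a)) :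
    ∑ k, spread p a (π (x k).1) / finrank ℚ (K (x k).1) ≤ 1 := by
  classical
  have hp1 : (1 : ℝ) < (p : ℝ) ^ a :=
    one_lt_pow₀ (by exact_mod_cast (Fact.out : p.Prime).one_lt) ha.ne'
  have hlog : 0 < Real.log ((p : ℝ) ^ a) := Real.log_pos hp1
  have hq : ∀ _i : I, (0 : ℚ) < (p : ℚ) ^ a :=
    fun _ => pow_pos (by exact_mod_cast (Fact.out : p.Prime).pos) _
  have hweil' : ∀ i, ∀ φ : K i →+* ℂ, ‖φ (π i)‖ ^ 2 = (((p : ℚ) ^ a : ℚ) : ℝ) := by
    intro i φ
    rw [hweil i φ]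
    push_cast
    rfl
  have key := sum_sq_le (G := L ≃ₐ[ℚ] L) inj (by rintro g ⟨i, φ⟩; rfl)
    (slope p (fun _ => (p : ℚ) ^ a) π e) (slope_inj p hq hweil' e) (by
      intro x y h1 h2
      refine flip_transfer j x y (hflip _ _ ?_ ?_)
      · intro h3
        apply h1
        obtain ⟨a, φ⟩ := x
        obtain ⟨b, ψ⟩ := y
        simp only [Sigma.mk.injEq] at h3
        obtain ⟨rfl, h3⟩ := h3
        rw [comp_injective j (eq_of_heq h3)]
      · intro h3
        apply h2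
        obtain ⟨a, φ⟩ := x
        obtain ⟨b, ψ⟩ := y
        have h4 : (⟨b, j.comp ψ⟩ : Σ i, (K i →+* ℂ)) = ⟨a, j.comp (cbar φ)⟩ := by
          rw [h3, comp_cbar]
          rfl
        simp only [Sigma.mk.injEq] at h4
        obtain ⟨rfl, h4⟩ := h4
        rw [comp_injective j (eq_of_heq h4)]
        rfl) x hx (Real.log ((p : ℝ) ^ a)) hB
  have hN : (0 : ℝ) < Fintype.card (L ≃ₐ[ℚ] L) := by
    exact_mod_cast Fintype.card_pos
  have h1 : ∀ k, ∑ g : L ≃ₐ[ℚ] L, slope p (fun _ => (p : ℚ) ^ a) π e (g • x k) ^ 2 =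
      Fintype.card (L ≃ₐ[ℚ] L) * Real.log ((p : ℝ) ^ a) ^ 2 *
        (spread p a (π (x k).1) / finrank ℚ (K (x k).1)) := by
    intro k
    have h2 := sum_gal p j h a ha π e (x k)
    have h3 : (0 : ℝ) < finrank ℚ (K (x k).1) := by
      exact_mod_cast finrank_pos
    field_simp
    linarith
  rw [Finset.sum_congr rfl (fun k _ => h1 k), ← Finset.mul_sum] at key
  have h4 : 0 < Fintype.card (L ≃ₐ[ℚ] L) * Real.log ((p : ℝ) ^ a) ^ 2 := by positivity
  have h5 : Fintype.card (L ≃ₐ[ℚ] L) * Real.log ((p : ℝ) ^ a) ^ 2 *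
      ∑ k, spread p a (π (x k).1) / finrank ℚ (K (x k).1) ≤
      Fintype.card (L ≃ₐ[ℚ] L) * Real.log ((p : ℝ) ^ a) ^ 2 * 1 := by
    rw [mul_one]
    exact key
  exact le_of_mul_le_mul_left h5 h4

end Pool.Agent.W484.BB
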