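import Mathlib
import Pool.Agent.W484.BB.Core

/-!
# A multiplicative relation between conjugates of the `π i` and a Weil number
-/

set_option autoImplicit false
set_option linter.unusedSectionVars false

namespace Pool.Agent.W484.BB

open NumberField Module Pool.Agent.H925R2 Pool.Agent.H485R3 Pool.Agent.H204R3.CM
  Pool.Agent.H868R3.TwoOdd Pool.Agent.H194R3.CM Pool.Agent.H194R3.Tate IntermediateField

/-- The family `K` with one more field. -/
def ext {I : Type} (K : I → Type) (E : Type) : Option I → Type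
  | none => E
  | some i => K i

noncomputable instance extField {I : Type} (K : I → Type) [∀ i, Field (K i)] (E : Type) [Field E] :
    ∀ o, Field (ext K E o)
  | none => inferInstanceAs (Field E)
  | some i => inferInstanceAs (Field (K i))

instance extNumberField {I : Type} (K : I → Type) [∀ i, Field (K i)] [∀ i, NumberField (K i)]
    (E : Type) [Field E] [NumberField E] : ∀ o, NumberField (ext K E o)
  | none => inferInstanceAs (NumberField E)
  | some i => inferInstanceAs (NumberField (K i))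

variable {I : Type} (p : ℕ) [Fact p.Prime] {K : I → Type} [∀ i, Field (K i)]
  [∀ i, NumberField (K i)] [∀ i, IsCMField (K i)]

theorem exists_galois_with [Fintype I] (ρ : ℂ) (hρ : IsIntegral ℤ ρ) :
    ∃ (L : IntermediateField ℚ (AlgebraicClosure ℚ)) (_ : NumberField L) (_ : IsGalois ℚ L)
      (j : L →+* ℂ), (∀ i, ∀ ψ : K i →+* ℂ, ∃ φ : K i →+* L, j.comp φ = ψ) ∧ ∃ r : L, j r = ρ := by
  have hρQ : IsIntegral ℚ ρ := hρ.tower_top
  have : FiniteDimensional ℚ ℚ⟮ρ⟯ := adjoin.finiteDimensional hρQ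
  have : NumberField ℚ⟮ρ⟯ := NumberField.mk
  obtain ⟨L, hL1, hL2, j, h⟩ := exists_galois (ext K ℚ⟮ρ⟯)
  refine ⟨L, hL1, hL2, j, fun i => h (some i), ?_⟩
  obtain ⟨φ, hφ⟩ := h none (algebraMap ℚ⟮ρ⟯ ℂ)
  refine ⟨φ (AdjoinSimple.gen ℚ ρ), ?_⟩
  have h1 := RingHom.congr_fun hφ (AdjoinSimple.gen ℚ ρ)
  exact h1.trans (AdjoinSimple.algebraMap_gen ℚ ρ)

theorem isIntegral_of_map {L : Type*} [Field L] (j : L →+* ℂ) (r : L) (h : IsIntegral ℤ (j r)) :
    IsIntegral ℤ r := by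
  obtain ⟨f, hf, h0⟩ := h
  refine ⟨f, hf, j.injective ?_⟩
  rw [map_zero, ← h0, Polynomial.hom_eval₂]
  congr 1
  exact RingHom.ext_int _ _

/-- The deviation of a Weil number is at most `log q`. -/
theorem abs_dev_le (a : ℕ) (x : PadicAlgCl p) (hx0 : x ≠ 0) (hx : IsIntegral ℤ x)
    (hx' : IsIntegral ℤ (((p : ℚ) ^ a : ℚ) / x : PadicAlgCl p)) :
    |dev p ((p : ℚ) ^ a) x| ≤ Real.log ((p : ℝ) ^ a) := by
  have h1 := norm_le_one_of_isIntegral p x hx
  have h2 := norm_le_one_of_isIntegral p _ hx'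
  have hq : 0 < ‖(((p : ℚ) ^ a : ℚ) : PadicAlgCl p)‖ := by
    rw [norm_pow_cast]
    have : (0 : ℝ) < p := by exact_mod_cast (Fact.out : p.Prime).pos
    positivity
  have hn : 0 < ‖x‖ := norm_pos_iff.2 hx0
  rw [norm_div, div_le_one hn] at h2
  have h3 : Real.log ‖x‖ ≤ 0 := Real.log_nonpos hn.le h1
  have h4 := Real.log_le_log hq h2
  have h5 : Real.log ‖(((p : ℚ) ^ a : ℚ) : PadicAlgCl p)‖ = - Real.log ((p : ℝ) ^ a) := by
    rw [norm_pow_cast, Real.log_inv]
  unfold dev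
  rw [h5] at h4 ⊢
  rw [abs_le]
  constructor <;> linarith

/-- **The second moment inequality for a relation.** -/
theorem spread_of_rel [Finite I] (a : ℕ) (ha : 0 < a) (π : ∀ i, K i)
    (hweil : ∀ i, ∀ φ : K i →+* ℂ, ‖φ (π i)‖ ^ 2 = (p : ℝ) ^ a)
    (hflip : ∀ x y : Σ i, (K i →+* ℂ), y ≠ x → y ≠ bar x → Flipped x y)
    (ρ : ℂ) (hρ : IsIntegral ℤ ρ) (hρn : ‖ρ‖ ^ 2 = (p : ℝ) ^ a)
    {n : ℕ} (x : Fin n → Σ i, (K i →+* ℂ)) (hx : ∀ k l, x l ≠ bar (x k))
    (M : ℕ) (hM : 0 < M)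
    (hrel : ((∏ k, (x k).2 (π (x k).1)) * ρ) ^ (2 * M) = ((p : ℂ) ^ a) ^ (M * (n + 1))) :
    ∑ k, spread p a (π (x k).1) / finrank ℚ (K (x k).1) ≤ 1 := by
  classical
  cases nonempty_fintype I
  obtain ⟨L, hL1, hL2, j, h, r, hr⟩ := exists_galois_with (K := K) ρ hρ
  let e : L →ₐ[ℚ] PadicAlgCl p := IsAlgClosed.lift
  have hp0 : (0 : ℝ) < (p : ℝ) ^ a :=
    pow_pos (by exact_mod_cast (Fact.out : p.Prime).pos) _
  have hρ0 : ρ ≠ 0 := by
    rintro rfl
    rw [norm_zero] at hρn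
    norm_num at hρn
    exact hp0.ne hρn
  have hr0 : r ≠ 0 := by
    rintro rfl
    rw [map_zero] at hr
    exact hρ0 hr.symm
  have hrint : IsIntegral ℤ r := isIntegral_of_map j r (by rw [hr]; exact hρ)
  have hrint' : IsIntegral ℤ ((((p : ℚ) ^ a : ℚ) : L) / r) := by
    apply isIntegral_of_map j
    rw [map_div₀, map_ratCast, hr]
    have h1 : ((((p : ℚ) ^ a : ℚ)) : ℂ) / ρ = (starRingEnd ℂ) ρ := by
      rw [div_eq_iff hρ0, mul_comm, Complex.mul_conj, Complex.normSq_eq_norm_sq, hρn]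
      push_cast
      rfl
    rw [h1]
    exact hρ.map (Complex.conjAe.toAlgHom.restrictScalars ℤ)
  choose W hW using fun k => h (x k).1 (x k).2
  have hrelL : ((∏ k, W k (π (x k).1)) * r) ^ (2 * M) =
      ((((p : ℚ) ^ a : ℚ)) : L) ^ (M * (n + 1)) := by
    apply j.injective
    rw [map_pow, map_mul, map_prod, map_pow, map_ratCast, hr]
    have h1 : ∀ k, j (W k (π (x k).1)) = (x k).2 (π (x k).1) := by
      intro k
      rw [← hW k]
      rfl
    simp only [h1]
    rw [hrel]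
    push_cast
    rfl
  have hπ0 : ∀ i, π i ≠ 0 := by
    intro i h0
    obtain ⟨φ⟩ : Nonempty (K i →+* ℂ) := inferInstance
    have h1 := hweil i φ
    rw [h0, map_zero, norm_zero] at h1
    norm_num at h1
    exact hp0.ne h1
  let y : Fin n → Σ i, (K i →+* L) := fun k => ⟨(x k).1, W k⟩
  have hB : ∀ g : L ≃ₐ[ℚ] L,
      |∑ k, slope p (fun _ => (p : ℚ) ^ a) π e (g • y k)| ≤ Real.log ((p : ℝ) ^ a) := by
    intro g
    have h1 := congrArg (fun z => Real.log ‖e (g z)‖) hrelL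
    simp only [map_pow, map_mul, map_prod, norm_pow, norm_mul, norm_prod, Real.log_pow,
      map_ratCast] at h1
    have hne : ∀ k, ‖e (g (W k (π (x k).1)))‖ ≠ 0 := by
      intro k
      rw [norm_ne_zero_iff, Ne, map_eq_zero, map_eq_zero, map_eq_zero]
      exact hπ0 _
    have hner : ‖e (g r)‖ ≠ 0 := by
      rw [norm_ne_zero_iff, Ne, map_eq_zero, map_eq_zero]
      exact hr0
    rw [Real.log_mul (Finset.prod_ne_zero_iff.2 fun k _ => hne k) hner,
      Real.log_prod (fun k _ => hne k)] at h1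
    have h2 : ∑ k, slope p (fun _ => (p : ℚ) ^ a) π e (g • y k) =
        - dev p ((p : ℚ) ^ a) (e (g r)) := by
      have h3 : ∀ k, slope p (fun _ => (p : ℚ) ^ a) π e (g • y k) =
          2 * Real.log ‖e (g (W k (π (x k).1)))‖ -
            Real.log ‖(((p : ℚ) ^ a : ℚ) : PadicAlgCl p)‖ := fun k => rfl
      rw [Finset.sum_congr rfl (fun k _ => h3 k), Finset.sum_sub_distrib, Finset.sum_const,
        Finset.card_univ, Fintype.card_fin, nsmul_eq_mul, ← Finset.mul_sum]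
      unfold dev
      have hM' : (M : ℝ) ≠ 0 := by exact_mod_cast hM.ne'
      apply mul_left_cancel₀ hM'
      push_cast at h1 ⊢
      linarith
    rw [h2, abs_neg]
    refine abs_dev_le p a _ ?_ ?_ ?_
    · rw [Ne, map_eq_zero, map_eq_zero]
      exact hr0
    · exact (hrint.map (g.toAlgHom.restrictScalars ℤ)).map (e.restrictScalars ℤ)
    · have h4 := (hrint'.map (g.toAlgHom.restrictScalars ℤ)).map (e.restrictScalars ℤ)
      have h5 : (e.restrictScalars ℤ) ((g.toAlgHom.restrictScalars ℤ)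
          ((((p : ℚ) ^ a : ℚ) : L) / r)) = (((p : ℚ) ^ a : ℚ) : PadicAlgCl p) / e (g r) := by
        change e (g ((((p : ℚ) ^ a : ℚ) : L) / r)) = _
        rw [map_div₀, map_div₀, map_ratCast, map_ratCast]
      rw [h5] at h4
      exact h4
  refine sum_spread_le p j h a ha π hweil hflip e y ?_ hB
  intro k l hkl
  apply hx k l
  have h1 : (⟨(x l).1, j.comp (W l)⟩ : Σ i, (K i →+* ℂ)) = ⟨(x k).1, j.comp (cbar (W k))⟩ :=
    congrArg (fun z : Σ i, (K i →+* L) => (⟨z.1, j.comp z.2⟩ : Σ i, (K i →+* ℂ))) hkl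
  rw [comp_cbar, hW, hW] at h1
  exact h1

end Pool.Agent.W484.BB
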