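import Mathlib
import Pool.Agent.W484.BB.Rel
import Pool.Agent.H194R3.Weil.Ext

/-!
# Lists of eigenvectors and products of classes of degree two
-/

set_option autoImplicit false
set_option linter.unusedSectionVars false

namespace Pool.Agent.W484.BB

open NumberField Module Pool.Agent.H925R2 Pool.Agent.H485R3 Pool.Agent.H204R3.CM
  Pool.Agent.H868R3.TwoOdd Pool.Agent.H194R3.CM Pool.Agent.H194R3.Tate IntermediateField
  ExteriorAlgebra Pool.Agent.H194R3.Weil

section general

variable {V : Type*} [AddCommGroup V] [Module ℂ V]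

/-- `y` is a class of degree two which is a Tate class over some extension of the base field with
`q` elements (by the theorem of Tate: a linear combination of classes of divisors). -/
def IsDivisorClass (F : V →ₗ[ℂ] V) (q : ℂ) (y : ExteriorAlgebra ℂ V) : Prop :=
  y ∈ ⋀[ℂ]^2 V ∧ ∃ N : ℕ, 0 < N ∧ ExteriorAlgebra.map (F ^ N) y = q ^ N • y

/-- The span of the products `Z 0 * ... * Z (k - 1) * v`, `Z l` divisor classes, `v` an eigenvector
whose eigenvalue `μ` satisfies `(μ ρ) ^ N = q ^ N` for some positive `N`. -/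
def prodSpan (F : V →ₗ[ℂ] V) (q ρ : ℂ) (k : ℕ) : Submodule ℂ (ExteriorAlgebra ℂ V) :=
  Submodule.span ℂ {t | ∃ (Z : Fin k → ExteriorAlgebra ℂ V) (v : V),
    (∀ l, IsDivisorClass F q (Z l)) ∧
      (∃ (μ : ℂ) (N : ℕ), 0 < N ∧ F v = μ • v ∧ (μ * ρ) ^ N = q ^ N) ∧
      t = (List.ofFn Z).prod * ι ℂ v}

theorem mul_mem_prodSpan (F : V →ₗ[ℂ] V) (q ρ : ℂ) (k : ℕ) (D : ExteriorAlgebra ℂ V)
    (hD : IsDivisorClass F q D) (t : ExteriorAlgebra ℂ V) (ht : t ∈ prodSpan F q ρ k) :
    D * t ∈ prodSpan F q ρ (k + 1) := by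
  have h : prodSpan F q ρ k ≤ (prodSpan F q ρ (k + 1)).comap (LinearMap.mulLeft ℂ D) := by
    refine Submodule.span_le.2 ?_
    rintro _ ⟨Z, v, hZ, hv, rfl⟩
    refine Submodule.subset_span ⟨Fin.cons D Z, v, ?_, hv, ?_⟩
    · intro l
      refine Fin.cases ?_ (fun l => ?_) l
      · exact hD
      · exact hZ l
    · rw [LinearMap.mulLeft_apply, List.ofFn_cons, List.prod_cons, mul_assoc]
  exact h ht

/-- To show that eigenclasses belong to a submodule, it is enough to treat products of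
eigenvectors. -/
theorem mem_of_lists_sub {X : Type*} (F : V →ₗ[ℂ] V) (val : X → ℂ)
    (hspan : Submodule.span ℂ {v : V | ∃ x, F v = val x • v} = ⊤) (n s : ℕ) (c : ℂ)
    (S : Submodule ℂ (ExteriorAlgebra ℂ V))
    (hS : ∀ L : List (V × X), L.length = n → (∀ e ∈ L, F e.1 = val e.2 • e.1) →
      (L.map (fun e => val e.2)).prod ^ s = c → (L.map (fun e => ι ℂ e.1)).prod ∈ S)
    (x : ExteriorAlgebra ℂ V) (hx : x ∈ ⋀[ℂ]^n V)
    (hFx : ExteriorAlgebra.map (F ^ s) x = c • x) : x ∈ S := by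
  classical
  set E' : Set V := {v : V | ∃ x, F v = val x • v} with hs
  have hsp := exteriorPower.ιMulti_span_fixedDegree_of_span_eq_top ℂ n V hspan
  set T : Set (ExteriorAlgebra ℂ V) :=
    {y | ∃ L : List (V × X), L.length = n ∧ (∀ e ∈ L, F e.1 = val e.2 • e.1) ∧
      (L.map (fun e => ι ℂ e.1)).prod = y} with hT
  have hTspan : x ∈ Submodule.span ℂ T := by
    rw [← hsp] at hx
    refine Submodule.span_mono ?_ hx
    rintro _ ⟨a, ha, rfl⟩
    have h1 : ∀ j, ∃ y, F (a j) = val y • a j := fun j => ha ⟨j, rfl⟩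
    choose y hy using h1
    refine ⟨List.ofFn fun j => (a j, y j), by simp, ?_, ?_⟩
    · intro e he
      rw [List.mem_ofFn] at he
      obtain ⟨j, rfl⟩ := he
      exact hy j
    · rw [ExteriorAlgebra.ιMulti_apply, List.map_ofFn]
      rfl
  have hmem := mem_span_eigen (ExteriorAlgebra.map (F ^ s)).toLinearMap T (by
    rintro t ⟨L, _, hL, rfl⟩
    exact ⟨_, map_prod_list F val s L hL⟩) c x hTspan hFx
  have hle : Submodule.span ℂ {t ∈ T | (ExteriorAlgebra.map (F ^ s)).toLinearMap t = c • t} ≤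
      S := by
    rw [Submodule.span_le]
    rintro t ⟨⟨L, hLn, hL, rfl⟩, ht⟩
    by_cases h0 : (L.map (fun e => ι ℂ e.1)).prod = 0
    · rw [h0]; exact Submodule.zero_mem _
    refine hS L hLn hL ?_
    have h1 : (L.map (fun e => val e.2)).prod ^ s • (L.map (fun e => ι ℂ e.1)).prod =
        c • (L.map (fun e => ι ℂ e.1)).prod := by
      rw [← map_prod_list F val s L hL]; exact ht
    exact smul_left_injective ℂ h0 h1
  exact hle hmem

theorem exists_of_not_pairwise {A : Type*} (R : A → A → Prop) :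
    ∀ L : List A, ¬ L.Pairwise R → ∃ a b L', L.Perm (a :: b :: L') ∧ ¬ R a b := by
  intro L
  induction L with
  | nil => intro h; exact absurd List.Pairwise.nil h
  | cons a L ih =>
    intro h
    rw [List.pairwise_cons, not_and_or] at h
    rcases h with h | h
    · push Not at h
      obtain ⟨b, hb, hab⟩ := h
      obtain ⟨L1, L2, rfl⟩ := List.append_of_mem hb
      exact ⟨a, b, L1 ++ L2, List.Perm.cons a List.perm_middle, hab⟩
    · obtain ⟨b, c, L', hL', hbc⟩ := ih h
      refine ⟨b, c, a :: L', ?_, hbc⟩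
      refine (List.Perm.cons a hL').trans ?_
      refine (List.Perm.swap b a _).trans (List.Perm.cons b ?_)
      exact List.Perm.swap c a _

end general

variable {I : Type} (p : ℕ) [Fact p.Prime] {K : I → Type} [∀ i, Field (K i)]
  [∀ i, NumberField (K i)] [∀ i, IsCMField (K i)]

/-- The eigenvalues. -/
def val (π : ∀ i, K i) (S : Set ℂ) : (Σ i, (K i →+* ℂ)) ⊕ S → ℂ
  | .inl x => x.2 (π x.1)
  | .inr μ => μ

def Good (q : ℂ) (a b : ℂ) : Prop := ∃ N : ℕ, 0 < N ∧ (a * b) ^ N = q ^ N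

theorem filterMap_prod (π : ∀ i, K i) (S : Set ℂ) :
    ∀ ys : List ((Σ i, (K i →+* ℂ)) ⊕ S),
      (ys.map (val π S)).prod =
        ((ys.filterMap Sum.getLeft?).map (fun x => x.2 (π x.1))).prod *
          ((ys.filterMap Sum.getRight?).map (fun μ : S => (μ : ℂ))).prod ∧
      ys.length = (ys.filterMap Sum.getLeft?).length + (ys.filterMap Sum.getRight?).length := by
  intro ys
  induction ys with
  | nil => simp
  | cons y ys ih =>
    obtain ⟨h1, h2⟩ := ih
    rcases y with x | μ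
    · simp only [List.map_cons, List.prod_cons, List.filterMap_cons, Sum.getLeft?_inl,
        Sum.getRight?_inl, List.length_cons, h1, h2, val]
      constructor
      · ring
      · omega
    · simp only [List.map_cons, List.prod_cons, List.filterMap_cons, Sum.getLeft?_inr,
        Sum.getRight?_inr, List.length_cons, h1, h2, val]
      constructor
      · ring
      · omega

theorem bar_bar (x : Σ i, (K i →+* ℂ)) : bar (bar x) = x := by
  obtain ⟨i, φ⟩ := x
  have h : ComplexEmbedding.conjugate (ComplexEmbedding.conjugate φ) = φ := by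
    ext z
    change (starRingEnd ℂ) ((starRingEnd ℂ) (φ z)) = φ z
    exact Complex.conj_conj _
  change (⟨i, ComplexEmbedding.conjugate (ComplexEmbedding.conjugate φ)⟩ :
    Σ i, (K i →+* ℂ)) = ⟨i, φ⟩
  rw [h]

theorem bar_ne (x : Σ i, (K i →+* ℂ)) : bar x ≠ x := by
  obtain ⟨i, φ⟩ := x
  intro h
  have h1 : ComplexEmbedding.conjugate φ = φ := eq_of_heq (Sigma.mk.inj_iff.1 h).2
  have h2 : ComplexEmbedding.IsReal φ := h1
  exact (InfinitePlace.not_isReal_iff_isComplex.2
    (IsTotallyComplex.isComplex (InfinitePlace.mk φ))) ⟨φ, h2, rfl⟩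

theorem val_bar (a : ℕ) (π : ∀ i, K i)
    (hweil : ∀ i, ∀ φ : K i →+* ℂ, ‖φ (π i)‖ ^ 2 = (p : ℝ) ^ a) (x : Σ i, (K i →+* ℂ)) :
    x.2 (π x.1) * (bar x).2 (π (bar x).1) = (p : ℂ) ^ a := by
  obtain ⟨i, φ⟩ := x
  change φ (π i) * (starRingEnd ℂ) (φ (π i)) = _
  rw [Complex.mul_conj, Complex.normSq_eq_norm_sq, hweil i φ]
  push_cast
  rfl

/-- **Existence of a pair.** -/
theorem exists_pair [Finite I] (a : ℕ) (ha : 0 < a) (π : ∀ i, K i)
    (hweil : ∀ i, ∀ φ : K i →+* ℂ, ‖φ (π i)‖ ^ 2 = (p : ℝ) ^ a)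
    (hflip : ∀ x y : Σ i, (K i →+* ℂ), y ≠ x → y ≠ bar x → Flipped x y)
    (hdev : ∀ i, (finrank ℚ (K i) : ℝ) < 3 * spread p a (π i))
    (S : Set ℂ) (hS : ∀ μ ∈ S, ∃ N : ℕ, 0 < N ∧ μ ^ (2 * N) = ((p : ℂ) ^ a) ^ N)
    (hSdev : S.Nonempty → ∀ i, (finrank ℚ (K i) : ℝ) < 2 * spread p a (π i))
    (ρ : ℂ) (hρ : IsIntegral ℤ ρ) (hρn : ‖ρ‖ ^ 2 = (p : ℝ) ^ a)
    (k s : ℕ) (hs : 0 < s) (ys : List ((Σ i, (K i →+* ℂ)) ⊕ S))
    (hlen : ys.length = 2 * k + 3)
    (hrel : ((ys.map (val π S)).prod * ρ) ^ s = (((p : ℂ) ^ a) ^ (k + 2)) ^ s) :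
    ¬ ys.Pairwise (fun y y' => ¬ Good ((p : ℂ) ^ a) (val π S y) (val π S y')) := by
  intro hpw
  have hp1 : (1 : ℝ) < (p : ℝ) ^ a :=
    one_lt_pow₀ (by exact_mod_cast (Fact.out : p.Prime).one_lt) ha.ne'
  have hq0 : ((p : ℂ) ^ a) ≠ 0 := by
    have : (p : ℂ) ≠ 0 := by exact_mod_cast (Fact.out : p.Prime).ne_zero
    exact pow_ne_zero _ this
  obtain ⟨xs, hxs⟩ : ∃ xs, xs = ys.filterMap Sum.getLeft? := ⟨_, rfl⟩
  obtain ⟨zs, hzs⟩ : ∃ zs, zs = ys.filterMap Sum.getRight? := ⟨_, rfl⟩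
  obtain ⟨hprod, hlen2⟩ := filterMap_prod π S ys
  rw [← hxs, ← hzs] at hprod hlen2
  -- no conjugate pairs among the `xs`
  have hpx : xs.Pairwise (fun x x' => x' ≠ bar x) := by
    rw [hxs]
    refine List.Pairwise.filterMap _ ?_ hpw
    intro y y' h x hx x' hx' hxx
    rcases y with y | y
    · rcases y' with y' | y'
      · simp only [Sum.getLeft?_inl, Option.some.injEq] at hx hx'
        subst hx hx'
        apply h
        refine ⟨1, one_pos, ?_⟩
        rw [pow_one, pow_one, hxx]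
        exact val_bar p a π hweil y
      · simp at hx'
    · simp at hx
  -- at most one supersingular eigenvalue
  have hpz : zs.length ≤ 1 := by
    by_contra hlt
    have hpz2 : zs.Pairwise (fun z z' : S => False) := by
      rw [hzs]
      refine List.Pairwise.filterMap _ ?_ hpw
      intro y y' h x hx x' hx'
      rcases y with y | y
      · simp at hx
      · rcases y' with y' | y'
        · simp at hx'
        · apply h
          obtain ⟨N, hN, h1⟩ := hS y y.2
          obtain ⟨N', hN', h2⟩ := hS y' y'.2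
          refine ⟨2 * N * N', by positivity, ?_⟩
          change ((y : ℂ) * (y' : ℂ)) ^ (2 * N * N') = ((p : ℂ) ^ a) ^ (2 * N * N')
          generalize (p : ℂ) ^ a = Q at h1 h2 ⊢
          have h3 : (y : ℂ) ^ (2 * N * N') = Q ^ (N * N') := by
            rw [pow_mul, h1, ← pow_mul]
          have h4 : (y' : ℂ) ^ (2 * N * N') = Q ^ (N * N') := by
            rw [show 2 * N * N' = 2 * N' * N by ring, pow_mul, h2, ← pow_mul, mul_comm N']
          rw [mul_pow, h3, h4, ← pow_add]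
          congr 1
          ring
    match zs, hlt, hpz2 with
    | [], hlt, _ => simp at hlt
    | [z], hlt, _ => simp at hlt
    | z :: z' :: zs, _, h =>
      rw [List.pairwise_cons] at h
      exact h.1 z' (by simp)
  have hx : ∀ l m : Fin xs.length, xs.get m ≠ bar (xs.get l) := by
    rw [List.pairwise_iff_get] at hpx
    intro l m
    rcases lt_trichotomy l m with h | h | h
    · exact hpx l m h
    · rw [h]
      exact (bar_ne _).symm
    · intro h1
      apply hpx m l h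
      rw [h1, bar_bar]
  have hxprod : ∏ l : Fin xs.length, (xs.get l).2 (π (xs.get l).1) =
      (xs.map (fun x => x.2 (π x.1))).prod := by
    rw [← List.prod_ofFn]
    congr 1
    apply List.ext_getElem
    · simp
    · intro i h1 h2
      simp
  rcases Nat.eq_zero_or_pos zs.length with hz | hz
  · -- no supersingular eigenvalue
    have hzs0 : zs = [] := List.length_eq_zero_iff.1 hz
    have hxl : xs.length = 2 * k + 3 := by omega
    rw [hzs0, List.map_nil, List.prod_nil, mul_one] at hprod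
    have key := spread_of_rel p a ha π hweil hflip ρ hρ hρn (fun l => xs.get l) hx s hs (by
      rw [hxprod, ← hprod, mul_comm 2 s, pow_mul, hrel, ← pow_mul, ← pow_mul, hxl]
      congr 1
      ring)
    have h1 : ∀ l : Fin xs.length, (1 : ℝ) / 3 ≤
        spread p a (π (xs.get l).1) / finrank ℚ (K (xs.get l).1) := by
      intro l
      have h2 := hdev (xs.get l).1
      have h3 : (0 : ℝ) < finrank ℚ (K (xs.get l).1) := by exact_mod_cast finrank_pos
      rw [div_le_div_iff₀ (by norm_num) h3]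
      linarith
    have h1' : ∀ l : Fin xs.length, (1 : ℝ) / 3 <
        spread p a (π (xs.get l).1) / finrank ℚ (K (xs.get l).1) := by
      intro l
      have h2 := hdev (xs.get l).1
      have h3 : (0 : ℝ) < finrank ℚ (K (xs.get l).1) := by exact_mod_cast finrank_pos
      rw [div_lt_div_iff₀ (by norm_num) h3]
      linarith
    have h4 : ∑ _l : Fin xs.length, (1 : ℝ) / 3 <
        ∑ l : Fin xs.length, spread p a (π (xs.get l).1) / finrank ℚ (K (xs.get l).1) := by
      refine Finset.sum_lt_sum (fun l _ => h1 l) ⟨⟨0, by omega⟩, Finset.mem_univ _, h1' _⟩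
    rw [Finset.sum_const, Finset.card_univ, Fintype.card_fin, nsmul_eq_mul] at h4
    have hxr : (xs.length : ℝ) = 2 * k + 3 := by exact_mod_cast hxl
    have h5 : (0 : ℝ) ≤ k := Nat.cast_nonneg k
    linarith
  · -- one supersingular eigenvalue
    have hz1 : zs.length = 1 := by omega
    obtain ⟨z, rfl⟩ := List.length_eq_one_iff.1 hz1
    have hxl : xs.length = 2 * k + 2 := by omega
    obtain ⟨N, hN, hzN⟩ := hS z z.2
    rw [List.map_singleton, List.prod_singleton] at hprod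
    have key := spread_of_rel p a ha π hweil hflip ρ hρ hρn (fun l => xs.get l) hx (s * N)
      (Nat.mul_pos hs hN) (by
        rw [hxprod]
        have h6 : ((ys.map (val π S)).prod * ρ) ^ (2 * (s * N)) =
            ((p : ℂ) ^ a) ^ ((k + 2) * (2 * (s * N))) := by
          generalize (p : ℂ) ^ a = Q at hrel ⊢
          rw [show 2 * (s * N) = s * (2 * N) by ring, pow_mul, hrel, ← pow_mul, ← pow_mul]
        have h7 : (z : ℂ) ^ (2 * (s * N)) = ((p : ℂ) ^ a) ^ (s * N) := by
          rw [show 2 * (s * N) = 2 * N * s by ring, pow_mul, hzN, ← pow_mul]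
          congr 1
          ring
        have h8 : ((ys.map (val π S)).prod * ρ) ^ (2 * (s * N)) =
            ((xs.map (fun x => x.2 (π x.1))).prod * ρ) ^ (2 * (s * N)) *
              ((p : ℂ) ^ a) ^ (s * N) := by
          rw [hprod, ← h7]
          ring
        rw [h8] at h6
        have h9 : ((p : ℂ) ^ a) ^ ((k + 2) * (2 * (s * N))) =
            ((p : ℂ) ^ a) ^ (s * N * (xs.length + 1)) * ((p : ℂ) ^ a) ^ (s * N) := by
          rw [← pow_add, hxl]
          congr 1
          ring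
        rw [h9] at h6
        exact mul_right_cancel₀ (pow_ne_zero _ hq0) h6)
    have hne : S.Nonempty := ⟨z, z.2⟩
    have h1' : ∀ l : Fin xs.length, (1 : ℝ) / 2 <
        spread p a (π (xs.get l).1) / finrank ℚ (K (xs.get l).1) := by
      intro l
      have h2 := hSdev hne (xs.get l).1
      have h3 : (0 : ℝ) < finrank ℚ (K (xs.get l).1) := by exact_mod_cast finrank_pos
      rw [div_lt_div_iff₀ (by norm_num) h3]
      linarith
    have h4 : ∑ _l : Fin xs.length, (1 : ℝ) / 2 <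
        ∑ l : Fin xs.length, spread p a (π (xs.get l).1) / finrank ℚ (K (xs.get l).1) := by
      refine Finset.sum_lt_sum (fun l _ => (h1' l).le) ⟨⟨0, by omega⟩, Finset.mem_univ _, h1' _⟩
    rw [Finset.sum_const, Finset.card_univ, Fintype.card_fin, nsmul_eq_mul] at h4
    have hxr : (xs.length : ℝ) = 2 * k + 2 := by exact_mod_cast hxl
    have h5 : (0 : ℝ) ≤ k := Nat.cast_nonneg k
    linarith

variable {V : Type*} [AddCommGroup V] [Module ℂ V]

/-- A product of two eigenvectors is a divisor class if the eigenvalues are good. -/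
theorem isDivisorClass_of_good (F : V →ₗ[ℂ] V) (q : ℂ) (v w : V) (α β : ℂ) (hv : F v = α • v)
    (hw : F w = β • w) (h : Good q α β) : IsDivisorClass F q (ι ℂ v * ι ℂ w) := by
  obtain ⟨N, hN, h⟩ := h
  refine ⟨?_, N, hN, ?_⟩
  · rw [exteriorPower, pow_two]
    exact Submodule.mul_mem_mul (LinearMap.mem_range_self _ _) (LinearMap.mem_range_self _ _)
  · have h1 := map_prod_list F (fun x : ℂ => x) N [(v, α), (w, β)] (by
      intro e he
      simp only [List.mem_cons, List.not_mem_nil, or_false] at he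
      rcases he with rfl | rfl
      · exact hv
      · exact hw)
    simp only [List.map_cons, List.map_nil, List.prod_cons, List.prod_nil, mul_one] at h1
    rw [h1, h]

/-- **Products of eigenvectors.** -/
theorem list_mem_prodSpan [Finite I] (a : ℕ) (ha : 0 < a) (π : ∀ i, K i)
    (hweil : ∀ i, ∀ φ : K i →+* ℂ, ‖φ (π i)‖ ^ 2 = (p : ℝ) ^ a)
    (hflip : ∀ x y : Σ i, (K i →+* ℂ), y ≠ x → y ≠ bar x → Flipped x y)
    (hdev : ∀ i, (finrank ℚ (K i) : ℝ) < 3 * spread p a (π i))
    (S : Set ℂ) (hS : ∀ μ ∈ S, ∃ N : ℕ, 0 < N ∧ μ ^ (2 * N) = ((p : ℂ) ^ a) ^ N)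
    (hSdev : S.Nonempty → ∀ i, (finrank ℚ (K i) : ℝ) < 2 * spread p a (π i))
    (ρ : ℂ) (hρ : IsIntegral ℤ ρ) (hρn : ‖ρ‖ ^ 2 = (p : ℝ) ^ a) (F : V →ₗ[ℂ] V) :
    ∀ (k s : ℕ), 0 < s → ∀ L : List (V × ((Σ i, (K i →+* ℂ)) ⊕ S)), L.length = 2 * k + 1 →
      (∀ e ∈ L, F e.1 = val π S e.2 • e.1) →
      ((L.map (fun e => val π S e.2)).prod * ρ) ^ s = (((p : ℂ) ^ a) ^ (k + 1)) ^ s →
      (L.map (fun e => ι ℂ e.1)).prod ∈ prodSpan F ((p : ℂ) ^ a) ρ k := by
  intro k
  have hq0 : ((p : ℂ) ^ a) ≠ 0 := by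
    have : (p : ℂ) ≠ 0 := by exact_mod_cast (Fact.out : p.Prime).ne_zero
    exact pow_ne_zero _ this
  induction k with
  | zero =>
    intro s hs L hlen hL hrel
    obtain ⟨e, rfl⟩ := List.length_eq_one_iff.1 hlen
    refine Submodule.subset_span ⟨Fin.elim0, e.1, fun l => l.elim0, ⟨val π S e.2, s, hs,
      hL e (by simp), ?_⟩, ?_⟩
    · simpa using hrel
    · simp
  | succ k ih =>
    intro s hs L hlen hL hrel
    have h1 := exists_pair p a ha π hweil hflip hdev S hS hSdev ρ hρ hρn k s hs (L.map Prod.snd)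
      (by rw [List.length_map, hlen]; ring) (by
        rw [List.map_map]
        exact hrel)
    rw [List.pairwise_map] at h1
    obtain ⟨e, e', L', hperm, hgood⟩ := exists_of_not_pairwise _ L h1
    rw [not_not] at hgood
    have heL : e ∈ L := hperm.mem_iff.2 (by simp)
    have heL' : e' ∈ L := hperm.mem_iff.2 (by simp)
    obtain ⟨b, hb⟩ := prod_perm (K := ℂ) hperm
    rw [hb]
    refine Submodule.smul_mem _ _ ?_
    rw [List.map_cons, List.prod_cons, List.map_cons, List.prod_cons, ← mul_assoc]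
    refine mul_mem_prodSpan F _ ρ k _
      (isDivisorClass_of_good F _ _ _ _ _ (hL e heL) (hL e' heL') hgood) _ ?_
    obtain ⟨N, hN, hg⟩ := hgood
    refine ih (s * N) (Nat.mul_pos hs hN) L' ?_ (fun e₁ he₁ => hL e₁ (hperm.mem_iff.2
      (List.mem_cons_of_mem _ (List.mem_cons_of_mem _ he₁)))) ?_
    · have h2 := hperm.length_eq
      rw [List.length_cons, List.length_cons, hlen] at h2
      omega
    · have h3 : (L.map (fun e => val π S e.2)).prod =
          val π S e.2 * val π S e'.2 * (L'.map (fun e => val π S e.2)).prod := by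
        rw [(hperm.map (fun e => val π S e.2)).prod_eq, List.map_cons, List.prod_cons,
          List.map_cons, List.prod_cons, mul_assoc]
      rw [h3] at hrel
      have h4 := congrArg (fun z => z ^ N) hrel
      beta_reduce at h4
      have h5 : ((val π S e.2 * val π S e'.2 * (L'.map (fun e => val π S e.2)).prod * ρ) ^ s) ^ N =
          ((val π S e.2 * val π S e'.2) ^ N) ^ s *
            ((L'.map (fun e => val π S e.2)).prod * ρ) ^ (s * N) := by
        rw [← pow_mul, ← pow_mul, mul_assoc (val π S e.2 * val π S e'.2), mul_pow,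
          mul_comm N s]
      rw [h5, hg] at h4
      have h6 : ((((p : ℂ) ^ a) ^ (k + 1 + 1)) ^ s) ^ N =
          (((p : ℂ) ^ a) ^ N) ^ s * (((p : ℂ) ^ a) ^ (k + 1)) ^ (s * N) := by
        generalize (p : ℂ) ^ a = Q
        ring
      rw [h6] at h4
      exact mul_left_cancel₀ (pow_ne_zero _ (pow_ne_zero _ hq0)) h4

/-- **Eigenclasses of odd degree.** -/
theorem eigenclass_mem [Finite I] (a : ℕ) (ha : 0 < a) (π : ∀ i, K i)
    (hweil : ∀ i, ∀ φ : K i →+* ℂ, ‖φ (π i)‖ ^ 2 = (p : ℝ) ^ a)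
    (hflip : ∀ x y : Σ i, (K i →+* ℂ), y ≠ x → y ≠ bar x → Flipped x y)
    (hdev : ∀ i, (finrank ℚ (K i) : ℝ) < 3 * spread p a (π i))
    (S : Set ℂ) (hS : ∀ μ ∈ S, ∃ N : ℕ, 0 < N ∧ μ ^ (2 * N) = ((p : ℂ) ^ a) ^ N)
    (hSdev : S.Nonempty → ∀ i, (finrank ℚ (K i) : ℝ) < 2 * spread p a (π i))
    (F : V →ₗ[ℂ] V)
    (hF : Submodule.span ℂ {v : V | (∃ i, ∃ σ : K i →+* ℂ, F v = σ (π i) • v) ∨
      ∃ μ ∈ S, F v = μ • v} = ⊤)
    (ρ : ℂ) (hρ : IsIntegral ℤ ρ) (hρn : ‖ρ‖ ^ 2 = (p : ℝ) ^ a)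
    (k s : ℕ) (hs : 0 < s) (c : ℂ) (hc : c * ρ ^ s = (((p : ℂ) ^ a) ^ (k + 1)) ^ s)
    (x : ExteriorAlgebra ℂ V) (hx : x ∈ ⋀[ℂ]^(2 * k + 1) V)
    (hFx : ExteriorAlgebra.map (F ^ s) x = c • x) : x ∈ prodSpan F ((p : ℂ) ^ a) ρ k := by
  refine mem_of_lists_sub F (val π S) ?_ (2 * k + 1) s c _ ?_ x hx hFx
  · rw [← hF]
    congr 1
    ext v
    constructor
    · rintro ⟨x | μ, h⟩
      · exact Or.inl ⟨x.1, x.2, h⟩
      · exact Or.inr ⟨μ, μ.2, h⟩
    · rintro (⟨i, σ, h⟩ | ⟨μ, hμ, h⟩)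
      · exact ⟨Sum.inl ⟨i, σ⟩, h⟩
      · exact ⟨Sum.inr ⟨μ, hμ⟩, h⟩
  · intro L hlen hL hLc
    refine list_mem_prodSpan p a ha π hweil hflip hdev S hS hSdev ρ hρ hρn F k s hs L hlen hL ?_
    rw [mul_pow, hLc, hc]

end Pool.Agent.W484.BB
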