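import Mathlib

/-!
# A bound for the size of an orbit
-/

set_option autoImplicit false
set_option linter.unusedSectionVars false

namespace Pool.Agent.W484.BB

theorem exists_sign {Y : Type*} (R : Finset Y) (b : Y → Y)
    (hb : ∀ y ∈ R, b y ∈ R ∧ b (b y) = y) :
    ∃ s : Y → ℝ, (∀ y, s y * s y = 1) ∧ ∀ y ∈ R, b y ≠ y → s (b y) = - s y := by
  classical
  let _ : LinearOrder Y := IsWellOrder.linearOrder WellOrderingRel
  refine ⟨fun y => if y < b y then 1 else -1, ?_, ?_⟩
  · intro y
    beta_reduce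
    split_ifs <;> norm_num
  · intro y hy hne
    beta_reduce
    rw [(hb y hy).2]
    rcases lt_or_gt_of_ne hne with h | h
    · rw [if_pos h, if_neg (not_lt.2 h.le)]
      norm_num
    · rw [if_neg (not_lt.2 h.le), if_pos h]

/-- The group-theoretic core. -/
theorem orthogonal_core {X Y G : Type*} [Group G] [MulAction G X] [MulAction G Y]
    (inv : X → X) (bar : Y → Y) (O : Y → X → ℝ) (R : Finset Y) (X₀ : Finset X)
    (hO1 : ∀ y x, O y (inv x) = - O y x) (hO2 : ∀ (g : G) y x, O (g • y) (g • x) = O y x)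
    (hO3 : ∀ y ∈ R, ∀ x, O (bar y) x = - O y x)
    (hRG : ∀ (g : G), ∀ y ∈ R, g • y ∈ R) (hRb : ∀ y ∈ R, bar y ∈ R ∧ bar (bar y) = y)
    (hX₀ : ∀ x ∈ X₀, inv x ∈ X₀ ∧ inv (inv x) = x ∧ inv x ≠ x)
    (hflip : ∀ x ∈ X₀, ∀ y ∈ X₀, y ≠ x → y ≠ inv x →
      ∃ g : G, (g • x = x ∧ g • y = inv y) ∨ (g • x = inv x ∧ g • y = y) ∨
        (g • x = y ∧ g • y = inv x))
    (hne : ∀ x ∈ X₀, ∃ y ∈ R, O y x ≠ 0) : X₀.card ≤ R.card := by
  classical
  obtain ⟨s, hs1, hs2⟩ := exists_sign R bar hRb
  obtain ⟨ε, hε1, hε2⟩ := exists_sign X₀ inv (fun x hx => ⟨(hX₀ x hx).1, (hX₀ x hx).2.1⟩)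
  -- sums over `R`
  have hsumG : ∀ (g : G) (F : Y → ℝ), ∑ y ∈ R, F (g • y) = ∑ y ∈ R, F y := by
    intro g F
    refine Finset.sum_bij' (fun y _ => g • y) (fun y _ => g⁻¹ • y) ?_ ?_ ?_ ?_ ?_
    · intro y hy; exact hRG g y hy
    · intro y hy; exact hRG _ y hy
    · intro y _; exact inv_smul_smul g y
    · intro y _; exact smul_inv_smul g y
    · intro y _; rfl
  have hsumB : ∀ (F : Y → ℝ), ∑ y ∈ R, F (bar y) = ∑ y ∈ R, F y := by
    intro F
    refine Finset.sum_bij' (fun y _ => bar y) (fun y _ => bar y) ?_ ?_ ?_ ?_ ?_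
    · intro y hy; exact (hRb y hy).1
    · intro y hy; exact (hRb y hy).1
    · intro y hy; exact (hRb y hy).2
    · intro y hy; exact (hRb y hy).2
    · intro y _; rfl
  have h0 : ∀ x ∈ X₀, ∀ x' ∈ X₀, x' ≠ x → x' ≠ inv x → ∑ y ∈ R, O y x * O y x' = 0 := by
    intro x hx x' hx' h1 h2
    obtain ⟨g, ⟨hg1, hg2⟩ | ⟨hg1, hg2⟩ | ⟨hg1, hg2⟩⟩ := hflip x hx x' hx' h1 h2
    · have h3 := hsumG g (fun y => O y x * O y x')
      have h4 : ∀ y, O (g • y) x * O (g • y) x' = -(O y x * O y x') := by
        intro y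
        have h5 := hO2 g y x
        have h6 := hO2 g y x'
        rw [hg1] at h5
        rw [hg2, hO1] at h6
        rw [h5, ← h6]
        ring
      simp only [h4, Finset.sum_neg_distrib] at h3
      linarith
    · have h3 := hsumG g (fun y => O y x * O y x')
      have h4 : ∀ y, O (g • y) x * O (g • y) x' = -(O y x * O y x') := by
        intro y
        have h5 := hO2 g y x
        have h6 := hO2 g y x'
        rw [hg1, hO1] at h5
        rw [hg2] at h6
        rw [← h5, h6]
        ring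
      simp only [h4, Finset.sum_neg_distrib] at h3
      linarith
    · have h3 := hsumG g (fun y => O y x * O y x')
      have h4 : ∀ y, O (g • y) x * O (g • y) x' = -(O y x * O y x') := by
        intro y
        have h5 := hO2 g y x
        have h6 := hO2 g y x'
        rw [hg1] at h5
        rw [hg2, hO1] at h6
        rw [h5, ← h6]
        ring
      simp only [h4, Finset.sum_neg_distrib] at h3
      linarith
  have h00 : ∀ x ∈ X₀, ∀ y ∈ R, bar y = y → O y x = 0 := by
    intro x _ y hy h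
    have h1 := hO3 y hy x
    rw [h] at h1
    linarith
  have hs0 : ∀ x ∈ X₀, ∀ x' ∈ X₀, ∑ y ∈ R, s y * (O y x * O y x') = 0 := by
    intro x hx x' hx'
    have h1 := hsumB (fun y => s y * (O y x * O y x'))
    have h2 : ∑ y ∈ R, s (bar y) * (O (bar y) x * O (bar y) x') =
        ∑ y ∈ R, -(s y * (O y x * O y x')) := by
      refine Finset.sum_congr rfl fun y hy => ?_
      rw [hO3 y hy, hO3 y hy]
      by_cases h : bar y = y
      · rw [h00 x hx y hy h]
        ring
      · rw [hs2 y hy h]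
        ring
    rw [h2, Finset.sum_neg_distrib] at h1
    linarith
  let C : X₀ → (R → ℝ) := fun x y => O y x * (1 + s y * ε x)
  have hdot : ∀ x x' : X₀, ∑ y : R, C x y * C x' y =
      (1 + ε x * ε x') * ∑ y ∈ R, O y x * O y x' := by
    intro x x'
    have h1 : ∑ y : R, C x y * C x' y =
        ∑ y ∈ R, (O y x * (1 + s y * ε x)) * (O y x' * (1 + s y * ε x')) :=
      Finset.sum_coe_sort R (fun y => (O y x * (1 + s y * ε x)) * (O y x' * (1 + s y * ε x')))
    have h2 : ∀ y, (O y x * (1 + s y * ε x)) * (O y x' * (1 + s y * ε x')) =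
        (1 + ε x * ε x') * (O y x * O y x') + (ε x + ε x') * (s y * (O y x * O y x')) := by
      intro y
      have h3 := hs1 y
      linear_combination (O y x * O y x' * ε x * ε x') * h3
    rw [h1, Finset.sum_congr rfl (fun y _ => h2 y), Finset.sum_add_distrib, ← Finset.mul_sum,
      ← Finset.mul_sum, hs0 x x.2 x' x'.2, mul_zero, add_zero]
  have hdot0 : ∀ x x' : X₀, x' ≠ x → ∑ y : R, C x y * C x' y = 0 := by
    intro x x' h
    rw [hdot]
    by_cases h1 : (x' : X) = inv x
    · rw [h1, hε2 x x.2 (hX₀ x x.2).2.2]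
      have h3 := hε1 x
      have : 1 + ε x * -ε x = 0 := by linarith
      rw [this, zero_mul]
    · rw [h0 x x.2 x' x'.2 (fun h2 => h (Subtype.ext h2)) h1, mul_zero]
  have hdot1 : ∀ x : X₀, 0 < ∑ y : R, C x y * C x y := by
    intro x
    rw [hdot, hε1]
    obtain ⟨y, hy, h1⟩ := hne x x.2
    have h2 : 0 < ∑ y ∈ R, O y x * O y x :=
      Finset.sum_pos' (fun y _ => mul_self_nonneg _) ⟨y, hy, mul_self_pos.2 h1⟩
    linarith
  have hli : LinearIndependent ℝ C := by
    rw [Fintype.linearIndependent_iff]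
    intro a ha x
    have h1 : ∑ y : R, (∑ x', a x' • C x') y * C x y = 0 := by
      rw [ha]
      simp
    have h2 : ∑ y : R, (∑ x', a x' • C x') y * C x y = a x * ∑ y : R, C x y * C x y := by
      simp only [Finset.sum_apply, Pi.smul_apply, smul_eq_mul, Finset.sum_mul]
      rw [Finset.sum_comm, Finset.sum_eq_single x]
      · rw [Finset.mul_sum]
        exact Finset.sum_congr rfl fun y _ => by ring
      · intro x' _ hx'
        have h3 := hdot0 x' x (Ne.symm hx')
        calc ∑ y : R, a x' * C x' y * C x y = a x' * ∑ y : R, C x' y * C x y := by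
              rw [Finset.mul_sum]
              exact Finset.sum_congr rfl fun y _ => by ring
          _ = 0 := by rw [h3, mul_zero]
      · intro h
        exact absurd (Finset.mem_univ x) h
    rw [h1] at h2
    rcases mul_eq_zero.1 h2.symm with h | h
    · exact h
    · exact absurd h (hdot1 x).ne'
  have h := hli.fintype_card_le_finrank
  rw [Module.finrank_fintype_fun_eq_card, Fintype.card_coe, Fintype.card_coe] at h
  exact h

end Pool.Agent.W484.BB
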