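import Mathlib
import Pool.Agent.W484.BB.Lists
import Pool.Agent.W484.BB.Orbit

/-!
# Relations with a Weil number of small degree
-/

set_option autoImplicit false
set_option linter.unusedSectionVars false

namespace Pool.Agent.W484.BB

open NumberField Module Pool.Agent.H925R2 Pool.Agent.H485R3 Pool.Agent.H204R3.CM
  Pool.Agent.H868R3.TwoOdd Pool.Agent.H194R3.CM Pool.Agent.H194R3.Tate IntermediateField

theorem corr_zero {X : Type*} {G : Type*} [Group G] [Fintype G] [MulAction G X]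
    (inv : X → X) (hG : ∀ (g : G) (x : X), g • inv x = inv (g • x))
    (u : X → ℝ) (hua : ∀ x, u (inv x) = -u x) (x y : X)
    (hflip : ∃ g : G, (g • x = x ∧ g • y = inv y) ∨ (g • x = inv x ∧ g • y = y) ∨
        (g • x = y ∧ g • y = inv x)) : ∑ g : G, u (g • x) * u (g • y) = 0 := by
  classical
  let A : X → X → ℝ := fun x y => ∑ g : G, u (g • x) * u (g • y)
  have hAsymm : ∀ x y, A x y = A y x := by
    intro x y
    exact Finset.sum_congr rfl fun g _ => mul_comm _ _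
  have hAinv : ∀ (h : G) x y, A (h • x) (h • y) = A x y := by
    intro h x y
    simp only [A, ← mul_smul]
    exact Fintype.sum_equiv (Equiv.mulRight h) _ _ fun g => rfl
  have hA1 : ∀ x y, A (inv x) y = -A x y := by
    intro x y
    simp only [A, hG, hua, neg_mul, Finset.sum_neg_distrib]
  have hA2 : ∀ x y, A x (inv y) = -A x y := by
    intro x y
    simp only [A, hG, hua, mul_neg, Finset.sum_neg_distrib]
  change A x y = 0
  obtain ⟨g, ⟨hg1, hg2⟩ | ⟨hg1, hg2⟩ | ⟨hg1, hg2⟩⟩ := hflip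
  · have h3 := hAinv g x y
    rw [hg1, hg2, hA2] at h3
    linarith
  · have h3 := hAinv g x y
    rw [hg1, hg2, hA1] at h3
    linarith
  · have h3 := hAinv g x y
    rw [hg1, hg2, hA2, hAsymm] at h3
    linarith

variable {I : Type} (p : ℕ) [Fact p.Prime] {K : I → Type} [∀ i, Field (K i)]
  [∀ i, NumberField (K i)] [∀ i, IsCMField (K i)]

/-- The slopes in a relation. -/
theorem slope_sum_of_rel (a : ℕ) (π : ∀ i, K i) (hπ0 : ∀ i, π i ≠ 0)
    {L : Type*} [Field L] [NumberField L] (e : L →ₐ[ℚ] PadicAlgCl p) (r : L) (hr0 : r ≠ 0)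
    {n : ℕ} (y : Fin n → Σ i, (K i →+* L)) (M : ℕ) (hM : 0 < M)
    (hrelL : ((∏ k, (y k).2 (π (y k).1)) * r) ^ (2 * M) =
      ((((p : ℚ) ^ a : ℚ)) : L) ^ (M * (n + 1))) (g : L ≃ₐ[ℚ] L) :
    ∑ k, slope p (fun _ => (p : ℚ) ^ a) π e (g • y k) = - dev p ((p : ℚ) ^ a) (e (g r)) := by
  have h1 := congrArg (fun z => Real.log ‖e (g z)‖) hrelL
  simp only [map_pow, map_mul, map_prod, norm_pow, norm_mul, norm_prod, Real.log_pow,
    map_ratCast] at h1
  have hne : ∀ k, ‖e (g ((y k).2 (π (y k).1)))‖ ≠ 0 := by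
    intro k
    rw [norm_ne_zero_iff, Ne, map_eq_zero, map_eq_zero, map_eq_zero]
    exact hπ0 _
  have hner : ‖e (g r)‖ ≠ 0 := by
    rw [norm_ne_zero_iff, Ne, map_eq_zero, map_eq_zero]
    exact hr0
  rw [Real.log_mul (Finset.prod_ne_zero_iff.2 fun k _ => hne k) hner,
    Real.log_prod (fun k _ => hne k)] at h1
  have h3 : ∀ k, slope p (fun _ => (p : ℚ) ^ a) π e (g • y k) =
      2 * Real.log ‖e (g ((y k).2 (π (y k).1)))‖ -
        Real.log ‖(((p : ℚ) ^ a : ℚ) : PadicAlgCl p)‖ := fun k => rfl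
  rw [Finset.sum_congr rfl (fun k _ => h3 k), Finset.sum_sub_distrib, Finset.sum_const,
    Finset.card_univ, Fintype.card_fin, nsmul_eq_mul, ← Finset.mul_sum]
  unfold dev
  have hM' : (M : ℝ) ≠ 0 := by exact_mod_cast hM.ne'
  apply mul_left_cancel₀ hM'
  push_cast at h1 ⊢
  linarith

theorem flip_lift {L : Type*} [Field L] [NumberField L] [IsGalois ℚ L] (j : L →+* ℂ)
    (hflip : ∀ x y : Σ i, (K i →+* ℂ), y ≠ x → y ≠ bar x → Flipped x y)
    (x y : Σ i, (K i →+* L)) (h1 : y ≠ x) (h2 : y ≠ inj x) :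
    ∃ g : L ≃ₐ[ℚ] L, (g • x = x ∧ g • y = inj y) ∨ (g • x = inj x ∧ g • y = y) ∨
      (g • x = y ∧ g • y = inj x) := by
  refine flip_transfer j x y (hflip _ _ ?_ ?_)
  · intro h3
    apply h1
    obtain ⟨a, φ⟩ := x
    obtain ⟨b, ψ⟩ := y
    simp only [Sigma.mk.injEq] at h3
    obtain ⟨rfl, h3⟩ := h3
    rw [comp_injective j (eq_of_heq h3)]
  · intro h3
    apply h2
    obtain ⟨a, φ⟩ := x
    obtain ⟨b, ψ⟩ := y
    have h4 : (⟨b, j.comp ψ⟩ : Σ i, (K i →+* ℂ)) = ⟨a, j.comp (cbar φ)⟩ := by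
      rw [h3, comp_cbar]
      rfl
    simp only [Sigma.mk.injEq] at h4
    obtain ⟨rfl, h4⟩ := h4
    rw [comp_injective j (eq_of_heq h4)]
    rfl

/-- **The degree of a Weil number in a relation.** -/
theorem deg_bound [Finite I] (a : ℕ) (π : ∀ i, K i)
    (hweil : ∀ i, ∀ φ : K i →+* ℂ, ‖φ (π i)‖ ^ 2 = (p : ℝ) ^ a)
    (hflip : ∀ x y : Σ i, (K i →+* ℂ), y ≠ x → y ≠ bar x → Flipped x y)
    (hns : ∀ i, ∃ τ : K i →+* PadicAlgCl p, dev p ((p : ℚ) ^ a) (τ (π i)) ≠ 0)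
    (ρ : ℂ) (hρ : IsIntegral ℤ ρ) (hρn : ‖ρ‖ ^ 2 = (p : ℝ) ^ a)
    {n : ℕ} (hn : 0 < n) (x : Fin n → Σ i, (K i →+* ℂ)) (hx : ∀ k l, x l ≠ bar (x k))
    (M : ℕ) (hM : 0 < M)
    (hrel : ((∏ k, (x k).2 (π (x k).1)) * ρ) ^ (2 * M) = ((p : ℂ) ^ a) ^ (M * (n + 1))) :
    ∃ i, finrank ℚ (K i) ≤ (minpoly ℚ ρ).natDegree := by
  classical
  cases nonempty_fintype I
  obtain ⟨L, hL1, hL2, j, h, r, hr⟩ := exists_galois_with (K := K) ρ hρ
  let e : L →ₐ[ℚ] PadicAlgCl p := IsAlgClosed.lift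
  have hp0 : (0 : ℝ) < (p : ℝ) ^ a :=
    pow_pos (by exact_mod_cast (Fact.out : p.Prime).pos) _
  have hq : ∀ _i : I, (0 : ℚ) < (p : ℚ) ^ a :=
    fun _ => pow_pos (by exact_mod_cast (Fact.out : p.Prime).pos) _
  have hqne : (((p : ℚ) ^ a : ℚ)) ≠ 0 := (pow_pos (by exact_mod_cast (Fact.out : p.Prime).pos) _).ne'
  have hρ0 : ρ ≠ 0 := by
    rintro rfl
    rw [norm_zero] at hρn
    norm_num at hρn
    exact hp0.ne hρn
  have hr0 : r ≠ 0 := by
    rintro rfl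
    rw [map_zero] at hr
    exact hρ0 hr.symm
  have hweil' : ∀ i, ∀ φ : K i →+* ℂ, ‖φ (π i)‖ ^ 2 = (((p : ℚ) ^ a : ℚ) : ℝ) := by
    intro i φ
    rw [hweil i φ]
    push_cast
    rfl
  choose W hW using fun k => h (x k).1 (x k).2
  have hrelL : ((∏ k, W k (π (x k).1)) * r) ^ (2 * M) =
      ((((p : ℚ) ^ a : ℚ)) : L) ^ (M * (n + 1)) := by
    apply j.injective
    rw [map_pow, map_mul, map_prod, map_pow, map_ratCast, hr]
    have h1 : ∀ k, j (W k (π (x k).1)) = (x k).2 (π (x k).1) := by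
      intro k
      rw [← hW k]
      rfl
    simp only [h1]
    rw [hrel]
    push_cast
    rfl
  have hπ0 : ∀ i, π i ≠ 0 := by
    intro i h0
    obtain ⟨φ⟩ : Nonempty (K i →+* ℂ) := inferInstance
    have h1 := hweil i φ
    rw [h0, map_zero, norm_zero] at h1
    norm_num at h1
    exact hp0.ne h1
  let y : Fin n → Σ i, (K i →+* L) := fun k => ⟨(x k).1, W k⟩
  have hy : ∀ k l, y l ≠ inj (y k) := by
    intro k l hkl
    apply hx k l
    have h1 : (⟨(x l).1, j.comp (W l)⟩ : Σ i, (K i →+* ℂ)) = ⟨(x k).1, j.comp (cbar (W k))⟩ :=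
      congrArg (fun z : Σ i, (K i →+* L) => (⟨z.1, j.comp z.2⟩ : Σ i, (K i →+* ℂ))) hkl
    rw [comp_cbar, hW, hW] at h1
    exact h1
  let u : (Σ i, (K i →+* L)) → ℝ := slope p (fun _ => (p : ℚ) ^ a) π e
  have hu : ∀ x, u (inj x) = - u x := slope_inj p hq hweil' e
  have hsum : ∀ g : L ≃ₐ[ℚ] L, ∑ k, u (g • y k) = - dev p ((p : ℚ) ^ a) (e (g r)) :=
    slope_sum_of_rel p a π hπ0 e r hr0 y M hM hrelL
  have hGinj : ∀ (g : L ≃ₐ[ℚ] L) (x : Σ i, (K i →+* L)), g • inj x = inj (g • x) := by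
    rintro g ⟨i, φ⟩
    rfl
  -- complex conjugation
  obtain ⟨c, hc⟩ := exists_restrict j (starRingEnd ℂ)
  have hcr : c r = (((p : ℚ) ^ a : ℚ) : L) / r := by
    apply j.injective
    rw [hc, map_div₀, map_ratCast, hr, eq_div_iff hρ0, mul_comm, Complex.mul_conj,
      Complex.normSq_eq_norm_sq, hρn]
    push_cast
    rfl
  let O : L → (Σ i, (K i →+* L)) → ℝ := fun z x =>
    ∑ g : L ≃ₐ[ℚ] L, - dev p ((p : ℚ) ^ a) (e (g z)) * u (g • x)
  let R : Finset L := Finset.univ.image (fun g : L ≃ₐ[ℚ] L => g r)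
  have hR : ∀ z, z ∈ R ↔ ∃ g : L ≃ₐ[ℚ] L, g r = z := by
    intro z
    simp [R]
  have hO2 : ∀ (g : L ≃ₐ[ℚ] L) z x, O (g z) (g • x) = O z x := by
    intro g z x
    simp only [O, ← mul_smul]
    exact Fintype.sum_equiv (Equiv.mulRight g) _ _ fun h => rfl
  let i₀ : I := (y ⟨0, hn⟩).1
  let X₀ : Finset (Σ i, (K i →+* L)) :=
    Finset.univ.image (fun φ : K i₀ →+* L => (⟨i₀, φ⟩ : Σ i, (K i →+* L)))
  have hX₀ : ∀ z, z ∈ X₀ ↔ ∃ φ : K i₀ →+* L, (⟨i₀, φ⟩ : Σ i, (K i →+* L)) = z := by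
    intro z
    simp [X₀]
  have key := orthogonal_core (G := L ≃ₐ[ℚ] L) inj (fun z => (((p : ℚ) ^ a : ℚ) : L) / z) O R X₀
    ?_ hO2 ?_ ?_ ?_ ?_ ?_ ?_
  · refine ⟨i₀, ?_⟩
    have h1 : X₀.card = finrank ℚ (K i₀) := by
      rw [Finset.card_image_of_injective _ sigma_mk_injective, Finset.card_univ,
        card_emb j (h i₀)]
    have h2 : R.card ≤ (minpoly ℚ ρ).natDegree := by
      have h3 : minpoly ℚ ρ = minpoly ℚ r := by
        rw [← hr]
        exact minpoly.algHom_eq (RingHom.toRatAlgHom j) j.injective r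
      rw [h3]
      have h4 : R ⊆ ((minpoly ℚ r).map (algebraMap ℚ L)).roots.toFinset := by
        intro z hz
        obtain ⟨g, rfl⟩ := (hR z).1 hz
        rw [Multiset.mem_toFinset, Polynomial.mem_roots', Polynomial.IsRoot.def,
          Polynomial.eval_map_algebraMap]
        refine ⟨Polynomial.map_ne_zero (minpoly.ne_zero (Algebra.IsIntegral.isIntegral r)), ?_⟩
        have h5 := congrArg g (minpoly.aeval ℚ r)
        rw [map_zero] at h5
        rw [← h5]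
        exact (Polynomial.aeval_algHom_apply (g : L →ₐ[ℚ] L) r _)
      refine (Finset.card_le_card h4).trans ((Multiset.toFinset_card_le _).trans ?_)
      refine (Polynomial.card_roots' _).trans ?_
      rw [Polynomial.natDegree_map]
    omega
  · intro z x
    simp only [O, hGinj, hu, mul_neg, Finset.sum_neg_distrib]
  · intro z hz x
    obtain ⟨g, rfl⟩ := (hR z).1 hz
    simp only [O]
    rw [← Finset.sum_neg_distrib]
    refine Finset.sum_congr rfl fun k _ => ?_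
    rw [map_div₀, map_div₀, map_ratCast, map_ratCast, dev_inv p hqne]
    · ring
    · rw [Ne, map_eq_zero, map_eq_zero, map_eq_zero]
      exact hr0
  · intro g z hz
    obtain ⟨g', rfl⟩ := (hR z).1 hz
    exact (hR _).2 ⟨g * g', rfl⟩
  · intro z hz
    obtain ⟨g, rfl⟩ := (hR z).1 hz
    have hgr : g r ≠ 0 := by
      rw [Ne, map_eq_zero]
      exact hr0
    refine ⟨(hR _).2 ⟨g * c, ?_⟩, ?_⟩
    · rw [AlgEquiv.mul_apply, hcr, map_div₀, map_ratCast]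
    · have hqL : (((p : ℚ) ^ a : ℚ) : L) ≠ 0 := by exact_mod_cast hqne
      rw [div_div_cancel₀ hqL]
  · intro z hz
    obtain ⟨φ, rfl⟩ := (hX₀ z).1 hz
    refine ⟨(hX₀ _).2 ⟨cbar φ, rfl⟩, inj_inj _, ?_⟩
    intro h1
    exact cbar_ne φ (eq_of_heq (Sigma.mk.inj_iff.1 h1).2)
  · intro z _ w _ h1 h2
    exact flip_lift j hflip z w h1 h2
  · intro z hz
    obtain ⟨φ, rfl⟩ := (hX₀ z).1 hz
    obtain ⟨g, hg⟩ := MulAction.exists_smul_eq (L ≃ₐ[ℚ] L) (y ⟨0, hn⟩).2 φ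
    refine ⟨g r, (hR _).2 ⟨g, rfl⟩, ?_⟩
    have h1 : (⟨i₀, φ⟩ : Σ i, (K i →+* L)) = g • (y ⟨0, hn⟩) := by
      rw [← hg]
      rfl
    rw [h1, hO2]
    have h2 : O r (y ⟨0, hn⟩) = ∑ k, ∑ g : L ≃ₐ[ℚ] L, u (g • y k) * u (g • y ⟨0, hn⟩) := by
      simp only [O]
      rw [Finset.sum_comm]
      refine Finset.sum_congr rfl fun g _ => ?_
      rw [← hsum g, Finset.sum_mul]
    have h3 : ∀ k, 0 ≤ ∑ g : L ≃ₐ[ℚ] L, u (g • y k) * u (g • y ⟨0, hn⟩) := by
      intro k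
      by_cases h4 : y ⟨0, hn⟩ = y k
      · rw [h4]
        exact Finset.sum_nonneg fun g _ => mul_self_nonneg _
      · exact (corr_zero inj hGinj u hu (y k) (y ⟨0, hn⟩)
          (flip_lift j hflip _ _ h4 (hy _ _))).ge
    obtain ⟨g', hg'⟩ := exists_slope_ne p j h (fun _ => (p : ℚ) ^ a) π e hns (y ⟨0, hn⟩)
    have h4 : 0 < ∑ g : L ≃ₐ[ℚ] L, u (g • y ⟨0, hn⟩) * u (g • y ⟨0, hn⟩) :=
      Finset.sum_pos' (fun g _ => mul_self_nonneg _)
        ⟨g', Finset.mem_univ _, mul_self_pos.2 hg'⟩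
    have h5 := Finset.single_le_sum (f := fun k => ∑ g : L ≃ₐ[ℚ] L,
      u (g • y k) * u (g • y ⟨0, hn⟩)) (fun k _ => h3 k) (Finset.mem_univ ⟨0, hn⟩)
    rw [h2]
    exact (lt_of_lt_of_le h4 h5).ne'

end Pool.Agent.W484.BB
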