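import Mathlib

/-!
# Products of three quadratic polynomials
-/

set_option autoImplicit false
set_option linter.unusedSectionVars false

namespace Pool.Agent.W484.BB

open Polynomial

theorem cubic_expand {R : Type*} [CommRing R] (s : Fin 3 → R) (q : R) :
    ∏ j, (X ^ 2 - C (s j) * X + C q : R[X]) =
      X ^ 6 + C (-(s 0 + s 1 + s 2)) * X ^ 5 +
        C (s 0 * s 1 + s 0 * s 2 + s 1 * s 2 + 3 * q) * X ^ 4 +
        C (-(s 0 * s 1 * s 2 + 2 * q * (s 0 + s 1 + s 2))) * X ^ 3 +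
        C (q * (s 0 * s 1 + s 0 * s 2 + s 1 * s 2) + 3 * q ^ 2) * X ^ 2 +
        C (-(q ^ 2 * (s 0 + s 1 + s 2))) * X + C (q ^ 3) := by
  rw [Fin.prod_univ_three]
  simp only [map_add, map_mul, map_neg, map_pow, map_ofNat]
  ring

theorem sextic_coeff {R : Type*} [CommRing R] (a b c d e g : R) :
    (X ^ 6 + C a * X ^ 5 + C b * X ^ 4 + C c * X ^ 3 + C d * X ^ 2 + C e * X + C g : R[X]).coeff 5 =
      a ∧
    (X ^ 6 + C a * X ^ 5 + C b * X ^ 4 + C c * X ^ 3 + C d * X ^ 2 + C e * X + C g : R[X]).coeff 4 =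
      b ∧
    (X ^ 6 + C a * X ^ 5 + C b * X ^ 4 + C c * X ^ 3 + C d * X ^ 2 + C e * X + C g : R[X]).coeff 3 =
      c := by
  refine ⟨?_, ?_, ?_⟩
  · simp [coeff_X, coeff_C, coeff_X_pow]
  · simp [coeff_X, coeff_C, coeff_X_pow]
  · simp [coeff_X, coeff_C, coeff_X_pow]

theorem cubic_coeff {R : Type*} [CommRing R] (s : Fin 3 → R) (q : R) :
    (∏ j, (X ^ 2 - C (s j) * X + C q : R[X])).coeff 5 = -(s 0 + s 1 + s 2) ∧
    (∏ j, (X ^ 2 - C (s j) * X + C q : R[X])).coeff 4 =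
      s 0 * s 1 + s 0 * s 2 + s 1 * s 2 + 3 * q ∧
    (∏ j, (X ^ 2 - C (s j) * X + C q : R[X])).coeff 3 =
      -(s 0 * s 1 * s 2 + 2 * q * (s 0 + s 1 + s 2)) := by
  rw [cubic_expand]
  exact sextic_coeff _ _ _ _ _ _

theorem exists_perm_of_prod {R : Type*} [CommRing R] [IsDomain R] (s t : Fin 3 → R) (q : R)
    (h : ∏ j, (X ^ 2 - C (s j) * X + C q : R[X]) = ∏ j, (X ^ 2 - C (t j) * X + C q)) :
    ∃ σ : Equiv.Perm (Fin 3), ∀ j, s j = t (σ j) := by
  classical
  obtain ⟨h5, h4, h3⟩ := cubic_coeff s q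
  obtain ⟨h5', h4', h3'⟩ := cubic_coeff t q
  rw [h] at h5 h4 h3
  have e1 : s 0 + s 1 + s 2 = t 0 + t 1 + t 2 := neg_injective (h5.symm.trans h5')
  have e2 : s 0 * s 1 + s 0 * s 2 + s 1 * s 2 = t 0 * t 1 + t 0 * t 2 + t 1 * t 2 :=
    add_right_cancel (h4.symm.trans h4')
  have e3 : s 0 * s 1 * s 2 = t 0 * t 1 * t 2 := by
    have h6 := neg_injective (h3.symm.trans h3')
    rw [e1] at h6
    exact add_right_cancel h6
  have h7 : ∏ j, (X - C (s j)) = ∏ j, (X - C (t j)) := by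
    have h8 : ∀ u : Fin 3 → R, ∏ j, (X - C (u j)) = X ^ 3 - C (u 0 + u 1 + u 2) * X ^ 2 +
        C (u 0 * u 1 + u 0 * u 2 + u 1 * u 2) * X - C (u 0 * u 1 * u 2) := by
      intro u
      rw [Fin.prod_univ_three]
      simp only [map_add, map_mul]
      ring
    rw [h8, h8, e1, e2, e3]
  have h9 : (Finset.univ.val.map s) = (Finset.univ.val.map t) := by
    have h10 := congrArg Polynomial.roots h7
    have h11 : ∀ u : Fin 3 → R, (∏ j, (X - C (u j))).roots = Finset.univ.val.map u := by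
      intro u
      have h12 : ∏ j, (X - C (u j)) = ((Finset.univ.val.map u).map (fun a => X - C a)).prod := by
        rw [Multiset.map_map]
        rfl
      rw [h12, roots_multiset_prod_X_sub_C]
    rw [h11, h11] at h10
    exact h10
  have hcard : ∀ z, Nonempty ({j // s j = z} ≃ {j // t j = z}) := by
    intro z
    refine ⟨Fintype.equivOfCardEq ?_⟩
    have h13 := congrArg (Multiset.count z) h9
    rw [Multiset.count_map, Multiset.count_map] at h13
    rw [Fintype.card_subtype, Fintype.card_subtype, Finset.card_def, Finset.card_def,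
      Finset.filter_val, Finset.filter_val]
    simp only [eq_comm (a := z)] at h13
    exact h13
  let e : ∀ z, {j // s j = z} ≃ {j // t j = z} := fun z => Classical.choice (hcard z)
  refine ⟨Equiv.ofFiberEquiv e, fun j => ?_⟩
  exact (Equiv.ofFiberEquiv_map e j).symm

end Pool.Agent.W484.BB
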