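import Mathlib
import Pool.Agent.W484.BB.Three1
import Pool.Agent.W484.BB.Small
import Pool.Agent.H485R3.Kron

/-!
# The core of the theorem for abelian threefolds
-/

set_option autoImplicit false
set_option linter.unusedSectionVars false

namespace Pool.Agent.W484.BB

open Polynomial Pool.Agent.H925R2 Pool.Agent.H485R3 Pool.Agent.H194R3.CM

variable (p : ℕ) [Fact p.Prime]

theorem dvd_of_norm_lt (n : ℤ) (h : ‖(n : PadicAlgCl p)‖ < 1) : (p : ℤ) ∣ n := by
  have h1 : (n : PadicAlgCl p) = (algebraMap ℚ_[p] (PadicAlgCl p)) (n : ℚ_[p]) := by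
    simp
  rw [h1, PadicAlgCl.norm_extends, Padic.norm_intCast_lt_one_iff] at h
  exact h

theorem norm_int_le (n : ℤ) : ‖(n : PadicAlgCl p)‖ ≤ 1 :=
  norm_le_one_of_isIntegral p _ isIntegral_algebraMap

theorem add_lt {x y : PadicAlgCl p} (hx : ‖x‖ < 1) (hy : ‖y‖ < 1) : ‖x + y‖ < 1 :=
  (IsUltrametricDist.norm_add_le_max _ _).trans_lt (max_lt hx hy)

theorem mul_lt_left {x y : PadicAlgCl p} (hx : ‖x‖ < 1) (hy : ‖y‖ ≤ 1) : ‖x * y‖ < 1 := by
  rw [norm_mul]
  exact mul_lt_one_of_nonneg_of_lt_one_left (norm_nonneg _) hx hy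

theorem mul_lt_right {x y : PadicAlgCl p} (hx : ‖x‖ ≤ 1) (hy : ‖y‖ < 1) : ‖x * y‖ < 1 := by
  rw [mul_comm]
  exact mul_lt_left p hy hx

/-- At least two of the three traces are units if the rank is at least two. -/
theorem two_units (f : ℤ[X]) (s : Fin 3 → PadicAlgCl p) (q : PadicAlgCl p)
    (hs : ∀ j, ‖s j‖ ≤ 1) (hq : ‖q‖ < 1)
    (hf : f.map (Int.castRingHom (PadicAlgCl p)) = ∏ j, (X ^ 2 - C (s j) * X + C q))
    (hrank : ¬ (p : ℤ) ∣ f.coeff 4 ∨ ¬ (p : ℤ) ∣ f.coeff 3) :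
    ∃ i j, i ≠ j ∧ ¬ ‖s i‖ < 1 ∧ ¬ ‖s j‖ < 1 := by
  by_contra hno
  push Not at hno
  have hpair : ∀ i j : Fin 3, i ≠ j → ‖s i * s j‖ < 1 := by
    intro i j hij
    by_cases h : ‖s i‖ < 1
    · exact mul_lt_left p h (hs j)
    · exact mul_lt_right p (hs i) (hno i j hij (not_lt.1 h))
  obtain ⟨_, h4, h3⟩ := cubic_coeff s q
  rw [← hf, coeff_map, eq_intCast] at h4 h3
  rcases hrank with h | h
  · apply h
    apply dvd_of_norm_lt p
    rw [h4]
    refine add_lt p (add_lt p (add_lt p (hpair _ _ (by decide)) (hpair _ _ (by decide)))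
      (hpair _ _ (by decide))) (mul_lt_right p ?_ hq)
    have := norm_int_le p 3
    push_cast at this
    exact this
  · apply h
    apply dvd_of_norm_lt p
    rw [h3, norm_neg]
    refine add_lt p (mul_lt_left p (hpair _ _ (by decide)) (hs 2)) ?_
    refine mul_lt_left p (mul_lt_right p ?_ hq) ?_
    · have := norm_int_le p 2
      push_cast at this
      exact this
    · exact (IsUltrametricDist.norm_add_le_max _ _).trans (max_le
        ((IsUltrametricDist.norm_add_le_max _ _).trans (max_le (hs 0) (hs 1))) (hs 2))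

/-- The deviation of a unit or of its complement. -/
theorem abs_dev_eq (a : ℕ) (x : PadicAlgCl p) (hx0 : x ≠ 0) (hx : ‖x‖ ≤ 1)
    (hx' : ‖(((p : ℚ) ^ a : ℚ) : PadicAlgCl p) / x‖ ≤ 1)
    (h : ¬ ‖x + (((p : ℚ) ^ a : ℚ) : PadicAlgCl p) / x‖ < 1) :
    |dev p ((p : ℚ) ^ a) x| = Real.log ((p : ℝ) ^ a) := by
  have hp0 : (0 : ℝ) < (p : ℝ) ^ a := pow_pos (by exact_mod_cast (Fact.out : p.Prime).pos) _
  have hp1 : (1 : ℝ) ≤ (p : ℝ) ^ a :=
    one_le_pow₀ (by exact_mod_cast (Fact.out : p.Prime).one_le)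
  have hlog : 0 ≤ Real.log ((p : ℝ) ^ a) := Real.log_nonneg hp1
  have hnx : 0 < ‖x‖ := norm_pos_iff.2 hx0
  have h1 : ‖x‖ = 1 ∨ ‖(((p : ℚ) ^ a : ℚ) : PadicAlgCl p) / x‖ = 1 := by
    by_contra hno
    push Not at hno
    exact h (add_lt p (lt_of_le_of_ne hx hno.1) (lt_of_le_of_ne hx' hno.2))
  unfold dev
  rw [norm_pow_cast, Real.log_inv]
  rcases h1 with h1 | h1
  · rw [h1, Real.log_one, mul_zero, zero_sub, neg_neg, abs_of_nonneg hlog]
  · rw [norm_div, norm_pow_cast, div_eq_one_iff_eq hnx.ne'] at h1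
    rw [← h1, Real.log_inv]
    have : 2 * -Real.log ((p : ℝ) ^ a) - -Real.log ((p : ℝ) ^ a) = -Real.log ((p : ℝ) ^ a) := by
      ring
    rw [this, abs_neg, abs_of_nonneg hlog]

/-- The elementary inequality. -/
theorem sum_eq_zero_of_bounds (u : Fin 3 → ℝ) (l : ℝ) (h1 : |∑ j, u j| ≤ l) (k : Fin 3)
    (h2 : |∑ j, u j - 2 * u k| ≤ l)
    (h3 : ∃ i j, i ≠ j ∧ |u i| = l ∧ |u j| = l) : ∑ j, u j - u k = 0 := by
  have hl : 0 ≤ l := (abs_nonneg _).trans h1
  have key : ∀ a b c : ℝ, |a + b + c| ≤ l → |b + c - a| ≤ l →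
      ((|a| = l ∧ |b| = l) ∨ (|a| = l ∧ |c| = l) ∨ (|b| = l ∧ |c| = l)) → b + c = 0 := by
    intro a b c e1 e2 e3
    rw [abs_le] at e1 e2
    have hA : |a| = l → b + c = 0 := by
      intro h
      rcases abs_eq hl |>.1 h with h | h <;> linarith
    rcases e3 with ⟨h, _⟩ | ⟨h, _⟩ | ⟨hb, hc⟩
    · exact hA h
    · exact hA h
    · rcases abs_eq hl |>.1 hb with hb | hb <;> rcases abs_eq hl |>.1 hc with hc | hc
      · have : l = 0 := by linarith
        linarith
      · linarith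
      · linarith
      · have : l = 0 := by linarith
        linarith
  rw [Fin.sum_univ_three] at h1 h2 ⊢
  obtain ⟨i, j, hij, hi, hj⟩ := h3
  fin_cases k
  · have := key (u 0) (u 1) (u 2) h1 (by
      have e : u 1 + u 2 - u 0 = u 0 + u 1 + u 2 - 2 * u 0 := by ring
      rw [e]; exact h2) (by
      fin_cases i <;> fin_cases j <;> simp_all)
    simp only [Fin.zero_eta, Fin.isValue]
    linarith
  · have := key (u 1) (u 0) (u 2) (by
      have e : u 1 + u 0 + u 2 = u 0 + u 1 + u 2 := by ring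
      rw [e]; exact h1) (by
      have e : u 0 + u 2 - u 1 = u 0 + u 1 + u 2 - 2 * u 1 := by ring
      rw [e]; exact h2) (by
      fin_cases i <;> fin_cases j <;> simp_all)
    simp only [Fin.mk_one, Fin.isValue]
    linarith
  · have := key (u 2) (u 0) (u 1) (by
      have e : u 2 + u 0 + u 1 = u 0 + u 1 + u 2 := by ring
      rw [e]; exact h1) (by
      have e : u 0 + u 1 - u 2 = u 0 + u 1 + u 2 - 2 * u 2 := by ring
      rw [e]; exact h2) (by
      fin_cases i <;> fin_cases j <;> simp_all)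
    simp only [Fin.reduceFinMk, Fin.isValue]
    linarith

end Pool.Agent.W484.BB
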