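import Mathlib

/-!
# The Euler product of the zeta function of a curve over a finite field
-/

set_option autoImplicit false
set_option linter.unusedSectionVars false

namespace Pool.Agent.W484.BB

open Complex

theorem hasSum_fiber {P : Type*} (deg : P → ℕ) (hdeg : ∀ v, 0 < deg v) (x : ℂ) (hx : ‖x‖ < 1)
    (v : P) :
    HasSum (fun m : ℕ => if deg v ∣ m then (deg v : ℂ) * x ^ m / m else 0)
      (-log (1 - x ^ deg v)) := by
  have h1 : ‖x ^ deg v‖ < 1 := by
    rw [norm_pow]
    exact pow_lt_one₀ (norm_nonneg _) hx (hdeg v).ne'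
  have h2 := Complex.hasSum_taylorSeries_neg_log h1
  have hinj : Function.Injective (fun n : ℕ => deg v * n) :=
    fun a b h => Nat.eq_of_mul_eq_mul_left (hdeg v) h
  rw [← hinj.hasSum_iff]
  · convert h2 using 2 with n
    simp only [Function.comp, dvd_mul_right, if_true]
    have h3 : (deg v : ℂ) ≠ 0 := by exact_mod_cast (hdeg v).ne'
    push_cast
    rw [pow_mul, mul_div_mul_left _ _ h3]
  · intro m hm
    rw [if_neg]
    rintro ⟨n, rfl⟩
    exact hm ⟨n, rfl⟩

/-- **The Euler product of the zeta function of a curve.** -/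
theorem hasProd_zeta {P : Type*} (deg : P → ℕ) (hdeg : ∀ v, 0 < deg v)
    (hfin : ∀ m, 0 < m → {v | deg v ∣ m}.Finite)
    {r : ℕ} (c : Fin r → ℂ) (q : ℝ) (hq : 1 < q) (hc : ∀ k, ‖c k‖ ^ 2 = q)
    (hcount : ∀ m (hm : 0 < m), (∑ v ∈ (hfin m hm).toFinset, (deg v : ℂ)) =
      1 + (q : ℂ) ^ m - ∑ k, c k ^ m)
    (x : ℂ) (hx : ‖x‖ * q < 1) :
    HasProd (fun v => (1 - x ^ deg v)⁻¹) ((∏ k, (1 - c k * x)) / ((1 - x) * (1 - q * x))) := by
  classical
  have hq0 : 0 < q := by linarith
  have hx1 : ‖x‖ < 1 := by nlinarith [norm_nonneg x]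
  have hqx : ‖(q : ℂ) * x‖ < 1 := by
    rw [norm_mul, Complex.norm_real, Real.norm_of_nonneg hq0.le, mul_comm]
    exact hx
  have hcq : ∀ k, ‖c k‖ ≤ q := by
    intro k
    have h1 := hc k
    by_contra h
    push Not at h
    nlinarith [norm_nonneg (c k)]
  have hcx : ∀ k, ‖c k * x‖ < 1 := by
    intro k
    rw [norm_mul]
    calc ‖c k‖ * ‖x‖ ≤ q * ‖x‖ := mul_le_mul_of_nonneg_right (hcq k) (norm_nonneg _)
      _ < 1 := by rw [mul_comm]; exact hx
  -- the double family
  let f : ℕ × P → ℂ := fun z => if deg z.2 ∣ z.1 then (deg z.2 : ℂ) * x ^ z.1 / z.1 else 0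
  have hrow : ∀ m, HasSum (fun v => f (m, v))
      (x ^ m / m * (1 + (q : ℂ) ^ m - ∑ k, c k ^ m)) := by
    intro m
    rcases Nat.eq_zero_or_pos m with rfl | hm
    · have h1 : ∀ v, f (0, v) = 0 := by
        intro v
        simp [f]
      simp only [h1, Nat.cast_zero, div_zero, zero_mul]
      exact hasSum_zero
    · rw [← hcount m hm, Finset.mul_sum]
      have h1 : ∑ v ∈ (hfin m hm).toFinset, x ^ m / m * (deg v : ℂ) =
          ∑ v ∈ (hfin m hm).toFinset, f (m, v) := by
        refine Finset.sum_congr rfl fun v hv => ?_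
        rw [Set.Finite.mem_toFinset] at hv
        have hv' : deg v ∣ m := hv
        simp only [f]
        rw [if_pos hv']
        ring
      rw [h1]
      refine hasSum_sum_of_ne_finset_zero fun v hv => ?_
      rw [Set.Finite.mem_toFinset] at hv
      simp only [f]
      exact if_neg hv
  have hnorm : ∀ m v, ‖f (m, v)‖ = if deg v ∣ m then (deg v : ℝ) * ‖x‖ ^ m / m else 0 := by
    intro m v
    simp only [f]
    split_ifs
    · rw [norm_div, norm_mul, norm_pow, Complex.norm_natCast, Complex.norm_natCast]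
    · simp
  have hrown : ∀ m, Summable (fun v => ‖f (m, v)‖) := fun m => (hrow m).summable.norm
  have hbound : ∀ m, ∑' v, ‖f (m, v)‖ ≤ (2 + r) * (‖x‖ * q) ^ m := by
    intro m
    have hnn : 0 ≤ (2 + (r : ℝ)) * (‖x‖ * q) ^ m := by positivity
    rcases Nat.eq_zero_or_pos m with rfl | hm
    · have h1 : ∀ v, ‖f (0, v)‖ = 0 := by
        intro v
        simp [f]
      simp only [h1, tsum_zero]
      exact hnn
    · have h1 : HasSum (fun v => ‖f (m, v)‖)
          (∑ v ∈ (hfin m hm).toFinset, ‖x‖ ^ m / m * (deg v : ℝ)) := by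
        have h2 : ∑ v ∈ (hfin m hm).toFinset, ‖x‖ ^ m / m * (deg v : ℝ) =
            ∑ v ∈ (hfin m hm).toFinset, ‖f (m, v)‖ := by
          refine Finset.sum_congr rfl fun v hv => ?_
          rw [Set.Finite.mem_toFinset] at hv
          have hv' : deg v ∣ m := hv
          rw [hnorm, if_pos hv']
          ring
        rw [h2]
        refine hasSum_sum_of_ne_finset_zero fun v hv => ?_
        rw [Set.Finite.mem_toFinset] at hv
        rw [hnorm]
        exact if_neg hv
      rw [h1.tsum_eq, ← Finset.mul_sum]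
      have h3 : (∑ v ∈ (hfin m hm).toFinset, (deg v : ℝ)) ≤ (2 + r) * q ^ m := by
        have h4 : (∑ v ∈ (hfin m hm).toFinset, (deg v : ℝ)) =
            ‖(∑ v ∈ (hfin m hm).toFinset, (deg v : ℂ))‖ := by
          have h5 : (∑ v ∈ (hfin m hm).toFinset, (deg v : ℂ)) =
              ((∑ v ∈ (hfin m hm).toFinset, deg v : ℕ) : ℂ) := by push_cast; rfl
          rw [h5, Complex.norm_natCast]
          push_cast
          rfl
        rw [h4, hcount m hm]
        have hqm : 1 ≤ q ^ m := one_le_pow₀ hq.le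
        calc ‖1 + (q : ℂ) ^ m - ∑ k, c k ^ m‖ ≤ ‖(1 : ℂ)‖ + ‖(q : ℂ) ^ m‖ + ‖∑ k, c k ^ m‖ := by
              refine (norm_sub_le _ _).trans ?_
              exact add_le_add_left (norm_add_le _ _) _
          _ ≤ 1 + q ^ m + ∑ k : Fin r, q ^ m := by
              refine add_le_add (add_le_add ?_ ?_) ?_
              · simp
              · rw [norm_pow, Complex.norm_real, Real.norm_of_nonneg hq0.le]
              · refine (norm_sum_le _ _).trans (Finset.sum_le_sum fun k _ => ?_)
                rw [norm_pow]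
                exact pow_le_pow_left₀ (norm_nonneg _) (hcq k) m
          _ ≤ (2 + r) * q ^ m := by
              rw [Finset.sum_const, Finset.card_univ, Fintype.card_fin, nsmul_eq_mul]
              linarith
      have hm1 : (1 : ℝ) ≤ m := by exact_mod_cast hm
      calc ‖x‖ ^ m / m * ∑ v ∈ (hfin m hm).toFinset, (deg v : ℝ)
          ≤ ‖x‖ ^ m * ((2 + r) * q ^ m) := by
            refine mul_le_mul ?_ h3 (Finset.sum_nonneg fun v _ => Nat.cast_nonneg _) (by positivity)
            exact div_le_self (by positivity) hm1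
        _ = (2 + r) * (‖x‖ * q) ^ m := by rw [mul_pow]; ring
  have hsumm : Summable f := by
    refine Summable.of_norm ?_
    rw [summable_prod_of_nonneg (fun z => norm_nonneg _)]
    refine ⟨hrown, ?_⟩
    refine Summable.of_nonneg_of_le (fun m => tsum_nonneg fun v => norm_nonneg _) hbound ?_
    refine Summable.mul_left _ (summable_geometric_of_lt_one (by positivity) hx)
  obtain ⟨A, hA⟩ := hsumm
  have hA1 := hA.prod_fiberwise hrow
  have hA2 : HasSum (fun m : ℕ => x ^ m / m * (1 + (q : ℂ) ^ m - ∑ k, c k ^ m))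
      (-log (1 - x) + -log (1 - q * x) - ∑ k, -log (1 - c k * x)) := by
    have h1 := Complex.hasSum_taylorSeries_neg_log hx1
    have h2 := Complex.hasSum_taylorSeries_neg_log hqx
    have h3 := hasSum_sum (s := Finset.univ)
      (fun k _ => Complex.hasSum_taylorSeries_neg_log (hcx k))
    have h4 : ∀ m : ℕ, x ^ m / m * (1 + (q : ℂ) ^ m - ∑ k, c k ^ m) =
        x ^ m / m + (q * x) ^ m / m - ∑ k, (c k * x) ^ m / m := by
      intro m
      simp only [mul_pow]
      rw [mul_sub, mul_add, Finset.mul_sum, mul_one]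
      congr 1
      · ring
      · exact Finset.sum_congr rfl fun k _ => by ring
    simp only [h4]
    exact (h1.add h2).sub h3
  have hAeq : A = -log (1 - x) + -log (1 - q * x) - ∑ k, -log (1 - c k * x) := hA1.unique hA2
  have hB : HasSum (fun v => -log (1 - x ^ deg v)) A := by
    have h1 : HasSum (f ∘ Prod.swap) A := (Equiv.prodComm P ℕ).hasSum_iff.2 hA
    exact h1.prod_fiberwise (fun v => hasSum_fiber deg hdeg x hx1 v)
  have hne : ∀ z : ℂ, ‖z‖ < 1 → 1 - z ≠ 0 := by
    intro z hz h
    have h1 : z = 1 := (sub_eq_zero.1 h).symm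
    rw [h1, norm_one] at hz
    exact lt_irrefl _ hz
  have hxd : ∀ v, ‖x ^ deg v‖ < 1 := by
    intro v
    rw [norm_pow]
    exact pow_lt_one₀ (norm_nonneg _) hx1 (hdeg v).ne'
  have hlog : ∀ z : ℂ, ‖z‖ < 1 → log (1 - z)⁻¹ = -log (1 - z) := by
    intro z hz
    apply Complex.log_inv
    have h1 : 1 - z ∈ slitPlane := by
      left
      rw [sub_re, one_re]
      have := Complex.re_le_norm z
      linarith
    exact (mem_slitPlane_iff_arg.1 h1).1
  have hP := hasProd_of_hasSum_log (f := fun v => (1 - x ^ deg v)⁻¹) (a := A)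
    (fun v => inv_ne_zero (hne _ (hxd v))) (by
      simp only [hlog _ (hxd _)]
      exact hB)
  convert hP using 1
  have hlast : ∀ k, exp (-log (1 - c k * x)) = (1 - c k * x)⁻¹ := by
    intro k
    rw [exp_neg, exp_log (hne _ (hcx k))]
  rw [hAeq, exp_sub, exp_add, exp_neg, exp_neg, exp_log (hne _ hx1), exp_log (hne _ hqx),
    exp_sum]
  simp only [hlast]
  rw [Finset.prod_inv_distrib, div_inv_eq_mul, div_eq_mul_inv, mul_inv]
  ring

end Pool.Agent.W484.BB
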