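import Mathlib
import Pool.Agent.W484.BB.Zeta

/-!
# The L-function of a constant representation over the function field of a curve
-/

set_option autoImplicit false
set_option linter.unusedSectionVars false

namespace Pool.Agent.W484.BB

open Complex

/-- `1 - γ q ^ (-s)`. -/
noncomputable def fac (q : ℝ) (γ s : ℂ) : ℂ := 1 - γ * (q : ℂ) ^ (-s)

theorem hasDerivAt_fac (q : ℝ) (hq : 0 < q) (γ s : ℂ) :
    HasDerivAt (fac q γ) (γ * (q : ℂ) ^ (-s) * log q) s := by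
  have hq' : (q : ℂ) ≠ 0 := by exact_mod_cast hq.ne'
  have h1 : HasDerivAt (fun s : ℂ => (q : ℂ) ^ (-s)) ((q : ℂ) ^ (-s) * log q * (-1)) s :=
    (hasDerivAt_neg s).const_cpow (Or.inl hq')
  have h2 := (h1.const_mul γ).const_sub 1
  refine h2.congr_deriv ?_
  ring

theorem differentiable_fac (q : ℝ) (hq : 0 < q) (γ : ℂ) : Differentiable ℂ (fac q γ) :=
  fun s => (hasDerivAt_fac q hq γ s).differentiableAt

theorem analyticAt_fac (q : ℝ) (hq : 0 < q) (γ s : ℂ) : AnalyticAt ℂ (fac q γ) s :=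
  (differentiable_fac q hq γ).analyticAt s

theorem order_fac (q : ℝ) (hq : 1 < q) (γ s : ℂ) [Decidable (fac q γ s = 0)] :
    meromorphicOrderAt (fac q γ) s = if fac q γ s = 0 then 1 else 0 := by
  have hq0 : 0 < q := by linarith
  rw [(analyticAt_fac q hq0 γ s).meromorphicOrderAt_eq]
  split_ifs with h
  · rw [(analyticAt_fac q hq0 γ s).analyticOrderAt_eq_one_of_zero_deriv_ne_zero h]
    · rfl
    · rw [(hasDerivAt_fac q hq0 γ s).deriv]
      have h1 : γ * (q : ℂ) ^ (-s) = 1 := (sub_eq_zero.1 h).symm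
      rw [h1, one_mul, ← Complex.ofReal_log hq0.le]
      exact_mod_cast (Real.log_pos hq).ne'
  · rw [(analyticAt_fac q hq0 γ s).analyticOrderAt_eq_zero.2 h]
    rfl

theorem fac_eq_zero_iff (q : ℝ) (hq : 0 < q) (γ : ℂ) (i : ℕ) :
    fac q γ i = 0 ↔ γ = (q : ℂ) ^ i := by
  have hq' : (q : ℂ) ≠ 0 := by exact_mod_cast hq.ne'
  unfold fac
  rw [cpow_neg, cpow_natCast, sub_eq_zero, eq_comm, mul_inv_eq_one₀ (pow_ne_zero _ hq')]

/-- The function `Λ`. -/
noncomputable def Lam (q : ℝ) {r r' : ℕ} (c : Fin r → ℂ) (α : Fin r' → ℂ) (s : ℂ) : ℂ :=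
  ∏ j, ((∏ k, fac q (c k * α j) s) / (fac q (α j) s * fac q (q * α j) s))

theorem meromorphic_Lam (q : ℝ) (hq : 0 < q) {r r' : ℕ} (c : Fin r → ℂ) (α : Fin r' → ℂ) (s : ℂ) :
    MeromorphicAt (Lam q c α) s := by
  unfold Lam
  refine MeromorphicAt.fun_prod fun j _ => ?_
  refine MeromorphicAt.fun_div ?_ ?_
  · exact MeromorphicAt.fun_prod fun k _ => (analyticAt_fac q hq _ s).meromorphicAt
  · exact ((analyticAt_fac q hq _ s).meromorphicAt).fun_mul
      (analyticAt_fac q hq _ s).meromorphicAt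

theorem norm_cpow_neg (q : ℝ) (hq : 0 < q) (s : ℂ) : ‖(q : ℂ) ^ (-s)‖ = q ^ (-s.re) := by
  rw [Complex.norm_cpow_eq_rpow_re_of_pos hq, neg_re]

theorem norm_of_sq (q : ℝ) (hq : 0 < q) (n : ℕ) (α : ℂ) (h : ‖α‖ ^ 2 = q ^ n) :
    ‖α‖ = q ^ ((n : ℝ) / 2) := by
  have h1 : (q ^ ((n : ℝ) / 2)) ^ 2 = q ^ n := by
    rw [← Real.rpow_natCast, ← Real.rpow_mul hq.le, ← Real.rpow_natCast]
    congr 1
    push_cast
    ring
  rw [← h1] at h
  exact (pow_left_inj₀ (norm_nonneg _) (Real.rpow_nonneg hq.le _) two_ne_zero).1 h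

theorem order_Lam (q : ℝ) (hq : 1 < q) {r r' : ℕ} (c : Fin r → ℂ) (α : Fin r' → ℂ)
    (i : ℕ) (hα : ∀ j, ‖α j‖ ^ 2 * q = q ^ (2 * i)) :
    meromorphicOrderAt (Lam q c α) i =
      ((Nat.card {z : Fin r' × Fin r // c z.2 * α z.1 = (q : ℂ) ^ i} : ℕ) : ℤ) := by
  classical
  have hq0 : 0 < q := by linarith
  have hne1 : ∀ j, fac q (α j) i ≠ 0 := by
    intro j h
    rw [fac_eq_zero_iff q hq0] at h
    have h1 := hα j
    rw [h, norm_pow, norm_real, Real.norm_of_nonneg hq0.le, ← pow_mul, mul_comm i 2] at h1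
    have h2 : 0 < q ^ (2 * i) := by positivity
    nlinarith
  have hne2 : ∀ j, fac q (q * α j) i ≠ 0 := by
    intro j h
    rw [fac_eq_zero_iff q hq0] at h
    have h1 := hα j
    have h3 : ‖(q : ℂ) * α j‖ ^ 2 = q ^ (2 * i) := by
      rw [h, norm_pow, norm_real, Real.norm_of_nonneg hq0.le, ← pow_mul, mul_comm i 2]
    rw [norm_mul, norm_real, Real.norm_of_nonneg hq0.le, mul_pow] at h3
    have h2 : 0 < q ^ (2 * i) := by positivity
    have h4 : 0 < ‖α j‖ ^ 2 * q := by rw [h1]; exact h2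
    have h5 : q * (‖α j‖ ^ 2 * q) = ‖α j‖ ^ 2 * q := by
      rw [h1]
      nlinarith
    nlinarith
  have hmer : ∀ γ, MeromorphicAt (fac q γ) (i : ℂ) :=
    fun γ => (analyticAt_fac q hq0 γ _).meromorphicAt
  have h0 : ∀ j, meromorphicOrderAt
      (fun s => (∏ k, fac q (c k * α j) s) / (fac q (α j) s * fac q (q * α j) s)) (i : ℂ) =
      ∑ k, (if c k * α j = (q : ℂ) ^ i then 1 else 0) := by
    intro j
    rw [fun_meromorphicOrderAt_div (MeromorphicAt.fun_prod fun k _ => hmer _)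
      ((hmer _).fun_mul (hmer _)), meromorphicOrderAt_fun_prod (fun k _ => hmer _),
      fun_meromorphicOrderAt_mul (hmer _) (hmer _), order_fac q hq, order_fac q hq,
      if_neg (hne1 j), if_neg (hne2 j), add_zero, sub_zero]
    refine Finset.sum_congr rfl fun k _ => ?_
    rw [order_fac q hq]
    simp only [fac_eq_zero_iff q hq0]
  unfold Lam
  rw [meromorphicOrderAt_fun_prod]
  · rw [Finset.sum_congr rfl (fun j _ => h0 j), Nat.card_eq_fintype_card, Fintype.card_subtype,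
      Finset.card_filter, Fintype.sum_prod_type]
    push_cast
    refine Finset.sum_congr rfl fun j _ => Finset.sum_congr rfl fun k _ => ?_
    split_ifs <;> rfl
  · intro j _
    exact MeromorphicAt.fun_div (MeromorphicAt.fun_prod fun k _ => hmer _)
      ((hmer _).fun_mul (hmer _))

theorem analyticAt_Lam (q : ℝ) (hq : 1 < q) {r r' : ℕ} (c : Fin r → ℂ) (α : Fin r' → ℂ)
    (i : ℕ) (hα : ∀ j, ‖α j‖ ^ 2 * q = q ^ (2 * i)) (h : ∀ j k, c k * α j ≠ (q : ℂ) ^ i) :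
    AnalyticAt ℂ (Lam q c α) i ∧ Lam q c α i ≠ 0 := by
  have hq0 : 0 < q := by linarith
  have hne1 : ∀ j, fac q (α j) i ≠ 0 := by
    intro j h
    rw [fac_eq_zero_iff q hq0] at h
    have h1 := hα j
    rw [h, norm_pow, norm_real, Real.norm_of_nonneg hq0.le, ← pow_mul, mul_comm i 2] at h1
    have h2 : 0 < q ^ (2 * i) := by positivity
    nlinarith
  have hne2 : ∀ j, fac q (q * α j) i ≠ 0 := by
    intro j h
    rw [fac_eq_zero_iff q hq0] at h
    have h1 := hα j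
    have h3 : ‖(q : ℂ) * α j‖ ^ 2 = q ^ (2 * i) := by
      rw [h, norm_pow, norm_real, Real.norm_of_nonneg hq0.le, ← pow_mul, mul_comm i 2]
    rw [norm_mul, norm_real, Real.norm_of_nonneg hq0.le, mul_pow] at h3
    have h2 : 0 < q ^ (2 * i) := by positivity
    have h4 : 0 < ‖α j‖ ^ 2 * q := by rw [h1]; exact h2
    have h5 : q * (‖α j‖ ^ 2 * q) = ‖α j‖ ^ 2 * q := by
      rw [h1]
      nlinarith
    nlinarith
  constructor
  · unfold Lam
    refine Finset.analyticAt_fun_prod _ fun j _ => ?_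
    refine AnalyticAt.fun_div ?_ ?_ (mul_ne_zero (hne1 j) (hne2 j))
    · exact Finset.analyticAt_fun_prod _ fun k _ => analyticAt_fac q hq0 _ _
    · exact (analyticAt_fac q hq0 _ _).fun_mul (analyticAt_fac q hq0 _ _)
  · unfold Lam
    refine Finset.prod_ne_zero_iff.2 fun j _ => div_ne_zero ?_ (mul_ne_zero (hne1 j) (hne2 j))
    refine Finset.prod_ne_zero_iff.2 fun k _ => ?_
    rw [Ne, fac_eq_zero_iff q hq0]
    exact h j k

/-- **The Euler product.** -/
theorem hasProd_Lam {P : Type*} (deg : P → ℕ) (hdeg : ∀ v, 0 < deg v)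
    (hfin : ∀ m, 0 < m → {v | deg v ∣ m}.Finite)
    {r : ℕ} (c : Fin r → ℂ) (q : ℝ) (hq : 1 < q) (hc : ∀ k, ‖c k‖ ^ 2 = q)
    (hcount : ∀ m (hm : 0 < m), (∑ v ∈ (hfin m hm).toFinset, (deg v : ℂ)) =
      1 + (q : ℂ) ^ m - ∑ k, c k ^ m)
    {r' : ℕ} (α : Fin r' → ℂ) (n : ℕ) (hα : ∀ j, ‖α j‖ ^ 2 = q ^ n)
    (s : ℂ) (hs : (n : ℝ) / 2 + 1 < s.re) :
    HasProd (fun v => (∏ j, (1 - ((q : ℂ) ^ (-s)) ^ deg v * α j ^ deg v))⁻¹) (Lam q c α s) := by
  have hq0 : 0 < q := by linarith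
  have h1 : ∀ j, ‖α j * (q : ℂ) ^ (-s)‖ * q < 1 := by
    intro j
    rw [norm_mul, norm_cpow_neg q hq0, norm_of_sq q hq0 n _ (hα j), ← Real.rpow_add hq0]
    nth_rewrite 2 [← Real.rpow_one q]
    rw [← Real.rpow_add hq0]
    exact Real.rpow_lt_one_of_one_lt_of_neg hq (by linarith)
  have h2 := hasProd_prod (s := Finset.univ)
    (fun j _ => hasProd_zeta deg hdeg hfin c q hq hc hcount (α j * (q : ℂ) ^ (-s)) (h1 j))
  convert h2 using 1
  · funext v
    rw [Finset.prod_inv_distrib]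
    congr 1
    refine Finset.prod_congr rfl fun j _ => ?_
    rw [mul_pow, mul_comm]
  · unfold Lam fac
    refine Finset.prod_congr rfl fun j _ => ?_
    simp only [mul_assoc]

end Pool.Agent.W484.BB
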