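import Mathlib

/-!
# Endomorphisms with a basis of eigenvectors
-/

set_option autoImplicit false
set_option linter.unusedSectionVars false

namespace Pool.Agent.W484.BB

open Module

variable {U : Type*} [AddCommGroup U] [Module ℂ U]

theorem exists_eigenbasis [FiniteDimensional ℂ U]
    (T : U →ₗ[ℂ] U) (E : Set ℂ) (h : Submodule.span ℂ {u : U | ∃ α ∈ E, T u = α • u} = ⊤) :
    ∃ (r : ℕ) (b : Basis (Fin r) ℂ U) (α : Fin r → ℂ), (∀ j, α j ∈ E) ∧
      ∀ j, T (b j) = α j • b j := by
  classical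
  let b₀ := Basis.ofSpan h.ge
  have hfin : Finite _ := Module.Finite.finite_basis b₀
  have : Fintype ((linearIndepOn_empty ℂ id).extend
      (Set.empty_subset {u : U | ∃ α ∈ E, T u = α • u})) := Fintype.ofFinite _
  let e := Fintype.equivFin ((linearIndepOn_empty ℂ id).extend
      (Set.empty_subset {u : U | ∃ α ∈ E, T u = α • u}))
  let b := b₀.reindex e
  have h1 : ∀ j, ∃ α ∈ E, T (b j) = α • b j := by
    intro j
    have h2 := Basis.ofSpan_subset h.ge ⟨e.symm j, rfl⟩
    rw [Basis.reindex_apply]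
    exact h2
  choose α hα hb using h1
  exact ⟨_, b, α, hα, hb⟩

variable {r : ℕ}

theorem pow_apply_eigen (T : U →ₗ[ℂ] U) (u : U) (α : ℂ) (h : T u = α • u) (d : ℕ) :
    (T ^ d) u = α ^ d • u := by
  induction d with
  | zero => simp
  | succ d ih => rw [pow_succ', Module.End.mul_apply, ih, map_smul, h, smul_smul, pow_succ]

theorem toMatrix_eigen (T : U →ₗ[ℂ] U) (b : Basis (Fin r) ℂ U) (α : Fin r → ℂ)
    (hb : ∀ j, T (b j) = α j • b j) : LinearMap.toMatrix b b T = Matrix.diagonal α := by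
  ext i j
  rw [LinearMap.toMatrix_apply, hb, map_smul, Finsupp.smul_apply, Basis.repr_self,
    Matrix.diagonal_apply, Finsupp.single_apply]
  by_cases h : i = j
  · subst h
    simp
  · rw [if_neg h, if_neg (Ne.symm h)]
    simp

theorem det_one_sub (T : U →ₗ[ℂ] U) (b : Basis (Fin r) ℂ U) (α : Fin r → ℂ)
    (hb : ∀ j, T (b j) = α j • b j) (y : ℂ) (d : ℕ) :
    LinearMap.det (1 - y • T ^ d) = ∏ j, (1 - y * α j ^ d) := by
  rw [← LinearMap.det_toMatrix b, toMatrix_eigen (1 - y • T ^ d) b (fun j => 1 - y * α j ^ d),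
    Matrix.det_diagonal]
  intro j
  rw [LinearMap.sub_apply, LinearMap.smul_apply, pow_apply_eigen T _ _ (hb j), smul_smul,
    sub_smul, one_smul, Module.End.one_apply]

theorem trace_pow (T : U →ₗ[ℂ] U) (b : Basis (Fin r) ℂ U) (α : Fin r → ℂ)
    (hb : ∀ j, T (b j) = α j • b j) (m : ℕ) :
    LinearMap.trace ℂ U (T ^ m) = ∑ j, α j ^ m := by
  rw [LinearMap.trace_eq_matrix_trace ℂ b, toMatrix_eigen (T ^ m) b (fun j => α j ^ m),
    Matrix.trace_diagonal]
  intro j
  exact pow_apply_eigen T _ _ (hb j) m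

theorem mem_eqLocus_smul (T : U →ₗ[ℂ] U) (μ : ℂ) (u : U) :
    u ∈ LinearMap.eqLocus T (μ • LinearMap.id) ↔ T u = μ • u := by
  rw [LinearMap.mem_eqLocus]
  rfl

theorem finrank_eigenspace {J : Type*} [Fintype J] (T : U →ₗ[ℂ] U) (b : Basis J ℂ U)
    (α : J → ℂ) (hb : ∀ j, T (b j) = α j • b j) (μ : ℂ) :
    finrank ℂ (LinearMap.eqLocus T (μ • LinearMap.id)) = Nat.card {j // α j = μ} := by
  classical
  have h1 : LinearMap.eqLocus T (μ • LinearMap.id) =
      Submodule.span ℂ (Set.range (fun j : {j // α j = μ} => b j)) := by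
    apply le_antisymm
    · intro u hu
      rw [mem_eqLocus_smul] at hu
      have h2 : ∀ j, α j ≠ μ → b.repr u j = 0 := by
        intro j hj
        have h3 : T u = ∑ k, b.repr u k • (α k • b k) := by
          conv_lhs => rw [← b.sum_repr u]
          rw [map_sum]
          exact Finset.sum_congr rfl fun k _ => by rw [map_smul, hb]
        have h4 : b.repr (T u) j = b.repr u j * α j := by
          rw [h3, map_sum, Finsupp.finsetSum_apply]
          rw [Finset.sum_eq_single j]
          · simp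
          · intro k _ hk
            simp [hk]
          · simp
        rw [hu, map_smul, Finsupp.smul_apply, smul_eq_mul] at h4
        have h5 : b.repr u j * (α j - μ) = 0 := by linear_combination -h4
        rcases mul_eq_zero.1 h5 with h6 | h6
        · exact h6
        · exact absurd (sub_eq_zero.1 h6) hj
      rw [← b.sum_repr u]
      refine Submodule.sum_mem _ fun j _ => ?_
      by_cases hj : α j = μ
      · exact Submodule.smul_mem _ _ (Submodule.subset_span ⟨⟨j, hj⟩, rfl⟩)
      · rw [h2 j hj, zero_smul]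
        exact Submodule.zero_mem _
    · rw [Submodule.span_le]
      rintro _ ⟨⟨j, hj⟩, rfl⟩
      change b j ∈ LinearMap.eqLocus T (μ • LinearMap.id)
      rw [mem_eqLocus_smul, hb, hj]
  have h2 : LinearIndependent ℂ (fun j : {j // α j = μ} => b j) :=
    b.linearIndependent.comp _ Subtype.val_injective
  rw [h1, finrank_span_eq_card h2, Nat.card_eq_fintype_card]

open TensorProduct

variable {W : Type*} [AddCommGroup W] [Module ℂ W]

theorem components (T : U →ₗ[ℂ] U) (G : W →ₗ[ℂ] W) (b : Basis (Fin r) ℂ W) (c : Fin r → ℂ)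
    (hb : ∀ j, G (b j) = c j • b j) (μ : ℂ) (u : U ⊗[ℂ] W)
    (hu : TensorProduct.map T G u = μ • u) :
    ∃ x : Fin r → U, u = ∑ j, x j ⊗ₜ[ℂ] b j ∧ ∀ j, c j • T (x j) = μ • x j := by
  classical
  obtain ⟨x, hx⟩ := TensorProduct.eq_repr_basis_right (M := U) b u
  have hx : ∑ j, x j ⊗ₜ[ℂ] b j = u := by
    rw [← hx, Finsupp.sum_fintype]
    intro j
    exact TensorProduct.zero_tmul _ _
  refine ⟨x, hx.symm, ?_⟩
  have h2 : ∑ j, (c j • T (x j) - μ • x j) ⊗ₜ[ℂ] b j = 0 := by
    simp only [TensorProduct.sub_tmul]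
    rw [Finset.sum_sub_distrib, sub_eq_zero]
    rw [← hx, map_sum, Finset.smul_sum] at hu
    have h8 : ∀ j, (c j • T (x j)) ⊗ₜ[ℂ] b j = TensorProduct.map T G (x j ⊗ₜ[ℂ] b j) := by
      intro j
      rw [TensorProduct.map_tmul, hb, TensorProduct.tmul_smul, TensorProduct.smul_tmul']
    have h9 : ∀ j, (μ • x j) ⊗ₜ[ℂ] b j = μ • (x j ⊗ₜ[ℂ] b j) := by
      intro j
      rw [TensorProduct.smul_tmul']
    rw [Finset.sum_congr rfl (fun j _ => h8 j), Finset.sum_congr rfl (fun j _ => h9 j)]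
    exact hu
  have h3 := TensorProduct.sum_tmul_basis_right_eq_zero b
    (Finsupp.equivFunOnFinite.symm (fun j => c j • T (x j) - μ • x j)) (by
        rw [Finsupp.sum_fintype]
        · exact h2
        · intro j
          exact TensorProduct.zero_tmul _ _)
  intro j
  have h4 := DFunLike.congr_fun h3 j
  exact sub_eq_zero.1 h4

theorem finrank_tensor {r' : ℕ} (T : U →ₗ[ℂ] U) (b' : Basis (Fin r') ℂ U) (α : Fin r' → ℂ)
    (hb' : ∀ j, T (b' j) = α j • b' j) (G : W →ₗ[ℂ] W) (b : Basis (Fin r) ℂ W) (c : Fin r → ℂ)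
    (hb : ∀ j, G (b j) = c j • b j) (μ : ℂ) :
    finrank ℂ (LinearMap.eqLocus (TensorProduct.map T G) (μ • LinearMap.id)) =
      Nat.card {z : Fin r' × Fin r // c z.2 * α z.1 = μ} := by
  refine finrank_eigenspace (TensorProduct.map T G) (b'.tensorProduct b)
    (fun z => c z.2 * α z.1) ?_ μ
  rintro ⟨j, k⟩
  rw [Basis.tensorProduct_apply, TensorProduct.map_tmul, hb', hb, TensorProduct.smul_tmul_smul,
    mul_comm]

end Pool.Agent.W484.BB
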