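import Mathlib
import Pool.Agent.W484.BB.Lists
import Pool.Agent.W484.BB.Eigen

/-!
# Classes on the product of an abelian variety and a curve
-/

set_option autoImplicit false
set_option linter.unusedSectionVars false

namespace Pool.Agent.W484.BB

open NumberField Module ExteriorAlgebra TensorProduct

variable {V : Type*} [AddCommGroup V] [Module ℂ V] {W : Type*} [AddCommGroup W] [Module ℂ W]

/-- The class `z` in `V ⊗ W` (that is, in the tensor product of the first cohomology groups of an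
abelian variety and a curve over the field with `q` elements) is a Tate class over some
extension of the base field. By the theorem of Tate it is a linear combination of classes of
divisors (correspondences). -/
def IsCorrespondence (F : V →ₗ[ℂ] V) (G : W →ₗ[ℂ] W) (q : ℂ) (z : V ⊗[ℂ] W) : Prop :=
  ∃ N : ℕ, 0 < N ∧ TensorProduct.map (F ^ N) (G ^ N) z = q ^ N • z

/-- The cup product with the class `D`, from `V ⊗ W` to `(⋀ V) ⊗ W`. -/
noncomputable def cup (W : Type*) [AddCommGroup W] [Module ℂ W] (D : ExteriorAlgebra ℂ V) :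
    V ⊗[ℂ] W →ₗ[ℂ] ExteriorAlgebra ℂ V ⊗[ℂ] W :=
  TensorProduct.map (LinearMap.mulLeft ℂ D ∘ₗ ι ℂ) LinearMap.id

/-- The span of the products of `k` divisor classes and a correspondence. -/
def prodSpan₂ (F : V →ₗ[ℂ] V) (G : W →ₗ[ℂ] W) (q : ℂ) (k : ℕ) :
    Submodule ℂ (ExteriorAlgebra ℂ V ⊗[ℂ] W) :=
  Submodule.span ℂ {t | ∃ (Z : Fin k → ExteriorAlgebra ℂ V) (z : V ⊗[ℂ] W),
    (∀ l, IsDivisorClass F q (Z l)) ∧ IsCorrespondence F G q z ∧ t = cup W (List.ofFn Z).prod z}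

/-- The classes in `H ^ (2 k + 1) (A) ⊗ H ^ 1 (C)` fixed by the Frobenius (the Frobenius
acts as multiplication by `q ^ (k + 1)`) which are linear combinations of products of `k` divisor
classes and a correspondence. -/
def algebraicClasses (F : V →ₗ[ℂ] V) (G : W →ₗ[ℂ] W) (q : ℂ) (k : ℕ) :
    Submodule ℂ (ExteriorAlgebra ℂ V ⊗[ℂ] W) :=
  prodSpan₂ F G q k ⊓
    LinearMap.eqLocus (TensorProduct.map (ExteriorAlgebra.map F).toLinearMap G)
      (q ^ (k + 1) • LinearMap.id)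

theorem tmul_mem_prodSpan₂ (F : V →ₗ[ℂ] V) (G : W →ₗ[ℂ] W) (q ρ : ℂ) (k : ℕ) (w : W)
    (hw : G w = ρ • w) (x : ExteriorAlgebra ℂ V) (hx : x ∈ prodSpan F q ρ k) :
    x ⊗ₜ[ℂ] w ∈ prodSpan₂ F G q k := by
  have h : prodSpan F q ρ k ≤ (prodSpan₂ F G q k).comap
      ((TensorProduct.mk ℂ (ExteriorAlgebra ℂ V) W).flip w) := by
    refine Submodule.span_le.2 ?_
    rintro _ ⟨Z, v, hZ, ⟨μ, N, hN, hv, hμ⟩, rfl⟩
    refine Submodule.subset_span ⟨Z, v ⊗ₜ w, hZ, ⟨N, hN, ?_⟩, ?_⟩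
    · rw [TensorProduct.map_tmul, pow_apply_eigen F v μ hv, pow_apply_eigen G w ρ hw,
        TensorProduct.smul_tmul_smul, ← mul_pow, hμ]
    · rw [cup, TensorProduct.map_tmul]
      rfl
  exact h hx

/-- The inclusion of `(⋀ ^ n V) ⊗ W`. -/
noncomputable def incl (V W : Type*) [AddCommGroup V] [Module ℂ V] [AddCommGroup W] [Module ℂ W]
    (n : ℕ) : (⋀[ℂ]^n V) ⊗[ℂ] W →ₗ[ℂ] ExteriorAlgebra ℂ V ⊗[ℂ] W :=
  TensorProduct.map (⋀[ℂ]^n V).subtype LinearMap.id

theorem incl_injective (n : ℕ) : Function.Injective (incl V W n) := by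
  have h := Module.Flat.rTensor_preserves_injective_linearMap (M := W)
    (⋀[ℂ]^n V).subtype (Submodule.subtype_injective _)
  exact h

theorem coe_map (F : V →ₗ[ℂ] V) (n : ℕ) (u : ⋀[ℂ]^n V) :
    ((exteriorPower.map n F u : ⋀[ℂ]^n V) : ExteriorAlgebra ℂ V) =
      ExteriorAlgebra.map F (u : ExteriorAlgebra ℂ V) := by
  have h : (⋀[ℂ]^n V).subtype ∘ₗ exteriorPower.map n F =
      (ExteriorAlgebra.map F).toLinearMap ∘ₗ (⋀[ℂ]^n V).subtype := by
    apply exteriorPower.linearMap_ext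
    ext v
    simp only [LinearMap.compAlternatingMap_apply, LinearMap.comp_apply,
      exteriorPower.map_apply_ιMulti, Submodule.subtype_apply, exteriorPower.ιMulti_apply_coe,
      AlgHom.toLinearMap_apply]
    rw [ExteriorAlgebra.map_apply_ιMulti]
  exact LinearMap.congr_fun h u

theorem map_incl (F : V →ₗ[ℂ] V) (G : W →ₗ[ℂ] W) (n : ℕ) (u : (⋀[ℂ]^n V) ⊗[ℂ] W) :
    TensorProduct.map (ExteriorAlgebra.map F).toLinearMap G (incl V W n u) =
      incl V W n (TensorProduct.map (exteriorPower.map n F) G u) := by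
  have h : TensorProduct.map (ExteriorAlgebra.map F).toLinearMap G ∘ₗ incl V W n =
      incl V W n ∘ₗ TensorProduct.map (exteriorPower.map n F) G := by
    ext u w
    simp only [incl, TensorProduct.AlgebraTensorModule.curry_apply, LinearMap.restrictScalars_self,
      TensorProduct.curry_apply, LinearMap.comp_apply, TensorProduct.map_tmul]
    rw [Submodule.subtype_apply, Submodule.subtype_apply, coe_map]
    rfl
  exact LinearMap.congr_fun h u

theorem isDivisorClass_prod (F : V →ₗ[ℂ] V) (q : ℂ) (k : ℕ) (Z : Fin k → ExteriorAlgebra ℂ V)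
    (hZ : ∀ l, IsDivisorClass F q (Z l)) (v : V) :
    (List.ofFn Z).prod * ι ℂ v ∈ ⋀[ℂ]^(2 * k + 1) V := by
  induction k with
  | zero =>
    simp only [List.ofFn_zero, List.prod_nil, one_mul, mul_zero, zero_add]
    rw [exteriorPower, pow_one]
    exact LinearMap.mem_range_self _ _
  | succ k ih =>
    rw [List.ofFn_succ, List.prod_cons, mul_assoc]
    have h1 := (hZ 0).1
    have h2 := ih (fun l => Z l.succ) (fun l => hZ _)
    have h3 := Submodule.mul_mem_mul h1 h2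
    rw [exteriorPower, exteriorPower, ← pow_add] at h3
    rw [exteriorPower, show 2 * (k + 1) + 1 = 2 + (2 * k + 1) by ring]
    exact h3

theorem cup_mem_range (F : V →ₗ[ℂ] V) (q : ℂ) (k : ℕ) (Z : Fin k → ExteriorAlgebra ℂ V)
    (hZ : ∀ l, IsDivisorClass F q (Z l)) (z : V ⊗[ℂ] W) :
    cup W (List.ofFn Z).prod z ∈ LinearMap.range (incl V W (2 * k + 1)) := by
  induction z with
  | zero => rw [map_zero]; exact Submodule.zero_mem _
  | add x y hx hy => rw [map_add]; exact Submodule.add_mem _ hx hy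
  | tmul v w =>
    refine ⟨⟨_, isDivisorClass_prod F q k Z hZ v⟩ ⊗ₜ w, ?_⟩
    rw [incl, cup, TensorProduct.map_tmul, TensorProduct.map_tmul]
    rfl

theorem prodSpan₂_le_range (F : V →ₗ[ℂ] V) (G : W →ₗ[ℂ] W) (q : ℂ) (k : ℕ) :
    prodSpan₂ F G q k ≤ LinearMap.range (incl V W (2 * k + 1)) := by
  refine Submodule.span_le.2 ?_
  rintro _ ⟨Z, z, hZ, _, rfl⟩
  exact cup_mem_range F q k Z hZ z

/-- The Tate classes in `H ^ n (A) ⊗ H ^ 1 (C)` on which the Frobenius acts as multiplication by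
`μ`. -/
noncomputable def tate (F : V →ₗ[ℂ] V) (G : W →ₗ[ℂ] W) (n : ℕ) (μ : ℂ) :
    Submodule ℂ ((⋀[ℂ]^n V) ⊗[ℂ] W) :=
  LinearMap.eqLocus (TensorProduct.map (exteriorPower.map n F) G) (μ • LinearMap.id)

theorem mem_tate (F : V →ₗ[ℂ] V) (G : W →ₗ[ℂ] W) (n : ℕ) (μ : ℂ) (u : (⋀[ℂ]^n V) ⊗[ℂ] W) :
    u ∈ tate F G n μ ↔ TensorProduct.map (exteriorPower.map n F) G u = μ • u := by
  rw [tate, LinearMap.mem_eqLocus]
  rfl

/-- If all the components belong to the span of the products, then all Tate classes on the product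
of the abelian variety and the curve are algebraic. -/
theorem algebraicClasses_eq [FiniteDimensional ℂ W] (F : V →ₗ[ℂ] V) (G : W →ₗ[ℂ] W) (q : ℂ)
    (k : ℕ) (E : Set ℂ) (hE : ∀ ρ ∈ E, ρ ≠ 0)
    (hG : Submodule.span ℂ {w : W | ∃ ρ ∈ E, G w = ρ • w} = ⊤)
    (hmain : ∀ ρ ∈ E, ∀ x : ExteriorAlgebra ℂ V, x ∈ ⋀[ℂ]^(2 * k + 1) V →
      ExteriorAlgebra.map F x = (q ^ (k + 1) / ρ) • x → x ∈ prodSpan F q ρ k) :
    algebraicClasses F G q k =
      (tate F G (2 * k + 1) (q ^ (k + 1))).map (incl V W (2 * k + 1)) := by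
  classical
  apply le_antisymm
  · rintro t ⟨ht1, ht2⟩
    obtain ⟨u, rfl⟩ := prodSpan₂_le_range F G q k ht1
    refine ⟨u, ?_, rfl⟩
    rw [SetLike.mem_coe, mem_tate]
    rw [SetLike.mem_coe, mem_eqLocus_smul, map_incl, ← map_smul] at ht2
    exact incl_injective _ ht2
  · rintro _ ⟨u, hu, rfl⟩
    rw [SetLike.mem_coe, mem_tate] at hu
    refine ⟨?_, ?_⟩
    · obtain ⟨r, b, c, hc, hb⟩ := exists_eigenbasis G E hG
      obtain ⟨x, hx, h1⟩ := components (exteriorPower.map (2 * k + 1) F) G b c hb _ u hu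
      rw [hx, map_sum]
      refine Submodule.sum_mem _ fun j _ => ?_
      have h5 : incl V W (2 * k + 1) (x j ⊗ₜ b j) = (x j : ExteriorAlgebra ℂ V) ⊗ₜ b j := by
        rw [incl, TensorProduct.map_tmul]
        rfl
      rw [h5]
      refine tmul_mem_prodSpan₂ F G q (c j) k (b j) (hb j) _ (hmain _ (hc j) _ (x j).2 ?_)
      have h6 := congrArg (fun z : ⋀[ℂ]^(2 * k + 1) V => (z : ExteriorAlgebra ℂ V)) (h1 j)
      simp only [Submodule.coe_smul, coe_map] at h6
      have h7 := hE _ (hc j)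
      rw [div_eq_inv_mul, mul_smul, ← h6, smul_smul, inv_mul_cancel₀ h7, one_smul]
    · rw [SetLike.mem_coe, mem_eqLocus_smul, map_incl, hu, map_smul]

end Pool.Agent.W484.BB
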