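import Mathlib
import Pool.Agent.W484.BB.Tens
import Pool.Agent.W484.BB.LFun

/-!
# The order of vanishing and the rank
-/

set_option autoImplicit false
set_option linter.unusedSectionVars false

namespace Pool.Agent.W484.BB

open NumberField Module ExteriorAlgebra TensorProduct Pool.Agent.H194R3.CM

/-- The exterior power has a basis of eigenvectors. -/
theorem exists_eigenbasis_ext {V : Type*} [AddCommGroup V] [Module ℂ V] [FiniteDimensional ℂ V]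
    (F : V →ₗ[ℂ] V) (q : ℝ)
    (hF : Submodule.span ℂ {v : V | ∃ α : ℂ, ‖α‖ ^ 2 = q ∧ F v = α • v} = ⊤) (n : ℕ) :
    ∃ (r : ℕ) (b : Basis (Fin r) ℂ (⋀[ℂ]^n V)) (α : Fin r → ℂ), (∀ j, ‖α j‖ ^ 2 = q ^ n) ∧
      ∀ j, exteriorPower.map n F (b j) = α j • b j := by
  classical
  refine exists_eigenbasis (exteriorPower.map n F) {α | ‖α‖ ^ 2 = q ^ n} ?_
  rw [eq_top_iff, ← exteriorPower.ιMulti_span_of_span ℂ n V hF]
  refine Submodule.span_mono ?_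
  rintro _ ⟨a, ha, rfl⟩
  have h2 : ∀ j, ∃ α : ℂ, ‖α‖ ^ 2 = q ∧ F (a j) = α • a j := fun j => ha ⟨j, rfl⟩
  choose α hα hFa using h2
  refine ⟨∏ j, α j, ?_, ?_⟩
  · change ‖∏ j, α j‖ ^ 2 = q ^ n
    rw [norm_prod, ← Finset.prod_pow, Finset.prod_congr rfl (fun j _ => hα j),
      Finset.prod_const, Finset.card_univ, Fintype.card_fin]
  · rw [exteriorPower.map_apply_ιMulti]
    have h3 : F ∘ a = fun j => α j • a j := funext hFa
    rw [h3]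
    exact (exteriorPower.ιMulti ℂ n).map_smul_univ α a

theorem main (p : ℕ) [Fact p.Prime] (a : ℕ) (ha : 0 < a)
    {V : Type*} [AddCommGroup V] [Module ℂ V] [FiniteDimensional ℂ V] (F : V →ₗ[ℂ] V)
    (hF : Submodule.span ℂ {v : V | ∃ α : ℂ, ‖α‖ ^ 2 = (p : ℝ) ^ a ∧ F v = α • v} = ⊤)
    {W : Type*} [AddCommGroup W] [Module ℂ W] [FiniteDimensional ℂ W] (G : W →ₗ[ℂ] W)
    (hG : Submodule.span ℂ {w : W | ∃ ρ : ℂ, (IsIntegral ℤ ρ ∧ ‖ρ‖ ^ 2 = (p : ℝ) ^ a) ∧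
      G w = ρ • w} = ⊤)
    {P : Type*} (deg : P → ℕ) (hdeg : ∀ v, 0 < deg v)
    (hfin : ∀ m, 0 < m → {v | deg v ∣ m}.Finite)
    (hcount : ∀ m (hm : 0 < m), (∑ v ∈ (hfin m hm).toFinset, (deg v : ℂ)) =
      1 + ((p : ℂ) ^ a) ^ m - LinearMap.trace ℂ W (G ^ m))
    (k : ℕ)
    (hmain : ∀ ρ : ℂ, IsIntegral ℤ ρ → ‖ρ‖ ^ 2 = (p : ℝ) ^ a → ∀ x : ExteriorAlgebra ℂ V,
      x ∈ ⋀[ℂ]^(2 * k + 1) V →
      ExteriorAlgebra.map F x = (((p : ℂ) ^ a) ^ (k + 1) / ρ) • x →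
        x ∈ prodSpan F ((p : ℂ) ^ a) ρ k) :
    ∃ Λ : ℂ → ℂ, (∀ s, MeromorphicAt Λ s) ∧
      (∀ s : ℂ, (k : ℝ) + 1 + 1 / 2 < s.re →
        HasProd (fun v => (LinearMap.det (1 - (((p : ℂ) ^ a) ^ (-s)) ^ deg v •
          exteriorPower.map (2 * k + 1) F ^ deg v))⁻¹) (Λ s)) ∧
      meromorphicOrderAt Λ ((k : ℂ) + 1) =
        ((finrank ℂ (algebraicClasses F G ((p : ℂ) ^ a) k) : ℤ) : WithTop ℤ) := by
  classical
  have hq : (1 : ℝ) < (p : ℝ) ^ a :=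
    one_lt_pow₀ (by exact_mod_cast (Fact.out : p.Prime).one_lt) ha.ne'
  have hq0 : (0 : ℝ) < (p : ℝ) ^ a := by linarith
  have hcast : (((p : ℝ) ^ a : ℝ) : ℂ) = (p : ℂ) ^ a := by push_cast; rfl
  obtain ⟨r', b', α, hα, hb'⟩ := exists_eigenbasis_ext F _ hF (2 * k + 1)
  obtain ⟨r, b, c, hc, hb⟩ := exists_eigenbasis G
    {ρ : ℂ | IsIntegral ℤ ρ ∧ ‖ρ‖ ^ 2 = (p : ℝ) ^ a} hG
  have hcount' : ∀ m (hm : 0 < m), (∑ v ∈ (hfin m hm).toFinset, (deg v : ℂ)) =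
      1 + (((p : ℝ) ^ a : ℝ) : ℂ) ^ m - ∑ k, c k ^ m := by
    intro m hm
    rw [hcount m hm, trace_pow G b c hb, hcast]
  refine ⟨Lam ((p : ℝ) ^ a) c α, meromorphic_Lam _ hq0 c α, ?_, ?_⟩
  · intro s hs
    have h1 := hasProd_Lam deg hdeg hfin c _ hq (fun k => (hc k).2) hcount' α (2 * k + 1) hα s
      (by push_cast; linarith)
    convert h1 using 2 with v
    rw [det_one_sub (exteriorPower.map (2 * k + 1) F) b' α hb', hcast]
  · have h2 := order_Lam ((p : ℝ) ^ a) hq c α (k + 1) (by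
      intro j
      rw [hα j, ← pow_succ]
      congr 1)
    have h3 : (((k + 1 : ℕ) : ℕ) : ℂ) = (k : ℂ) + 1 := by push_cast; rfl
    rw [h3, hcast] at h2
    rw [h2, algebraicClasses_eq F G ((p : ℂ) ^ a) k
      {ρ : ℂ | IsIntegral ℤ ρ ∧ ‖ρ‖ ^ 2 = (p : ℝ) ^ a} (by
        rintro ρ ⟨_, h4⟩ rfl
        rw [norm_zero] at h4
        norm_num at h4
        exact hq0.ne h4) hG (fun ρ hρ x hx hFx => hmain ρ hρ.1 hρ.2 x hx hFx)]
    have h5 : finrank ℂ ((tate F G (2 * k + 1) (((p : ℂ) ^ a) ^ (k + 1))).map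
        (incl V W (2 * k + 1))) = finrank ℂ (tate F G (2 * k + 1) (((p : ℂ) ^ a) ^ (k + 1))) :=
      (LinearEquiv.finrank_eq (Submodule.equivMapOfInjective _ (incl_injective _) _)).symm
    have h6 : finrank ℂ (tate F G (2 * k + 1) (((p : ℂ) ^ a) ^ (k + 1))) =
        Nat.card {z : Fin r' × Fin r // c z.2 * α z.1 = ((p : ℂ) ^ a) ^ (k + 1)} :=
      finrank_tensor (exteriorPower.map (2 * k + 1) F) b' α hb' G b c hb _
    rw [h5, h6]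

end Pool.Agent.W484.BB
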