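import Mathlib
import Pool.Agent.W484.BB.Small
import Pool.Agent.W484.BB.Main

/-!
# Function fields of small genus
-/

set_option autoImplicit false
set_option linter.unusedSectionVars false

namespace Pool.Agent.W484.BB

open NumberField Module Pool.Agent.H925R2 Pool.Agent.H485R3 Pool.Agent.H204R3.CM
  Pool.Agent.H868R3.TwoOdd Pool.Agent.H194R3.CM Pool.Agent.H194R3.Tate IntermediateField
  ExteriorAlgebra TensorProduct

variable {I : Type} (p : ℕ) [Fact p.Prime] {K : I → Type} [∀ i, Field (K i)]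
  [∀ i, NumberField (K i)] [∀ i, IsCMField (K i)]

theorem no_list [Finite I] (a : ℕ) (π : ∀ i, K i)
    (hweil : ∀ i, ∀ φ : K i →+* ℂ, ‖φ (π i)‖ ^ 2 = (p : ℝ) ^ a)
    (hflip : ∀ x y : Σ i, (K i →+* ℂ), y ≠ x → y ≠ bar x → Flipped x y)
    (hns : ∀ i, ∃ τ : K i →+* PadicAlgCl p, dev p ((p : ℚ) ^ a) (τ (π i)) ≠ 0)
    (ρ : ℂ) (hρ : IsIntegral ℤ ρ) (hρn : ‖ρ‖ ^ 2 = (p : ℝ) ^ a)
    (hsmall : ∀ i, (minpoly ℚ ρ).natDegree < finrank ℚ (K i)) (s : ℕ) (hs : 0 < s) :
    ∀ (k : ℕ) (ys : List (Σ i, (K i →+* ℂ))), ys.length = 2 * k + 1 →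
      ((ys.map (fun x => x.2 (π x.1))).prod * ρ) ^ s ≠ (((p : ℂ) ^ a) ^ (k + 1)) ^ s := by
  intro k
  have hq0 : ((p : ℂ) ^ a) ≠ 0 := by
    have : (p : ℂ) ≠ 0 := by exact_mod_cast (Fact.out : p.Prime).ne_zero
    exact pow_ne_zero _ this
  induction k with
  | zero =>
    intro ys hlen hrel
    obtain ⟨y, rfl⟩ := List.length_eq_one_iff.1 hlen
    obtain ⟨i, hi⟩ := deg_bound p a π hweil hflip hns ρ hρ hρn one_pos (fun _ => y)
      (fun _ _ => (bar_ne y).symm) s hs (by
        rw [Fin.prod_univ_one, mul_comm 2 s, pow_mul]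
        simp only [List.map_cons, List.map_nil, List.prod_cons, List.prod_nil, mul_one] at hrel
        rw [hrel]
        ring)
    have := hsmall i
    omega
  | succ k ih =>
    intro ys hlen hrel
    by_cases hpw : ys.Pairwise (fun x x' => x' ≠ bar x)
    · have hx : ∀ l m : Fin ys.length, ys.get m ≠ bar (ys.get l) := by
        rw [List.pairwise_iff_get] at hpw
        intro l m
        rcases lt_trichotomy l m with h | h | h
        · exact hpw l m h
        · rw [h]
          exact (bar_ne _).symm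
        · intro h1
          apply hpw m l h
          rw [h1, bar_bar]
      have hxprod : ∏ l : Fin ys.length, (ys.get l).2 (π (ys.get l).1) =
          (ys.map (fun x => x.2 (π x.1))).prod := by
        rw [← List.prod_ofFn]
        congr 1
        apply List.ext_getElem
        · simp
        · intro i h1 h2
          simp
      obtain ⟨i, hi⟩ := deg_bound p a π hweil hflip hns ρ hρ hρn (by omega)
        (fun l => ys.get l) hx s hs (by
          rw [hxprod, mul_comm 2 s, pow_mul, hrel, hlen]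
          generalize (p : ℂ) ^ a = Q
          rw [← pow_mul, ← pow_mul]
          congr 1
          ring)
      have := hsmall i
      omega
    · obtain ⟨y, y', ys', hperm, hy⟩ := exists_of_not_pairwise _ ys hpw
      rw [not_not] at hy
      refine ih ys' ?_ ?_
      · have h2 := hperm.length_eq
        rw [List.length_cons, List.length_cons, hlen] at h2
        omega
      · have h3 : (ys.map (fun x => x.2 (π x.1))).prod =
            (p : ℂ) ^ a * (ys'.map (fun x => x.2 (π x.1))).prod := by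
          rw [(hperm.map (fun x => x.2 (π x.1))).prod_eq, List.map_cons, List.prod_cons,
            List.map_cons, List.prod_cons, ← mul_assoc, hy, val_bar p a π hweil y]
        rw [h3] at hrel
        generalize (p : ℂ) ^ a = Q at hq0 hrel ⊢
        have h4 : (Q * (ys'.map (fun x => x.2 (π x.1))).prod * ρ) ^ s =
            Q ^ s * ((ys'.map (fun x => x.2 (π x.1))).prod * ρ) ^ s := by
          rw [mul_assoc, mul_pow]
        have h5 : (Q ^ (k + 1 + 1)) ^ s = Q ^ s * (Q ^ (k + 1)) ^ s := by ring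
        rw [h4, h5] at hrel
        exact mul_left_cancel₀ (pow_ne_zero _ hq0) hrel

theorem eq_zero_of_tensor {U W : Type*} [AddCommGroup U] [Module ℂ U] [AddCommGroup W]
    [Module ℂ W] {r r' : ℕ} (T : U →ₗ[ℂ] U) (b' : Basis (Fin r') ℂ U) (α : Fin r' → ℂ)
    (hb' : ∀ j, T (b' j) = α j • b' j) (G : W →ₗ[ℂ] W) (b : Basis (Fin r) ℂ W) (c : Fin r → ℂ)
    (hb : ∀ j, G (b j) = c j • b j) (μ : ℂ) (h : ∀ j k, c k * α j ≠ μ) (u : U ⊗[ℂ] W)
    (hu : TensorProduct.map T G u = μ • u) : u = 0 := by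
  have h1 := finrank_tensor T b' α hb' G b c hb μ
  have h2 : Nat.card {z : Fin r' × Fin r // c z.2 * α z.1 = μ} = 0 := by
    rw [Nat.card_eq_zero]
    left
    constructor
    rintro ⟨z, hz⟩
    exact h z.1 z.2 hz
  rw [h2] at h1
  have h3 : FiniteDimensional ℂ (U ⊗[ℂ] W) := Module.Finite.of_basis (b'.tensorProduct b)
  have h4 := Submodule.finrank_eq_zero.1 h1
  have h5 : u ∈ LinearMap.eqLocus (TensorProduct.map T G) (μ • LinearMap.id) := by
    rw [LinearMap.mem_eqLocus]
    exact hu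
  rw [h4] at h5
  exact (Submodule.mem_bot ℂ).1 h5

/-- The exterior power has a basis of eigenvectors, whose eigenvalues are products. -/
theorem exists_eigenbasis_list {V : Type*} [AddCommGroup V] [Module ℂ V] [FiniteDimensional ℂ V]
    (F : V →ₗ[ℂ] V) {X : Type*} (val : X → ℂ)
    (hF : Submodule.span ℂ {v : V | ∃ x, F v = val x • v} = ⊤) (n : ℕ) :
    ∃ (r : ℕ) (b : Basis (Fin r) ℂ (⋀[ℂ]^n V)) (α : Fin r → ℂ),
      (∀ j, ∃ L : List X, L.length = n ∧ α j = (L.map val).prod) ∧
      ∀ j, exteriorPower.map n F (b j) = α j • b j := by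
  classical
  refine exists_eigenbasis (exteriorPower.map n F)
    {α | ∃ L : List X, L.length = n ∧ α = (L.map val).prod} ?_
  rw [eq_top_iff, ← exteriorPower.ιMulti_span_of_span ℂ n V hF]
  refine Submodule.span_mono ?_
  rintro _ ⟨a, ha, rfl⟩
  have h2 : ∀ j, ∃ x, F (a j) = val x • a j := fun j => ha ⟨j, rfl⟩
  choose x hFa using h2
  refine ⟨∏ j, val (x j), ⟨List.ofFn x, by simp, ?_⟩, ?_⟩
  · rw [List.map_ofFn, List.prod_ofFn]
    rfl
  · rw [exteriorPower.map_apply_ιMulti]
    have h3 : F ∘ a = fun j => val (x j) • a j := funext hFa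
    rw [h3]
    exact (exteriorPower.ιMulti ℂ n).map_smul_univ (fun j => val (x j)) a

theorem integral_of_charpoly {W : Type*} [AddCommGroup W] [Module ℂ W] [FiniteDimensional ℂ W]
    (G : W →ₗ[ℂ] W) (f : Polynomial ℤ) (hf : G.charpoly = f.map (Int.castRingHom ℂ))
    (w : W) (hw : w ≠ 0) (ρ : ℂ) (h : G w = ρ • w) :
    IsIntegral ℤ ρ ∧ (minpoly ℚ ρ).natDegree ≤ finrank ℂ W := by
  have hmonic : f.Monic := by
    have h1 := G.charpoly_monic
    rw [hf] at h1
    exact Polynomial.monic_of_injective (Int.castRingHom ℂ).injective_int h1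
  have hroot : (f.map (Int.castRingHom ℂ)).IsRoot ρ := by
    rw [← hf, ← Module.End.hasEigenvalue_iff_isRoot_charpoly]
    exact Module.End.hasEigenvalue_of_hasEigenvector ⟨Module.End.mem_eigenspace_iff.2 h, hw⟩
  have hroot' : Polynomial.aeval ρ f = 0 := by
    rw [Polynomial.IsRoot.def, Polynomial.eval_map] at hroot
    rw [Polynomial.aeval_def]
    exact hroot
  refine ⟨⟨f, hmonic, hroot'⟩, ?_⟩
  have h2 : minpoly ℚ ρ ∣ f.map (Int.castRingHom ℚ) := by
    apply minpoly.dvd
    rw [Polynomial.aeval_def, Polynomial.eval₂_map]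
    rw [Polynomial.aeval_def] at hroot'
    rw [RingHom.ext_int ((algebraMap ℚ ℂ).comp (Int.castRingHom ℚ)) (algebraMap ℤ ℂ)]
    exact hroot'
  have h3 := Polynomial.natDegree_le_of_dvd h2 (hmonic.map _).ne_zero
  rw [hmonic.natDegree_map] at h3
  have h4 : f.natDegree = finrank ℂ W := by
    rw [← G.charpoly_natDegree, hf, hmonic.natDegree_map]
  omega

end Pool.Agent.W484.BB
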