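import Mathlib
import Pool.Agent.W484.BB.Three2

/-!
# Three Weil numbers without pairs: the Weil type
-/

set_option autoImplicit false
set_option linter.unusedSectionVars false

namespace Pool.Agent.W484.BB

open Polynomial Pool.Agent.H925R2 Pool.Agent.H485R3 Pool.Agent.H194R3.CM

variable (p : ℕ) [Fact p.Prime]

theorem norm_prime_pow_other (l : ℕ) [Fact l.Prime] (hl : l ≠ p) (a : ℕ) :
    ‖(((p : ℚ) ^ a : ℚ) : PadicAlgCl l)‖ = 1 := by
  have h1 : ((((p : ℚ) ^ a : ℚ)) : PadicAlgCl l) =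
      (algebraMap ℚ_[l] (PadicAlgCl l)) ((p : ℚ_[l]) ^ a) := by
    push_cast
    simp
  have h2 : ‖((p : ℕ) : ℚ_[l])‖ = 1 := by
    rw [Padic.norm_natCast_eq_one_iff]
    exact (Nat.coprime_primes (Fact.out) (Fact.out)).2 hl
  rw [h1, PadicAlgCl.norm_extends, norm_pow, h2, one_pow]

/-- Two Weil numbers whose deviations cancel at all places. -/
theorem good_of_dev (a : ℕ) {L : Type*} [Field L] [NumberField L] [IsGalois ℚ L] (x z : L)
    (hx0 : x ≠ 0) (hz0 : z ≠ 0) (hx : IsIntegral ℤ x) (hz : IsIntegral ℤ z)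
    (hxn : ∀ φ : L →+* ℂ, ‖φ x‖ ^ 2 = (p : ℝ) ^ a) (hzn : ∀ φ : L →+* ℂ, ‖φ z‖ ^ 2 = (p : ℝ) ^ a)
    (h : ∀ e : L →ₐ[ℚ] PadicAlgCl p,
      dev p ((p : ℚ) ^ a) (e x) + dev p ((p : ℚ) ^ a) (e z) = 0) :
    ∃ N : ℕ, 0 < N ∧ (x * z) ^ N = (((p : ℚ) ^ a : ℚ) : L) ^ N := by
  have hp0 : (0 : ℝ) < (p : ℝ) ^ a := pow_pos (by exact_mod_cast (Fact.out : p.Prime).pos) _
  have hq : ((p : ℚ) ^ a : ℚ) ≠ 0 := (pow_pos (by exact_mod_cast (Fact.out : p.Prime).pos) _).ne'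
  have hQ : (((p : ℚ) ^ a : ℚ) : L) ≠ 0 := by exact_mod_cast hq
  have hint : IsIntegral ℤ (x * z / (((p : ℚ) ^ a : ℚ) : L)) := by
    refine isIntegral_of_norm_le _ ?_
    intro l _ e
    have h1 : ‖e (x * z)‖ ≤ 1 :=
      norm_le_one_of_isIntegral l _ ((hx.mul hz).map (e.restrictScalars ℤ))
    rw [map_div₀, map_ratCast, norm_div]
    by_cases hl : l = p
    · subst hl
      have h2 := h e
      unfold dev at h2
      have hex : 0 < ‖e x‖ := norm_pos_iff.2 ((_root_.map_ne_zero _).2 hx0)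
      have hez : 0 < ‖e z‖ := norm_pos_iff.2 ((_root_.map_ne_zero _).2 hz0)
      have hqn : 0 < ‖(((l : ℚ) ^ a : ℚ) : PadicAlgCl l)‖ := by
        rw [norm_pow_cast]
        positivity
      have h3 : Real.log (‖e x‖ * ‖e z‖) = Real.log ‖(((l : ℚ) ^ a : ℚ) : PadicAlgCl l)‖ := by
        rw [Real.log_mul hex.ne' hez.ne']
        linarith
      have h4 : ‖e x‖ * ‖e z‖ = ‖(((l : ℚ) ^ a : ℚ) : PadicAlgCl l)‖ :=
        Real.log_injOn_pos (Set.mem_Ioi.2 (mul_pos hex hez)) (Set.mem_Ioi.2 hqn) h3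
      rw [map_mul, norm_mul, h4, div_self hqn.ne']
    · rw [norm_prime_pow_other p l hl, div_one]
      exact h1
  obtain ⟨N, hN, h5⟩ := pow_eq_one_of_norm _ hint (by
    intro φ
    have h6 : ‖φ x‖ ^ 2 = (p : ℝ) ^ a := hxn φ
    have h7 : ‖φ z‖ ^ 2 = (p : ℝ) ^ a := hzn φ
    have h8 : ‖φ x‖ * ‖φ z‖ = (p : ℝ) ^ a := by
      have h9 : (‖φ x‖ * ‖φ z‖) ^ 2 = ((p : ℝ) ^ a) ^ 2 := by
        rw [mul_pow, h6, h7, pow_two]
      exact (pow_left_inj₀ (by positivity) hp0.le two_ne_zero).1 h9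
    rw [map_div₀, map_mul, map_ratCast, norm_div, norm_mul, h8]
    push_cast
    rw [norm_pow, Complex.norm_natCast, div_self hp0.ne'])
  refine ⟨N, hN, ?_⟩
  rw [div_pow, div_eq_one_iff_eq (pow_ne_zero _ hQ)] at h5
  exact h5

/-- **The Galois group acts on the half system through complex conjugation.** -/
theorem weil_or_good (a : ℕ) {L : Type*} [Field L] [NumberField L] [IsGalois ℚ L]
    (y : Fin 3 → L) (hy0 : ∀ j, y j ≠ 0) (hy : ∀ j, IsIntegral ℤ (y j))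
    (hy' : ∀ j, IsIntegral ℤ ((((p : ℚ) ^ a : ℚ) : L) / y j))
    (hyn : ∀ j, ∀ φ : L →+* ℂ, ‖φ (y j)‖ ^ 2 = (p : ℝ) ^ a) (ha : 0 < a)
    (f : ℤ[X]) (hf : f.map (Int.castRingHom L) =
      ∏ j, (X ^ 2 - C (y j + (((p : ℚ) ^ a : ℚ) : L) / y j) * X + C (((p : ℚ) ^ a : ℚ) : L)))
    (hrank : ¬ (p : ℤ) ∣ f.coeff 4 ∨ ¬ (p : ℤ) ∣ f.coeff 3)
    (r : L) (hr0 : r ≠ 0) (hr : IsIntegral ℤ r) (hr' : IsIntegral ℤ ((((p : ℚ) ^ a : ℚ) : L) / r))
    (M : ℕ) (hM : 0 < M)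
    (hrel : ((∏ j, y j) * r) ^ (2 * M) = (((p : ℚ) ^ a : ℚ) : L) ^ (M * 4))
    (hgood : ∀ i j, i ≠ j → ¬ ∃ N : ℕ, 0 < N ∧ (y i * y j) ^ N = (((p : ℚ) ^ a : ℚ) : L) ^ N)
    (τ : L ≃ₐ[ℚ] L) :
    ((∀ g : L → L[X], (∏ j, g (τ (y j))) = ∏ j, g (y j)) ∨
      (∀ g : L → L[X], (∏ j, g (τ (y j))) = ∏ j, g ((((p : ℚ) ^ a : ℚ) : L) / y j))) ∧
    ∀ k, y k * y k ≠ (((p : ℚ) ^ a : ℚ) : L) := by
  classical
  have hq : ((p : ℚ) ^ a : ℚ) ≠ 0 := (pow_pos (by exact_mod_cast (Fact.out : p.Prime).pos) _).ne'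
  have hQ : (((p : ℚ) ^ a : ℚ) : L) ≠ 0 := by exact_mod_cast hq
  obtain ⟨Q, hQdef⟩ : ∃ Q : L, Q = (((p : ℚ) ^ a : ℚ) : L) := ⟨_, rfl⟩
  rw [← hQdef] at hQ hf hr' hrel hgood ⊢
  have hτQ : τ Q = Q := by rw [hQdef, map_ratCast]
  let u : (L →ₐ[ℚ] PadicAlgCl p) → Fin 3 → ℝ := fun e j => dev p ((p : ℚ) ^ a) (e (y j))
  have heQ : ∀ e : L →ₐ[ℚ] PadicAlgCl p, e Q = (((p : ℚ) ^ a : ℚ) : PadicAlgCl p) := by
    intro e
    rw [hQdef, map_ratCast]
  -- the sum of the deviations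
  have hbound : ∀ e : L →ₐ[ℚ] PadicAlgCl p, |∑ j, u e j| ≤ Real.log ((p : ℝ) ^ a) := by
    intro e
    have h1 := congrArg (fun z => Real.log ‖e z‖) hrel
    simp only [map_pow, map_mul, map_prod, norm_pow, norm_mul, norm_prod, Real.log_pow, heQ] at h1
    have hne : ∀ k, ‖e (y k)‖ ≠ 0 := by
      intro k
      rw [norm_ne_zero_iff, Ne, map_eq_zero]
      exact hy0 k
    have hner : ‖e r‖ ≠ 0 := by
      rw [norm_ne_zero_iff, Ne, map_eq_zero]
      exact hr0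
    rw [Real.log_mul (Finset.prod_ne_zero_iff.2 fun k _ => hne k) hner,
      Real.log_prod (fun k _ => hne k)] at h1
    have h2 : ∑ j, u e j = - dev p ((p : ℚ) ^ a) (e r) := by
      simp only [u]
      unfold dev
      rw [Finset.sum_sub_distrib, Finset.sum_const, Finset.card_univ, Fintype.card_fin,
        nsmul_eq_mul, ← Finset.mul_sum]
      have hM' : (M : ℝ) ≠ 0 := by exact_mod_cast hM.ne'
      apply mul_left_cancel₀ hM'
      push_cast at h1 ⊢
      linarith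
    rw [h2, abs_neg]
    refine abs_dev_le p a _ ((_root_.map_ne_zero _).2 hr0) (hr.map (e.restrictScalars ℤ)) ?_
    have h4 := hr'.map (e.restrictScalars ℤ)
    have h5 : (e.restrictScalars ℤ) (Q / r) = (((p : ℚ) ^ a : ℚ) : PadicAlgCl p) / e r := by
      change e (Q / r) = _
      rw [map_div₀, heQ]
    rw [h5] at h4
    exact h4
  have htwo : ∀ e : L →ₐ[ℚ] PadicAlgCl p, ∃ i j, i ≠ j ∧ |u e i| = Real.log ((p : ℝ) ^ a) ∧
      |u e j| = Real.log ((p : ℝ) ^ a) := by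
    intro e
    have hy1 : ∀ j, ‖e (y j)‖ ≤ 1 := fun j =>
      norm_le_one_of_isIntegral p _ ((hy j).map (e.restrictScalars ℤ))
    have hy2 : ∀ j, ‖(((p : ℚ) ^ a : ℚ) : PadicAlgCl p) / e (y j)‖ ≤ 1 := by
      intro j
      have h4 := norm_le_one_of_isIntegral p _ ((hy' j).map (e.restrictScalars ℤ))
      have h5 : (e.restrictScalars ℤ) ((((p : ℚ) ^ a : ℚ) : L) / y j) =
          (((p : ℚ) ^ a : ℚ) : PadicAlgCl p) / e (y j) := by
        change e ((((p : ℚ) ^ a : ℚ) : L) / y j) = _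
        rw [map_div₀, map_ratCast]
      rw [h5] at h4
      exact h4
    obtain ⟨i, j, hij, hi, hj⟩ := two_units p f
      (fun j => e (y j) + (((p : ℚ) ^ a : ℚ) : PadicAlgCl p) / e (y j))
      (((p : ℚ) ^ a : ℚ) : PadicAlgCl p)
      (fun j => (IsUltrametricDist.norm_add_le_max _ _).trans (max_le (hy1 j) (hy2 j)))
      (by
        rw [norm_pow_cast]
        exact inv_lt_one_of_one_lt₀ (one_lt_pow₀
          (by exact_mod_cast (Fact.out : p.Prime).one_lt) ha.ne'))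
      (by
        have h6 := congrArg (Polynomial.map (e : L →+* PadicAlgCl p)) hf
        rw [Polynomial.map_map, Polynomial.map_prod] at h6
        rw [RingHom.ext_int (Int.castRingHom (PadicAlgCl p))
          ((e : L →+* PadicAlgCl p).comp (Int.castRingHom L)), h6]
        refine Finset.prod_congr rfl fun j _ => ?_
        simp only [Polynomial.map_add, Polynomial.map_sub, Polynomial.map_mul, Polynomial.map_pow,
          Polynomial.map_X, Polynomial.map_C, RingHom.coe_coe, map_add, map_div₀, heQ])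
      hrank
    exact ⟨i, j, hij, abs_dev_eq p a _ ((_root_.map_ne_zero _).2 (hy0 i)) (hy1 i) (hy2 i) hi,
      abs_dev_eq p a _ ((_root_.map_ne_zero _).2 (hy0 j)) (hy1 j) (hy2 j) hj⟩
  -- no mixed signs
  have hmixed : ∀ k : Fin 3, ¬ ∀ e : L →ₐ[ℚ] PadicAlgCl p,
      |∑ j, u e j - 2 * u e k| ≤ Real.log ((p : ℝ) ^ a) := by
    intro k hk
    have h1 : ∀ e : L →ₐ[ℚ] PadicAlgCl p, ∑ j, u e j - u e k = 0 := fun e =>
      sum_eq_zero_of_bounds (u e) _ (hbound e) k (hk e) (htwo e)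
    obtain ⟨i, j, hij, h2⟩ : ∃ i j, i ≠ j ∧ ∀ v : Fin 3 → ℝ, ∑ l, v l - v k = v i + v j := by
      fin_cases k
      · exact ⟨1, 2, by decide, fun v => by rw [Fin.sum_univ_three]; simp; ring⟩
      · exact ⟨0, 2, by decide, fun v => by rw [Fin.sum_univ_three]; simp; ring⟩
      · exact ⟨0, 1, by decide, fun v => by rw [Fin.sum_univ_three]; simp⟩
    apply hgood i j hij
    rw [hQdef]
    exact good_of_dev p a (y i) (y j) (hy0 i) (hy0 j) (hy i) (hy j) (hyn i) (hyn j)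
      (fun e => by rw [← h2 (u e)]; exact h1 e)
  refine ⟨?_, ?_⟩
  swap
  · intro k hk
    apply hmixed k
    intro e
    have h1 : u e k = 0 := by
      have h2 := congrArg (fun z => Real.log ‖e z‖) hk
      simp only [map_mul, norm_mul, heQ] at h2
      have h3 : ‖e (y k)‖ ≠ 0 := by
        rw [norm_ne_zero_iff, Ne, map_eq_zero]
        exact hy0 k
      rw [Real.log_mul h3 h3] at h2
      simp only [u]
      unfold dev
      linarith
    rw [h1, mul_zero, sub_zero]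
    exact hbound e
  -- the permutation
  obtain ⟨σ, hσ⟩ := exists_perm_of_prod (fun j => τ (y j + Q / y j)) (fun j => y j + Q / y j) Q (by
    have h6 := congrArg (Polynomial.map (τ : L →+* L)) hf
    rw [Polynomial.map_map, Polynomial.map_prod,
      RingHom.ext_int ((τ : L →+* L).comp (Int.castRingHom L)) (Int.castRingHom L), hf] at h6
    rw [h6]
    refine Finset.prod_congr rfl fun j _ => ?_
    simp only [Polynomial.map_add, Polynomial.map_sub, Polynomial.map_mul, Polynomial.map_pow,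
      Polynomial.map_X, Polynomial.map_C, RingHom.coe_coe]
    rw [hτQ])
  have hε : ∀ j, τ (y j) = y (σ j) ∨ τ (y j) = Q / y (σ j) := by
    intro j
    have h1 := hσ j
    beta_reduce at h1
    rw [map_add, map_div₀, hτQ] at h1
    have h2 : τ (y j) ≠ 0 := (_root_.map_ne_zero _).2 (hy0 j)
    have h3 := hy0 (σ j)
    have h4 : (τ (y j) - y (σ j)) * (τ (y j) - Q / y (σ j)) = 0 := by
      have h5 : Q / y (σ j) = τ (y j) + Q / τ (y j) - y (σ j) := by
        rw [h1]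
        ring
      have h6 : y (σ j) * (Q / y (σ j)) = Q := by field_simp
      have h7 : τ (y j) * (Q / τ (y j)) = Q := by field_simp
      calc (τ (y j) - y (σ j)) * (τ (y j) - Q / y (σ j)) =
          τ (y j) * (τ (y j) - (y (σ j) + Q / y (σ j))) + y (σ j) * (Q / y (σ j)) := by ring
        _ = 0 := by
          rw [h6, ← h1]
          linear_combination -h7
    rcases mul_eq_zero.1 h4 with h5 | h5
    · exact Or.inl (sub_eq_zero.1 h5)
    · exact Or.inr (sub_eq_zero.1 h5)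
  -- the deviations of the translates
  have hdev : ∀ (e : L →ₐ[ℚ] PadicAlgCl p) j, u (e.comp (τ : L →ₐ[ℚ] L)) j =
      dev p ((p : ℚ) ^ a) (e (τ (y j))) := fun e j => rfl
  have hdev1 : ∀ (e : L →ₐ[ℚ] PadicAlgCl p) j, τ (y j) = y (σ j) →
      u (e.comp (τ : L →ₐ[ℚ] L)) j = u e (σ j) := by
    intro e j h1
    rw [hdev, h1]
  have hdev2 : ∀ (e : L →ₐ[ℚ] PadicAlgCl p) j, τ (y j) = Q / y (σ j) →
      u (e.comp (τ : L →ₐ[ℚ] L)) j = - u e (σ j) := by
    intro e j h1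
    rw [hdev, h1, map_div₀, heQ, dev_inv p hq _ ((_root_.map_ne_zero _).2 (hy0 _))]
  have hsumσ : ∀ e : L →ₐ[ℚ] PadicAlgCl p, u e (σ 0) + u e (σ 1) + u e (σ 2) = ∑ j, u e j := by
    intro e
    rw [← Equiv.sum_comp σ (u e), Fin.sum_univ_three]
  have hmix2 : ∀ j : Fin 3, ¬ ((∀ e : L →ₐ[ℚ] PadicAlgCl p,
      ∑ k, u (e.comp (τ : L →ₐ[ℚ] L)) k = ∑ k, u e k - 2 * u e (σ j)) ∨
      (∀ e : L →ₐ[ℚ] PadicAlgCl p,
      ∑ k, u (e.comp (τ : L →ₐ[ℚ] L)) k = - (∑ k, u e k - 2 * u e (σ j)))) := by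
    rintro j (h | h)
    · apply hmixed (σ j)
      intro e
      rw [← h e]
      exact hbound _
    · apply hmixed (σ j)
      intro e
      rw [← abs_neg, ← h e]
      exact hbound _
  rcases hε 0 with h0 | h0 <;> rcases hε 1 with h1 | h1 <;> rcases hε 2 with h2 | h2
  · left
    intro g
    rw [← Equiv.prod_comp σ (fun j => g (y j)), Fin.prod_univ_three, Fin.prod_univ_three,
      h0, h1, h2]
  · exfalso
    apply hmix2 2
    left
    intro e
    rw [Fin.sum_univ_three, hdev1 e 0 h0, hdev1 e 1 h1, hdev2 e 2 h2, ← hsumσ e]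
    ring
  · exfalso
    apply hmix2 1
    left
    intro e
    rw [Fin.sum_univ_three, hdev1 e 0 h0, hdev2 e 1 h1, hdev1 e 2 h2, ← hsumσ e]
    ring
  · exfalso
    apply hmix2 0
    right
    intro e
    rw [Fin.sum_univ_three, hdev1 e 0 h0, hdev2 e 1 h1, hdev2 e 2 h2, ← hsumσ e]
    ring
  · exfalso
    apply hmix2 0
    left
    intro e
    rw [Fin.sum_univ_three, hdev2 e 0 h0, hdev1 e 1 h1, hdev1 e 2 h2, ← hsumσ e]
    ring
  · exfalso
    apply hmix2 1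
    right
    intro e
    rw [Fin.sum_univ_three, hdev2 e 0 h0, hdev1 e 1 h1, hdev2 e 2 h2, ← hsumσ e]
    ring
  · exfalso
    apply hmix2 2
    right
    intro e
    rw [Fin.sum_univ_three, hdev2 e 0 h0, hdev2 e 1 h1, hdev1 e 2 h2, ← hsumσ e]
    ring
  · right
    intro g
    rw [← Equiv.prod_comp σ (fun j => g (Q / y j)), Fin.prod_univ_three, Fin.prod_univ_three,
      h0, h1, h2]

end Pool.Agent.W484.BB
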