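import Mathlib
import Pool.Agent.W484.BB.Three3

/-!
# The imaginary quadratic field
-/

set_option autoImplicit false
set_option linter.unusedSectionVars false

namespace Pool.Agent.W484.BB

open Polynomial Pool.Agent.H925R2 Pool.Agent.H485R3 Pool.Agent.H194R3.CM IntermediateField Module

theorem exists_quadratic {L : Type*} [Field L] [NumberField L] [IsGalois ℚ L] (j : L →+* ℂ)
    (y : Fin 3 → L) (Q : L)
    (hτ : ∀ τ : L ≃ₐ[ℚ] L, (∀ g : L → L[X], (∏ l, g (τ (y l))) = ∏ l, g (y l)) ∨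
      (∀ g : L → L[X], (∏ l, g (τ (y l))) = ∏ l, g (Q / y l)))
    (hne : (∏ l, (X - C (y l))) ≠ ∏ l, (X - C (Q / y l)))
    (c : L ≃ₐ[ℚ] L) (hc : ∀ z, j (c z) = (starRingEnd ℂ) (j z)) (hcy : ∀ l, c (y l) = Q / y l) :
    ∃ E : IntermediateField ℚ ℂ, finrank ℚ E = 2 ∧ (∃ z ∈ E, (starRingEnd ℂ) z ≠ z) ∧
      ∀ n, (∏ l, (X - C (j (y l)))).coeff n ∈ E := by
  obtain ⟨P, hP⟩ : ∃ P : L[X], P = ∏ l, (X - C (y l)) := ⟨_, rfl⟩
  obtain ⟨P', hP'⟩ : ∃ P' : L[X], P' = ∏ l, (X - C (Q / y l)) := ⟨_, rfl⟩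
  rw [← hP, ← hP'] at hne
  have hmap : ∀ τ : L ≃ₐ[ℚ] L, P.map (τ : L →+* L) = ∏ l, (X - C (τ (y l))) := by
    intro τ
    rw [hP, Polynomial.map_prod]
    refine Finset.prod_congr rfl fun l _ => ?_
    simp
  have hτP : ∀ τ : L ≃ₐ[ℚ] L, P.map (τ : L →+* L) = P ∨ P.map (τ : L →+* L) = P' := by
    intro τ
    rw [hmap]
    rcases hτ τ with h | h
    · left
      rw [h (fun z => X - C z), hP]
    · right
      rw [h (fun z => X - C z), hP']
  have hcP : P.map (c : L →+* L) = P' := by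
    rw [hmap, hP']
    exact Finset.prod_congr rfl fun l _ => by rw [hcy]
  have hτP' : ∀ τ : L ≃ₐ[ℚ] L, P'.map (τ : L →+* L) = P ∨ P'.map (τ : L →+* L) = P' := by
    intro τ
    rw [← hcP, Polynomial.map_map]
    have := hτP (τ * c)
    rw [hcP]
    exact this
  have hboth : ∀ τ : L ≃ₐ[ℚ] L, (P.map (τ : L →+* L) = P ∧ P'.map (τ : L →+* L) = P') ∨
      (P.map (τ : L →+* L) = P' ∧ P'.map (τ : L →+* L) = P) := by
    intro τ
    have hinj : Function.Injective (Polynomial.map (τ : L →+* L)) :=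
      Polynomial.map_injective _ (τ : L →+* L).injective
    rcases hτP τ with h | h <;> rcases hτP' τ with h' | h'
    · exact absurd (hinj (h.trans h'.symm)) hne
    · exact Or.inl ⟨h, h'⟩
    · exact Or.inr ⟨h, h'⟩
    · exact absurd (hinj (h.trans h'.symm)) hne
  obtain ⟨n₀, hn₀⟩ : ∃ n, P.coeff n ≠ P'.coeff n := by
    by_contra hno
    push Not at hno
    exact hne (Polynomial.ext hno)
  have hcoef : ∀ τ : L ≃ₐ[ℚ] L, (∀ n, τ (P.coeff n) = P.coeff n ∧ τ (P'.coeff n) = P'.coeff n) ∨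
      (∀ n, τ (P.coeff n) = P'.coeff n ∧ τ (P'.coeff n) = P.coeff n) := by
    intro τ
    have hco : ∀ (R : L[X]) n, τ (R.coeff n) = (R.map (τ : L →+* L)).coeff n := by
      intro R n
      rw [Polynomial.coeff_map]
      rfl
    rcases hboth τ with ⟨h, h'⟩ | ⟨h, h'⟩
    · exact Or.inl fun n => ⟨by rw [hco, h], by rw [hco, h']⟩
    · exact Or.inr fun n => ⟨by rw [hco, h], by rw [hco, h']⟩
  have hfix : ∀ x : L, (∀ τ : L ≃ₐ[ℚ] L, τ x = x) → ∃ t : ℚ, algebraMap ℚ L t = x := by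
    intro x hx
    have h1 : x ∈ (⊥ : IntermediateField ℚ L) := by
      rw [IsGalois.mem_bot_iff_fixed]
      exact hx
    exact IntermediateField.mem_bot.1 h1
  obtain ⟨z, hz⟩ : ∃ z, z = P.coeff n₀ := ⟨_, rfl⟩
  obtain ⟨z', hz'⟩ : ∃ z', z' = P'.coeff n₀ := ⟨_, rfl⟩
  rw [← hz, ← hz'] at hn₀
  have hzz : z - z' ≠ 0 := sub_ne_zero.2 hn₀
  have hcz : c z = z' := by
    rcases hcoef c with h | h
    · exfalso
      have h1 := (h n₀).1
      have h2 : c (P.coeff n₀) = P'.coeff n₀ := by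
        have : c (P.coeff n₀) = (P.map (c : L →+* L)).coeff n₀ := by
          rw [Polynomial.coeff_map]
          rfl
        rw [this, hcP]
      rw [h1, ← hz, ← hz'] at h2
      exact hn₀ h2
    · rw [hz, hz']
      exact (h n₀).1
  have hjconj : (starRingEnd ℂ) (j z) ≠ j z := by
    rw [← hc, hcz]
    intro h
    exact hn₀ (j.injective h).symm
  -- the quadratic equation
  obtain ⟨s1, hs1⟩ := hfix (z + z') (by
    intro τ
    rcases hcoef τ with h | h
    · rw [map_add, hz, hz', (h n₀).1, (h n₀).2]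
    · rw [map_add, hz, hz', (h n₀).1, (h n₀).2, add_comm])
  obtain ⟨s2, hs2⟩ := hfix (z * z') (by
    intro τ
    rcases hcoef τ with h | h
    · rw [map_mul, hz, hz', (h n₀).1, (h n₀).2]
    · rw [map_mul, hz, hz', (h n₀).1, (h n₀).2, mul_comm])
  have hint : IsIntegral ℚ (j z) := by
    have h1 : IsIntegral ℚ z := Algebra.IsIntegral.isIntegral z
    exact h1.map (RingHom.toRatAlgHom j)
  have hdeg : (minpoly ℚ (j z)).natDegree = 2 := by
    apply le_antisymm
    · have h1 : (X ^ 2 - C s1 * X + C s2 : ℚ[X]).Monic := by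
        monicity!
      have h2 : (X ^ 2 - C s1 * X + C s2 : ℚ[X]).natDegree = 2 := by
        compute_degree!
      have h3 : minpoly ℚ (j z) ∣ (X ^ 2 - C s1 * X + C s2 : ℚ[X]) := by
        apply minpoly.dvd
        have h4 : z ^ 2 - (z + z') * z + z * z' = 0 := by ring
        rw [← hs1, ← hs2] at h4
        have h5 := congrArg j h4
        rw [map_zero, map_add, map_sub, map_pow, map_mul] at h5
        have h6 : ∀ t : ℚ, j (algebraMap ℚ L t) = algebraMap ℚ ℂ t := fun t => by simp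
        rw [h6, h6] at h5
        simpa using h5
      have h7 := Polynomial.natDegree_le_of_dvd h3 h1.ne_zero
      rwa [h2] at h7
    · rw [minpoly.two_le_natDegree_iff hint]
      rintro ⟨t, ht⟩
      apply hjconj
      rw [← ht]
      simp
  refine ⟨ℚ⟮j z⟯, ?_, ⟨j z, IntermediateField.mem_adjoin_simple_self ℚ (j z), hjconj⟩, ?_⟩
  · rw [IntermediateField.adjoin.finrank hint, hdeg]
  · intro n
    obtain ⟨w, hw⟩ : ∃ w, w = P.coeff n := ⟨_, rfl⟩
    obtain ⟨w', hw'⟩ : ∃ w', w' = P'.coeff n := ⟨_, rfl⟩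
    obtain ⟨r1, hr1⟩ := hfix ((w - w') / (z - z')) (by
      intro τ
      rcases hcoef τ with h | h
      · rw [map_div₀, map_sub, map_sub, hz, hz', hw, hw', (h n₀).1, (h n₀).2, (h n).1, (h n).2]
      · rw [map_div₀, map_sub, map_sub, hz, hz', hw, hw', (h n₀).1, (h n₀).2, (h n).1, (h n).2,
          ← neg_sub (P.coeff n), ← neg_sub (P.coeff n₀), neg_div_neg_eq])
    have hrw : w - w' = (w - w') / (z - z') * (z - z') := by
      rw [div_mul_cancel₀ _ hzz]
    obtain ⟨r2, hr2⟩ := hfix (w - algebraMap ℚ L r1 * z) (by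
      intro τ
      have h1 : τ (algebraMap ℚ L r1) = algebraMap ℚ L r1 := τ.commutes r1
      rcases hcoef τ with h | h
      · rw [map_sub, map_mul, h1, hz, hw, (h n₀).1, (h n).1]
      · rw [map_sub, map_mul, h1]
        have e1 : τ w = w' := by rw [hw, hw']; exact (h n).1
        have e2 : τ z = z' := by rw [hz, hz']; exact (h n₀).1
        rw [e1, e2, hr1]
        linear_combination -hrw)
    have hmem : j w ∈ ℚ⟮j z⟯ := by
      have h1 : w = algebraMap ℚ L r2 + algebraMap ℚ L r1 * z := by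
        rw [hr2]
        ring
      rw [h1, map_add, map_mul]
      have h6 : ∀ t : ℚ, j (algebraMap ℚ L t) = algebraMap ℚ ℂ t := fun t => by simp
      rw [h6, h6]
      exact add_mem (IntermediateField.algebraMap_mem _ _)
        (mul_mem (IntermediateField.algebraMap_mem _ _)
          (IntermediateField.mem_adjoin_simple_self ℚ (j z)))
    have h2 : (∏ l, (X - C (j (y l)))).coeff n = j w := by
      have h3 : ∏ l, (X - C (j (y l))) = P.map j := by
        rw [hP, Polynomial.map_prod]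
        refine Finset.prod_congr rfl fun l _ => ?_
        simp
      rw [h3, Polynomial.coeff_map, hw]
    rw [h2]
    exact hmem

end Pool.Agent.W484.BB
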