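import Mathlib
import Pool.Agent.W484.BB.Three4

/-!
# The core theorem over the complex numbers
-/

set_option autoImplicit false
set_option linter.unusedSectionVars false

namespace Pool.Agent.W484.BB

open Polynomial Pool.Agent.H925R2 Pool.Agent.H485R3 Pool.Agent.H194R3.CM IntermediateField Module
  Pool.Agent.H204R3.CM

theorem exists_galois_of {ι : Type} [Fintype ι] (c : ι → ℂ) (hc : ∀ i, IsIntegral ℤ (c i)) :
    ∃ (L : IntermediateField ℚ (AlgebraicClosure ℚ)) (_ : NumberField L) (_ : IsGalois ℚ L)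
      (j : L →+* ℂ), ∀ i, ∃ y : L, j y = c i := by
  have hcQ : ∀ i, IsIntegral ℚ (c i) := fun i => (hc i).tower_top
  have hfd : ∀ i, FiniteDimensional ℚ ℚ⟮c i⟯ := fun i => adjoin.finiteDimensional (hcQ i)
  have hnf : ∀ i, NumberField ℚ⟮c i⟯ := fun i => NumberField.mk
  obtain ⟨L, hL1, hL2, j, h⟩ := exists_galois (fun i => ℚ⟮c i⟯)
  refine ⟨L, hL1, hL2, j, fun i => ?_⟩
  obtain ⟨φ, hφ⟩ := h i (algebraMap ℚ⟮c i⟯ ℂ)
  refine ⟨φ (AdjoinSimple.gen ℚ (c i)), ?_⟩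
  have h1 := RingHom.congr_fun hφ (AdjoinSimple.gen ℚ (c i))
  exact h1.trans (AdjoinSimple.algebraMap_gen ℚ (c i))

/-- **Three Weil numbers without pairs whose product with a fourth one is trivial.** -/
theorem weil_core (p : ℕ) [Fact p.Prime] (a : ℕ) (ha : 0 < a) (γ : Fin 3 → ℂ)
    (hγ : ∀ j, ‖γ j‖ ^ 2 = (p : ℝ) ^ a) (f : ℤ[X])
    (hf : f.map (Int.castRingHom ℂ) =
      ∏ j, ((X - C (γ j)) * (X - C ((starRingEnd ℂ) (γ j)))))
    (hrank : ¬ (p : ℤ) ∣ f.coeff 4 ∨ ¬ (p : ℤ) ∣ f.coeff 3)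
    (ρ : ℂ) (hρ : IsIntegral ℤ ρ) (hρn : ‖ρ‖ ^ 2 = (p : ℝ) ^ a) (M : ℕ) (hM : 0 < M)
    (hrel : ((∏ j, γ j) * ρ) ^ (2 * M) = ((p : ℂ) ^ a) ^ (M * 4))
    (hgood : ∀ i j, i ≠ j → ¬ Good ((p : ℂ) ^ a) (γ i) (γ j)) :
    ∃ E : IntermediateField ℚ ℂ, finrank ℚ E = 2 ∧ (∃ z ∈ E, (starRingEnd ℂ) z ≠ z) ∧
      ∀ n, (∏ l, (X - C (γ l))).coeff n ∈ E := by
  classical
  have hp0 : (0 : ℝ) < (p : ℝ) ^ a :=
    pow_pos (by exact_mod_cast (Fact.out : p.Prime).pos) _
  have hmonic : f.Monic := by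
    refine Polynomial.monic_of_injective (Int.castRingHom ℂ).injective_int ?_
    rw [hf]
    exact monic_prod_of_monic _ _ fun j _ => (monic_X_sub_C _).mul (monic_X_sub_C _)
  have hconj : ∀ z : ℂ, ‖z‖ ^ 2 = (p : ℝ) ^ a → z * (starRingEnd ℂ) z = (p : ℂ) ^ a := by
    intro z hz
    rw [Complex.mul_conj, Complex.normSq_eq_norm_sq, hz]
    push_cast
    rfl
  have hne0 : ∀ z : ℂ, ‖z‖ ^ 2 = (p : ℝ) ^ a → z ≠ 0 := by
    rintro z hz rfl
    rw [norm_zero] at hz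
    norm_num at hz
    exact hp0.ne hz
  have hroot : ∀ z : ℂ, (f.map (Int.castRingHom ℂ)).IsRoot z ↔
      ∃ j, z = γ j ∨ z = (starRingEnd ℂ) (γ j) := by
    intro z
    rw [hf, IsRoot.def, eval_prod, Finset.prod_eq_zero_iff]
    simp only [Finset.mem_univ, true_and, eval_mul, eval_sub, eval_X, eval_C, mul_eq_zero,
      sub_eq_zero]
  have hγint : ∀ j, IsIntegral ℤ (γ j) := by
    intro j
    refine ⟨f, hmonic, ?_⟩
    have h1 := (hroot (γ j)).2 ⟨j, Or.inl rfl⟩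
    rw [IsRoot.def, eval_map] at h1
    exact h1
  obtain ⟨L, hL1, hL2, j, h⟩ := exists_galois_of (fun o : Option (Fin 3) => o.elim ρ γ) (by
    rintro (_ | i)
    · exact hρ
    · exact hγint i)
  obtain ⟨r, hr⟩ := h none
  have hr : j r = ρ := hr
  have hy : ∀ i, ∃ y : L, j y = γ i := fun i => h (some i)
  choose y hy using hy
  obtain ⟨c, hc⟩ := exists_restrict j (starRingEnd ℂ)
  have hjQ : j (((p : ℚ) ^ a : ℚ) : L) = (p : ℂ) ^ a := by
    rw [map_ratCast]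
    push_cast
    rfl
  have hcw : ∀ w : L, ‖j w‖ ^ 2 = (p : ℝ) ^ a → c w = (((p : ℚ) ^ a : ℚ) : L) / w := by
    intro w hw
    apply j.injective
    rw [hc, map_div₀, hjQ, eq_div_iff (hne0 _ hw), mul_comm]
    exact hconj _ hw
  have hyγ : ∀ i, ‖j (y i)‖ ^ 2 = (p : ℝ) ^ a := fun i => by rw [hy]; exact hγ i
  have hrρ : ‖j r‖ ^ 2 = (p : ℝ) ^ a := by rw [hr]; exact hρn
  have hy0 : ∀ i, y i ≠ 0 := by
    intro i h0
    apply hne0 _ (hyγ i)
    rw [h0, map_zero]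
  have hr0 : r ≠ 0 := by
    intro h0
    apply hne0 _ hrρ
    rw [h0, map_zero]
  have hfL : f.map (Int.castRingHom L) = ∏ i, (X ^ 2 - C (y i + (((p : ℚ) ^ a : ℚ) : L) / y i) * X
      + C (((p : ℚ) ^ a : ℚ) : L)) := by
    apply Polynomial.map_injective j j.injective
    rw [Polynomial.map_map, RingHom.ext_int (j.comp (Int.castRingHom L)) (Int.castRingHom ℂ), hf,
      Polynomial.map_prod]
    refine Finset.prod_congr rfl fun i _ => ?_
    have h1 : j ((((p : ℚ) ^ a : ℚ) : L) / y i) = (starRingEnd ℂ) (γ i) := by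
      rw [← hcw _ (hyγ i), hc, hy]
    simp only [Polynomial.map_add, Polynomial.map_sub, Polynomial.map_mul, Polynomial.map_pow,
      Polynomial.map_X, Polynomial.map_C]
    rw [map_add, h1, hjQ, hy, ← hconj _ (hγ i)]
    simp only [map_add, map_mul]
    ring
  have hint : ∀ w : L, IsIntegral ℤ (j w) → IsIntegral ℤ w := fun w hw => isIntegral_of_map j w hw
  have hint' : ∀ w : L, IsIntegral ℤ (j w) → ‖j w‖ ^ 2 = (p : ℝ) ^ a →
      IsIntegral ℤ ((((p : ℚ) ^ a : ℚ) : L) / w) := by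
    intro w hw hwn
    rw [← hcw w hwn]
    exact (hint w hw).map (c.toAlgHom.restrictScalars ℤ)
  have hyn : ∀ i, ∀ φ : L →+* ℂ, ‖φ (y i)‖ ^ 2 = (p : ℝ) ^ a := by
    intro i φ
    have h1 : (f.map (Int.castRingHom L)).IsRoot (y i) := by
      rw [hfL, IsRoot.def, eval_prod]
      refine Finset.prod_eq_zero (Finset.mem_univ i) ?_
      simp only [eval_add, eval_sub, eval_mul, eval_pow, eval_X, eval_C]
      have h2 := hy0 i
      field_simp
      ring
    have h2 : (f.map (Int.castRingHom ℂ)).IsRoot (φ (y i)) := by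
      rw [IsRoot.def, eval_map] at h1 ⊢
      have h3 := congrArg φ h1
      rw [map_zero, Polynomial.hom_eval₂,
        RingHom.ext_int (φ.comp (Int.castRingHom L)) (Int.castRingHom ℂ)] at h3
      exact h3
    obtain ⟨k, h3 | h3⟩ := (hroot _).1 h2
    · rw [h3]
      exact hγ k
    · rw [h3, Complex.norm_conj]
      exact hγ k
  have hgoodL : ∀ i k, i ≠ k →
      ¬ ∃ N : ℕ, 0 < N ∧ (y i * y k) ^ N = (((p : ℚ) ^ a : ℚ) : L) ^ N := by
    rintro i k hik ⟨N, hN, h1⟩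
    apply hgood i k hik
    refine ⟨N, hN, ?_⟩
    have h2 := congrArg j h1
    rw [map_pow, map_mul, map_pow, hy, hy, hjQ] at h2
    exact h2
  have hrelL : ((∏ i, y i) * r) ^ (2 * M) = (((p : ℚ) ^ a : ℚ) : L) ^ (M * 4) := by
    apply j.injective
    rw [map_pow, map_mul, map_prod, map_pow, hjQ, hr, ← hrel]
    simp only [hy]
  have key := weil_or_good p a y hy0 (fun i => hint _ (by rw [hy]; exact hγint i))
    (fun i => hint' _ (by rw [hy]; exact hγint i) (hyγ i)) hyn ha f hfL hrank r hr0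
    (hint _ (by rw [hr]; exact hρ)) (hint' _ (by rw [hr]; exact hρ) hrρ) M hM hrelL hgoodL
  obtain ⟨E, hE1, hE2, hE3⟩ := exists_quadratic j y (((p : ℚ) ^ a : ℚ) : L)
    (fun τ => (key τ).1) (by
      intro heq
      have h1 := congrArg (Polynomial.eval (y 0)) heq
      rw [eval_prod, eval_prod, Finset.prod_eq_zero (Finset.mem_univ 0)] at h1
      · have h2 := h1.symm
        rw [Finset.prod_eq_zero_iff] at h2
        obtain ⟨k, _, hk⟩ := h2
        rw [eval_sub, eval_X, eval_C, sub_eq_zero, eq_div_iff (hy0 k)] at hk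
        by_cases hk0 : (0 : Fin 3) = k
        · rw [← hk0] at hk
          exact (key 1).2 0 hk
        · exact hgoodL 0 k hk0 ⟨1, one_pos, by rw [pow_one, pow_one, hk]⟩
      · rw [eval_sub, eval_X, eval_C, sub_self]) c hc (fun l => hcw _ (hyγ l))
  refine ⟨E, hE1, hE2, ?_⟩
  intro n
  have h1 := hE3 n
  simp only [hy] at h1
  exact h1

end Pool.Agent.W484.BB
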